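import Mathlib

/-!
The completion of a domain at a nonzero principal ideal.
-/

set_option linter.unusedSectionVars false

namespace Pool.Agent.K9h38.FM

open Ideal

universe u

variable {A : Type u} [CommRing A] [IsDomain A] {x : A} {I : Ideal A}

theorem mem_pow_iff (hI : I = span {x}) {n : ℕ} {c : A} : c ∈ I ^ n ↔ x ^ n ∣ c := by
  rw [hI, Ideal.span_singleton_pow, Ideal.mem_span_singleton]

theorem mem_pow_of_mul_mem (hx : x ≠ 0) (hI : I = span {x}) {j n : ℕ} {c : A}
    (h : x ^ j * c ∈ I ^ (n + j)) : c ∈ I ^ n := by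
  rw [hI, Ideal.span_singleton_pow, Ideal.mem_span_singleton] at h ⊢
  obtain ⟨d, hd⟩ := h
  refine ⟨d, ?_⟩
  rw [pow_add, mul_comm (x ^ n), mul_assoc] at hd
  exact mul_left_cancel₀ (pow_ne_zero j hx) hd

theorem mul_pow_injective (hx : x ≠ 0) (hI : I = span {x}) (j : ℕ) (b : AdicCompletion I A)
    (h : algebraMap A (AdicCompletion I A) x ^ j * b = 0) : b = 0 := by
  obtain ⟨f, rfl⟩ := AdicCompletion.mk_surjective I A b
  refine AdicCompletion.ext_evalₐ fun n => ?_
  rw [map_zero]
  have h1 := congrArg (AdicCompletion.evalₐ I (n + j)) h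
  rw [map_zero, map_mul, map_pow, AdicCompletion.evalₐ_mk] at h1
  have h2 : AdicCompletion.evalₐ I (n + j) (algebraMap A (AdicCompletion I A) x) =
      Ideal.Quotient.mk _ x := AdicCompletion.evalₐ_of I _ x
  rw [h2, ← map_pow, ← map_mul, Ideal.Quotient.eq_zero_iff_mem] at h1
  have h3 := mem_pow_of_mul_mem hx hI h1
  rw [AdicCompletion.evalₐ_mk]
  have h4 := AdicCompletion.Ideal.mk_eq_mk I (Nat.le_add_right n j) f
  rw [← h4, Ideal.Quotient.eq_zero_iff_mem]
  exact h3

theorem exists_factor (hx : x ≠ 0) (hI : I = span {x}) (b : AdicCompletion I A) (hb : b ≠ 0) :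
    ∃ (j : ℕ) (b' : AdicCompletion I A), b = algebraMap A (AdicCompletion I A) x ^ j * b' ∧
      AdicCompletion.evalₐ I 1 b' ≠ 0 := by
  classical
  obtain ⟨f, rfl⟩ := AdicCompletion.mk_surjective I A b
  have hex : ∃ n, AdicCompletion.evalₐ I n (AdicCompletion.mk I A f) ≠ 0 := by
    by_contra hcon
    push Not at hcon
    exact hb (AdicCompletion.ext_evalₐ fun n => by rw [hcon n, map_zero])
  set n := Nat.find hex with hn
  have hn1 : AdicCompletion.evalₐ I n (AdicCompletion.mk I A f) ≠ 0 := Nat.find_spec hex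
  have hn0 : n ≠ 0 := by
    intro h0
    apply hn1
    rw [h0]
    have : Subsingleton (A ⧸ I ^ 0) := by
      rw [pow_zero, Ideal.one_eq_top]
      exact Ideal.Quotient.subsingleton_iff.2 rfl
    exact Subsingleton.elim _ _
  obtain ⟨j, hj⟩ := Nat.exists_eq_succ_of_ne_zero hn0
  have hj0 : AdicCompletion.evalₐ I j (AdicCompletion.mk I A f) = 0 := by
    have := Nat.find_min hex (m := j) (by omega)
    rwa [not_not] at this
  rw [AdicCompletion.evalₐ_mk, Ideal.Quotient.eq_zero_iff_mem] at hj0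
  have hmem : ∀ m, j ≤ m → f m ∈ I ^ j := by
    intro m hm
    have h4 := AdicCompletion.Ideal.mk_eq_mk I hm f
    rw [← Ideal.Quotient.eq_zero_iff_mem] at hj0 ⊢
    rw [h4]
    exact hj0
  have hdiv : ∀ m, ∃ c, f (m + j) = x ^ j * c := by
    intro m
    exact (mem_pow_iff hI).1 (hmem (m + j) (by omega))
  choose c hc using hdiv
  have hcau : ∀ m, c m ≡ c (m + 1) [SMOD (I ^ m • ⊤ : Submodule A A)] := by
    intro m
    rw [SModEq.sub_mem, smul_eq_mul, Ideal.mul_top]
    apply mem_pow_of_mul_mem hx hI (j := j)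
    rw [mul_sub, ← hc, ← hc]
    have h4 := AdicCompletion.Ideal.mk_eq_mk I (show m + j ≤ m + 1 + j by omega) f
    rw [Ideal.Quotient.eq] at h4
    have h5 := (I ^ (m + j)).neg_mem h4
    rwa [neg_sub] at h5
  let c' : AdicCompletion.AdicCauchySequence I A := AdicCompletion.AdicCauchySequence.mk I A c hcau
  have hc' : ∀ m, c' m = c m := fun m => rfl
  refine ⟨j, AdicCompletion.mk I A c', ?_, ?_⟩
  · refine AdicCompletion.ext_evalₐ fun m => ?_
    rw [map_mul, map_pow, AdicCompletion.evalₐ_mk, AdicCompletion.evalₐ_mk]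
    have h2 : AdicCompletion.evalₐ I m (algebraMap A (AdicCompletion I A) x) =
        Ideal.Quotient.mk _ x := AdicCompletion.evalₐ_of I _ x
    rw [h2, hc', ← map_pow, ← map_mul, ← hc]
    exact (AdicCompletion.Ideal.mk_eq_mk I (Nat.le_add_right m j) f).symm
  · rw [AdicCompletion.evalₐ_mk, hc']
    intro h0
    rw [Ideal.Quotient.eq_zero_iff_mem, pow_one] at h0
    apply hn1
    rw [hj, AdicCompletion.evalₐ_mk, Ideal.Quotient.eq_zero_iff_mem]
    have h4 : f (j + 1) = x ^ j * c 1 := by rw [add_comm, hc]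
    rw [Nat.succ_eq_add_one, h4, pow_succ]
    exact Ideal.mul_mem_mul ((mem_pow_iff hI).2 dvd_rfl) h0

end Pool.Agent.K9h38.FM
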