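import Mathlib
import Pool.Agent.W292.FM.Cyclo

/-!
A compatible system of `p`-power roots of unity in `ℚ_[p]^alg`, and elements of the Galois group
which generate the successive layers of the cyclotomic tower.
-/

set_option linter.unusedSectionVars false

namespace Pool.Agent.K9h38.FM

open Polynomial Pool.Agent.W292.FM

variable (p : ℕ) [hp : Fact p.Prime]

theorem exists_prim_step (n : ℕ) (z : PadicAlgCl p) (hz : IsPrimitiveRoot z (p ^ n)) :
    ∃ w : PadicAlgCl p, IsPrimitiveRoot w (p ^ (n + 1)) ∧ w ^ p = z := by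
  have hpn : ∀ n, NeZero (p ^ n) := fun n => ⟨pow_ne_zero _ hp.out.ne_zero⟩
  obtain ⟨w0, hw0⟩ := HasEnoughRootsOfUnity.exists_primitiveRoot (PadicAlgCl p) (p ^ (n + 1))
  have h1 : IsPrimitiveRoot (w0 ^ p) (p ^ n) :=
    hw0.pow (pow_pos hp.out.pos _) (by rw [pow_succ, mul_comm])
  rcases Nat.eq_zero_or_pos n with rfl | hn
  · refine ⟨w0, hw0, ?_⟩
    rw [pow_zero] at hz h1
    have e1 : z = 1 := by simpa using hz
    have e2 : w0 ^ p = 1 := by simpa using h1
    rw [e1, e2]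
  · obtain ⟨i, -, hi, hiz⟩ := (h1.isPrimitiveRoot_iff (k := p ^ n)).1 hz
    refine ⟨w0 ^ i, ?_, ?_⟩
    · refine hw0.pow_of_coprime i ?_
      have : i.Coprime p := Nat.Coprime.coprime_dvd_right (dvd_pow_self p hn.ne') hi
      exact this.pow_right _
    · rw [← hiz, ← pow_mul, ← pow_mul, mul_comm]

theorem exists_system : ∃ z : ℕ → PadicAlgCl p, (∀ n, IsPrimitiveRoot (z n) (p ^ n)) ∧
    ∀ n, z (n + 1) ^ p = z n := by
  choose f hf1 hf2 using exists_prim_step p
  let g : (n : ℕ) → {z : PadicAlgCl p // IsPrimitiveRoot z (p ^ n)} := fun n =>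
    Nat.rec ⟨1, by simp⟩ (fun n z => ⟨f n z.1 z.2, hf1 n z.1 z.2⟩) n
  exact ⟨fun n => (g n).1, fun n => (g n).2, fun n => hf2 n (g n).1 (g n).2⟩

/-- A compatible system of primitive `p ^ n`-th roots of unity. -/
noncomputable def zt : ℕ → PadicAlgCl p := (exists_system p).choose

theorem zt_prim (n : ℕ) : IsPrimitiveRoot (zt p n) (p ^ n) := (exists_system p).choose_spec.1 n

theorem zt_pow (n : ℕ) : zt p (n + 1) ^ p = zt p n := (exists_system p).choose_spec.2 n

theorem zt_zero : zt p 0 = 1 := by simpa using zt_prim p 0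

theorem zt_pow_pow (n k : ℕ) : zt p (n + k) ^ p ^ k = zt p n := by
  induction k with
  | zero => simp
  | succ k ih => rw [← add_assoc, pow_succ', pow_mul, zt_pow, ih]

/-- The field (as a subalgebra) generated by the `p ^ n`-th roots of unity. -/
noncomputable def KK (n : ℕ) : Subalgebra ℚ_[p] (PadicAlgCl p) := Algebra.adjoin ℚ_[p] {zt p n}

theorem zt_mem (n : ℕ) : zt p n ∈ KK p n := Algebra.subset_adjoin rfl

theorem KK_mono {m n : ℕ} (h : m ≤ n) : KK p m ≤ KK p n := by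
  obtain ⟨k, rfl⟩ := Nat.exists_eq_add_of_le h
  rw [KK, Algebra.adjoin_le_iff, Set.singleton_subset_iff]
  rw [← zt_pow_pow p m k]
  exact pow_mem (zt_mem p _) _

theorem norm_zt (n : ℕ) : ‖zt p n‖ = 1 :=
  norm_rootOfUnity (pow_ne_zero n hp.out.ne_zero) (zt_prim p n).pow_eq_one

theorem norm_zt_sub_one_pow (n : ℕ) :
    ‖zt p (n + 1) - 1‖ ^ (Nat.totient (p ^ (n + 1))) = (p : ℝ)⁻¹ :=
  norm_sub_one_pow_totient (zt_prim p (n + 1))

/-- Expansion of an element of `KK (n + 1)` in powers of `ζ - 1`. -/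
theorem exists_expansion (n : ℕ) {y : PadicAlgCl p} (hy : y ∈ KK p (n + 1)) :
    ∃ a : ℕ → ℚ_[p], y = ∑ i ∈ Finset.range (Nat.totient (p ^ (n + 1))),
      algebraMap ℚ_[p] (PadicAlgCl p) (a i) * (zt p (n + 1) - 1) ^ i := by
  rw [KK, Algebra.adjoin_singleton_eq_range_aeval] at hy
  obtain ⟨P, rfl⟩ := hy
  set e := Nat.totient (p ^ (n + 1)) with he
  have he0 : 0 < e := Nat.totient_pos.2 (pow_pos hp.out.pos _)
  set M : ℚ_[p][X] := (cyclotomic (p ^ (n + 1)) ℚ_[p]).comp (X + 1) with hM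
  have hX1 : (X + 1 : ℚ_[p][X]) = X + C 1 := by simp
  have hMm : M.Monic := by
    rw [hM, hX1]
    exact (cyclotomic.monic _ _).comp (monic_X_add_C 1) (by rw [natDegree_X_add_C]; exact one_ne_zero)
  have hMd : M.natDegree = e := by
    rw [hM, natDegree_comp, hX1, natDegree_X_add_C, mul_one, natDegree_cyclotomic]
  have hM0 : aeval (zt p (n + 1) - 1) M = 0 := by
    rw [hM, aeval_comp]
    simp only [map_add, aeval_X, map_one, sub_add_cancel]
    have h1 := (zt_prim p (n + 1)).isRoot_cyclotomic (pow_pos hp.out.pos _)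
    rw [IsRoot.def, ← map_cyclotomic (p ^ (n + 1)) (algebraMap ℚ_[p] (PadicAlgCl p)),
      eval_map_algebraMap] at h1
    exact h1
  set Q : ℚ_[p][X] := P.comp (X + 1) with hQ
  have hQy : aeval (zt p (n + 1) - 1) Q = aeval (zt p (n + 1)) P := by
    rw [hQ, aeval_comp]
    simp
  have hR : aeval (zt p (n + 1) - 1) (Q %ₘ M) = aeval (zt p (n + 1)) P := by
    rw [← hQy]
    conv_rhs => rw [← modByMonic_add_div Q M]
    rw [map_add, map_mul, hM0, zero_mul, add_zero]
  have hlt : (Q %ₘ M).natDegree < e := by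
    rw [← hMd]
    refine natDegree_modByMonic_lt Q hMm ?_
    intro h1
    rw [h1, natDegree_one] at hMd
    omega
  refine ⟨fun i => (Q %ₘ M).coeff i, ?_⟩
  change aeval (zt p (n + 1)) P = _
  rw [← hR, aeval_eq_sum_range' hlt]
  refine Finset.sum_congr rfl fun i _ => ?_
  rw [Algebra.smul_def]

theorem norm_pow_totient_eq (n : ℕ) {y : PadicAlgCl p} (hy : y ∈ KK p (n + 1)) (h0 : y ≠ 0) :
    ∃ k : ℤ, ‖y‖ ^ (Nat.totient (p ^ (n + 1))) = (p : ℝ) ^ k := by
  obtain ⟨a, ha⟩ := exists_expansion p n hy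
  set e := Nat.totient (p ^ (n + 1)) with he
  have hp1 : (1 : ℝ) < p := one_lt_p p
  have hp0 : (0 : ℝ) < p := by linarith
  -- the largest term
  have hne : (Finset.range e).Nonempty := by
    rw [Finset.nonempty_range_iff]
    exact (Nat.totient_pos.2 (pow_pos hp.out.pos _)).ne'
  obtain ⟨i, hi, hmax⟩ := IsUltrametricDist.exists_norm_finsetSum_le_of_nonempty hne
    (fun i => algebraMap ℚ_[p] (PadicAlgCl p) (a i) * (zt p (n + 1) - 1) ^ i)
  rw [← ha] at hmax
  have hle := norm_term_le (zt_prim p (n + 1)) a (Finset.mem_range.1 hi)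
  rw [← he, ← ha] at hle
  have heq := le_antisymm hmax hle
  have hai : a i ≠ 0 := by
    intro h1
    rw [h1, map_zero, zero_mul, norm_zero] at heq
    exact h0 (norm_eq_zero.1 heq)
  rw [heq, norm_mul, norm_pow, mul_pow, ← pow_mul, mul_comm i e, pow_mul,
    norm_zt_sub_one_pow]
  have ha' : ‖algebraMap ℚ_[p] (PadicAlgCl p) (a i)‖ = ‖a i‖ := PadicAlgCl.norm_extends p (a i)
  rw [ha', Padic.norm_eq_zpow_neg_valuation hai]
  refine ⟨-(a i).valuation * e - i, ?_⟩
  rw [← zpow_natCast, ← zpow_mul, zpow_sub₀ hp0.ne', inv_pow, zpow_natCast]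
  rfl

theorem zt_not_mem (n : ℕ) : zt p (n + 2) ∉ KK p (n + 1) := by
  intro h
  have hp1 : (1 : ℝ) < p := one_lt_p p
  have hp0 : (0 : ℝ) < p := by linarith
  have h1 : zt p (n + 2) - 1 ∈ KK p (n + 1) := sub_mem h (one_mem _)
  have h2 : zt p (n + 2) - 1 ≠ 0 := by
    intro h3
    have h4 := norm_zt_sub_one_pow p (n + 1)
    rw [h3, norm_zero, zero_pow (Nat.totient_pos.2 (pow_pos hp.out.pos _)).ne'] at h4
    exact (inv_pos.2 hp0).ne h4
  obtain ⟨k, hk⟩ := norm_pow_totient_eq p n h1 h2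
  have h3 := norm_zt_sub_one_pow p (n + 1)
  have h4 : Nat.totient (p ^ (n + 2)) = Nat.totient (p ^ (n + 1)) * p := by
    rw [Nat.totient_prime_pow_succ hp.out, Nat.totient_prime_pow_succ hp.out]
    ring
  rw [show n + 1 + 1 = n + 2 from rfl, h4, pow_mul, hk, ← zpow_natCast, ← zpow_mul,
    ← zpow_neg_one] at h3
  have h5 := zpow_right_injective₀ hp0 hp1.ne' h3
  have h6 : (p : ℤ) ∣ 1 := ⟨-k, by linarith⟩
  have h7 := Int.le_of_dvd one_pos h6
  have := hp.out.one_lt
  omega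

/-- There is an element of the Galois group which fixes `ζ_(n+1)` and moves `ζ_(n+2)`. -/
theorem exists_gamma (n : ℕ) : ∃ g : Gal(PadicAlgCl p/ℚ_[p]),
    g (zt p (n + 1)) = zt p (n + 1) ∧ g (zt p (n + 2)) ≠ zt p (n + 2) := by
  by_contra hcon
  push Not at hcon
  let L : IntermediateField ℚ_[p] (PadicAlgCl p) := IntermediateField.adjoin ℚ_[p] {zt p (n + 1)}
  have hL : zt p (n + 2) ∈ L := by
    rw [← InfiniteGalois.fixedField_fixingSubgroup L]
    intro g
    apply hcon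
    exact g.2 ⟨_, IntermediateField.mem_adjoin_simple_self _ _⟩
  have : L.toSubalgebra = KK p (n + 1) :=
    IntermediateField.adjoin_simple_toSubalgebra_of_isAlgebraic
      (Algebra.IsAlgebraic.isAlgebraic _)
  apply zt_not_mem p n
  rw [← this]
  exact hL

end Pool.Agent.K9h38.FM
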