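import Mathlib
import Pool.Agent.K9h38.FM.Tower

/-!
The normalised traces of the cyclotomic tower over `ℚ_[p]`.
-/

set_option linter.unusedSectionVars false

namespace Pool.Agent.K9h38.FM

open Polynomial Pool.Agent.W292.FM

variable (p : ℕ) [hp : Fact p.Prime]

/-- An element of the Galois group which fixes `ζ_j` and moves `ζ_(j+1)`, for `j ≥ 1`. -/
noncomputable def gam (j : ℕ) : Gal(PadicAlgCl p/ℚ_[p]) := (exists_gamma p (j - 1)).choose

theorem gam_fix {j : ℕ} (hj : 1 ≤ j) : gam p j (zt p j) = zt p j := by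
  obtain ⟨i, rfl⟩ : ∃ i, j = i + 1 := ⟨j - 1, by omega⟩
  exact (exists_gamma p i).choose_spec.1

theorem gam_move {j : ℕ} (hj : 1 ≤ j) : gam p j (zt p (j + 1)) ≠ zt p (j + 1) := by
  obtain ⟨i, rfl⟩ : ∃ i, j = i + 1 := ⟨j - 1, by omega⟩
  exact (exists_gamma p i).choose_spec.2

theorem gam_fix_le {i j : ℕ} (hj : 1 ≤ j) (hij : i ≤ j) : gam p j (zt p i) = zt p i := by
  obtain ⟨k, rfl⟩ := Nat.exists_eq_add_of_le hij
  rw [← zt_pow_pow p i k, map_pow, gam_fix p hj]

theorem fix_KK {n : ℕ} {g : Gal(PadicAlgCl p/ℚ_[p])} (hg : g (zt p n) = zt p n)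
    {y : PadicAlgCl p} (hy : y ∈ KK p n) : g y = y := by
  induction hy using Algebra.adjoin_induction with
  | mem x hx => rw [Set.mem_singleton_iff.1 hx, hg]
  | algebraMap r => exact g.commutes r
  | add x y _ _ hx hy => rw [map_add, hx, hy]
  | mul x y _ _ hx hy => rw [map_mul, hx, hy]

theorem zt_ne_zero (n : ℕ) : zt p n ≠ 0 := by
  intro h
  have := norm_zt p n
  rw [h, norm_zero] at this
  exact zero_ne_one this

/-- Every Galois element raises `ζ_n` to a power. -/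
theorem exists_pow (g : Gal(PadicAlgCl p/ℚ_[p])) (n : ℕ) : ∃ a : ℕ, g (zt p n) = zt p n ^ a := by
  have hn : NeZero (p ^ n) := ⟨pow_ne_zero _ hp.out.ne_zero⟩
  have h : IsPrimitiveRoot (g (zt p n)) (p ^ n) := (zt_prim p n).map_of_injective g.injective
  obtain ⟨a, -, ha⟩ := (zt_prim p n).eq_pow_of_pow_eq_one h.pow_eq_one
  exact ⟨a, ha.symm⟩

theorem comm_KK (g h : Gal(PadicAlgCl p/ℚ_[p])) {n : ℕ} {y : PadicAlgCl p} (hy : y ∈ KK p n) :
    g (h y) = h (g y) := by
  induction hy using Algebra.adjoin_induction with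
  | mem x hx =>
    rw [Set.mem_singleton_iff.1 hx]
    obtain ⟨a, ha⟩ := exists_pow p g n
    obtain ⟨b, hb⟩ := exists_pow p h n
    rw [ha, hb, map_pow, map_pow, ha, hb, ← pow_mul, ← pow_mul, mul_comm]
  | algebraMap r => rw [g.commutes, h.commutes, g.commutes]
  | add x y _ _ hx hy => rw [map_add, map_add, map_add, map_add, hx, hy]
  | mul x y _ _ hx hy => rw [map_mul, map_mul, map_mul, map_mul, hx, hy]

theorem map_mem_KK (g : Gal(PadicAlgCl p/ℚ_[p])) {n : ℕ} {y : PadicAlgCl p} (hy : y ∈ KK p n) :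
    g y ∈ KK p n := by
  induction hy using Algebra.adjoin_induction with
  | mem x hx =>
    rw [Set.mem_singleton_iff.1 hx]
    obtain ⟨a, ha⟩ := exists_pow p g n
    rw [ha]
    exact pow_mem (zt_mem p n) _
  | algebraMap r => rw [g.commutes]; exact Subalgebra.algebraMap_mem _ r
  | add x y _ _ hx hy => rw [map_add]; exact add_mem hx hy
  | mul x y _ _ hx hy => rw [map_mul]; exact mul_mem hx hy

/-- The averaging operator of one step of the tower. -/
noncomputable def TT1 (j : ℕ) : PadicAlgCl p →ₗ[ℚ_[p]] PadicAlgCl p :=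
  (p : ℚ_[p])⁻¹ • ∑ s ∈ Finset.range p, ((gam p j) ^ s : Gal(PadicAlgCl p/ℚ_[p])).toLinearMap

theorem TT1_apply (j : ℕ) (y : PadicAlgCl p) :
    TT1 p j y = (p : ℚ_[p])⁻¹ • ∑ s ∈ Finset.range p, ((gam p j) ^ s) y := by
  simp [TT1, LinearMap.sum_apply]

theorem TT1_fix {j : ℕ} {y : PadicAlgCl p} (h : gam p j y = y) : TT1 p j y = y := by
  have h1 : ∀ s : ℕ, ((gam p j) ^ s) y = y := by
    intro s
    induction s with
    | zero => rfl
    | succ s ih => rw [pow_succ, AlgEquiv.mul_apply, h, ih]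
  have hp0 : (p : ℚ_[p]) ≠ 0 := by exact_mod_cast hp.out.ne_zero
  rw [TT1_apply, Finset.sum_congr rfl (fun s _ => h1 s), Finset.sum_const, Finset.card_range,
    ← Nat.cast_smul_eq_nsmul ℚ_[p], smul_smul, inv_mul_cancel₀ hp0, one_smul]

theorem TT1_zt {j : ℕ} (hj : 1 ≤ j) (a : ℕ) :
    TT1 p j (zt p (j + 1) ^ a) = 0 ∨ ∃ b : ℕ, TT1 p j (zt p (j + 1) ^ a) = zt p j ^ b := by
  by_cases ha : p ∣ a
  · right
    obtain ⟨b, rfl⟩ := ha
    refine ⟨b, ?_⟩
    rw [pow_mul, zt_pow, TT1_fix]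
    rw [map_pow, gam_fix p hj]
  · left
    set z := zt p (j + 1) with hz
    have hz0 : z ≠ 0 := zt_ne_zero p _
    set w := gam p j z / z with hw
    have hgz : gam p j z = z * w := by rw [hw]; field_simp
    have hwp : w ^ p = 1 := by
      rw [hw, div_pow, ← map_pow, hz, zt_pow, gam_fix p hj, div_self (zt_ne_zero p _)]
    have hw1 : w ≠ 1 := by
      intro h
      rw [h, mul_one] at hgz
      exact gam_move p hj hgz
    have hwprim : IsPrimitiveRoot w p := by
      refine IsPrimitiveRoot.iff_orderOf.2 ?_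
      exact orderOf_eq_prime hwp hw1
    have hgw : gam p j w = w := by
      have h1 : IsPrimitiveRoot (zt p 1) p := by simpa using zt_prim p 1
      have : NeZero p := ⟨hp.out.ne_zero⟩
      obtain ⟨c, -, hc⟩ := h1.eq_pow_of_pow_eq_one hwp
      rw [← hc, map_pow, gam_fix_le p hj hj]
    have h1 : ∀ s : ℕ, ((gam p j) ^ s) z = z * w ^ s := by
      intro s
      induction s with
      | zero => simp
      | succ s ih => rw [pow_succ', AlgEquiv.mul_apply, ih, map_mul, map_pow, hgw, hgz]; ring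
    rw [TT1_apply]
    have h2 : ∑ s ∈ Finset.range p, ((gam p j) ^ s) (z ^ a) = 0 := by
      have h3 : ∀ s ∈ Finset.range p, ((gam p j) ^ s) (z ^ a) = z ^ a * (w ^ a) ^ s := by
        intro s _
        rw [map_pow, h1]
        ring
      rw [Finset.sum_congr rfl h3, ← Finset.mul_sum]
      have h4 : IsPrimitiveRoot (w ^ a) p := hwprim.pow_of_coprime a
        ((Nat.Prime.coprime_iff_not_dvd hp.out).2 ha).symm
      rw [h4.geom_sum_eq_zero hp.out.one_lt, mul_zero]
    rw [h2, smul_zero]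

/-- The normalised trace from level `i + k` to level `i`. -/
noncomputable def RR : ℕ → ℕ → (PadicAlgCl p →ₗ[ℚ_[p]] PadicAlgCl p)
  | _, 0 => LinearMap.id
  | i, (k + 1) => (TT1 p i).comp (RR (i + 1) k)

theorem RR_zero (i : ℕ) (y : PadicAlgCl p) : RR p i 0 y = y := rfl

theorem RR_succ (i k : ℕ) (y : PadicAlgCl p) : RR p i (k + 1) y = TT1 p i (RR p (i + 1) k y) := rfl

theorem RR_zt (k : ℕ) : ∀ {i : ℕ}, 1 ≤ i → ∀ a : ℕ,
    RR p i k (zt p (i + k) ^ a) = 0 ∨ ∃ b : ℕ, RR p i k (zt p (i + k) ^ a) = zt p i ^ b := by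
  induction k with
  | zero => intro i _ a; right; exact ⟨a, by simp [RR_zero]⟩
  | succ k ih =>
    intro i hi a
    have e : i + (k + 1) = (i + 1) + k := by ring
    rcases ih (i := i + 1) (by omega) a with h | ⟨b, h⟩
    · left
      rw [RR_succ, e, h, map_zero]
    · rw [RR_succ, e, h]
      exact TT1_zt p hi b

theorem RR_zt_norm {i : ℕ} (hi : 1 ≤ i) (k a : ℕ) : ‖RR p i k (zt p (i + k) ^ a)‖ ≤ 1 := by
  rcases RR_zt p k hi a with h | ⟨b, h⟩
  · rw [h, norm_zero]; exact zero_le_one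
  · rw [h, norm_pow, norm_zt, one_pow]

theorem RR_zt_mem {i : ℕ} (hi : 1 ≤ i) (k a : ℕ) : RR p i k (zt p (i + k) ^ a) ∈ KK p i := by
  rcases RR_zt p k hi a with h | ⟨b, h⟩
  · rw [h]; exact zero_mem _
  · rw [h]; exact pow_mem (zt_mem p i) _

theorem RR_pi_norm {i : ℕ} (hi : 1 ≤ i) (k a : ℕ) : ‖RR p i k ((zt p (i + k) - 1) ^ a)‖ ≤ 1 := by
  rw [sub_eq_add_neg, add_pow, map_sum]
  refine IsUltrametricDist.norm_sum_le_of_forall_le_of_nonneg zero_le_one ?_
  intro j _
  have h : zt p (i + k) ^ j * (-1) ^ (a - j) * ((a.choose j : ℕ) : PadicAlgCl p) =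
      (((-1) ^ (a - j) * ((a.choose j : ℕ) : ℚ_[p])) : ℚ_[p]) • zt p (i + k) ^ j := by
    rw [Algebra.smul_def, map_mul, map_pow, map_neg, map_one, map_natCast]
    ring
  rw [h, map_smul, norm_smul]
  refine mul_le_one₀ ?_ (norm_nonneg _) (RR_zt_norm p hi k j)
  rw [norm_mul, norm_pow, norm_neg, norm_one, one_pow, one_mul]
  exact Padic.norm_int_le_one (a.choose j : ℤ)

/-- The uniform bound for the normalised traces. -/
theorem RR_norm_le {i : ℕ} (hi : 1 ≤ i) (k : ℕ) {y : PadicAlgCl p} (hy : y ∈ KK p (i + k)) :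
    ‖RR p i k y‖ ≤ p * ‖y‖ := by
  have hp1 : (1 : ℝ) < p := one_lt_p p
  have hp0 : (0 : ℝ) < p := by linarith
  obtain ⟨n, hn⟩ : ∃ n, i + k = n + 1 := ⟨i + k - 1, by omega⟩
  rw [hn] at hy
  obtain ⟨a, ha⟩ := exists_expansion p n hy
  set e := Nat.totient (p ^ (n + 1)) with he
  have hterm : ∀ j ∈ Finset.range e, ‖a j‖ ≤ p * ‖y‖ := by
    intro j hj
    have h1 := norm_term_le (zt_prim p (n + 1)) a (Finset.mem_range.1 hj)
    rw [← he, ← ha, norm_mul, norm_pow] at h1
    have ha' : ‖algebraMap ℚ_[p] (PadicAlgCl p) (a j)‖ = ‖a j‖ := PadicAlgCl.norm_extends p (a j)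
    rw [ha'] at h1
    have h2 := norm_zt_sub_one_pow p n
    rw [← he] at h2
    have h3 : ‖zt p (n + 1) - 1‖ ≤ 1 := by
      rw [sub_eq_add_neg]
      refine (IsUltrametricDist.norm_add_le_max _ _).trans ?_
      rw [norm_zt, norm_neg, norm_one, max_self]
    have h4 : (p : ℝ)⁻¹ ≤ ‖zt p (n + 1) - 1‖ ^ j := by
      rw [← h2]
      exact pow_le_pow_of_le_one (norm_nonneg _) h3 (Finset.mem_range.1 hj).le
    have h5 : ‖a j‖ * (p : ℝ)⁻¹ ≤ ‖y‖ := le_trans (mul_le_mul_of_nonneg_left h4 (norm_nonneg _)) h1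
    rw [← div_eq_mul_inv, div_le_iff₀ hp0] at h5
    linarith
  have h6 : RR p i k y = ∑ j ∈ Finset.range e, a j • RR p i k ((zt p (i + k) - 1) ^ j) := by
    conv_lhs => rw [ha]
    rw [map_sum, hn]
    refine Finset.sum_congr rfl fun j _ => ?_
    rw [← Algebra.smul_def, map_smul]
  rw [h6]
  refine IsUltrametricDist.norm_sum_le_of_forall_le_of_nonneg (by positivity) ?_
  intro j hj
  rw [norm_smul]
  calc ‖a j‖ * ‖RR p i k ((zt p (i + k) - 1) ^ j)‖ ≤ (p * ‖y‖) * 1 :=
        mul_le_mul (hterm j hj) (RR_pi_norm p hi k j) (norm_nonneg _) (by positivity)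
    _ = p * ‖y‖ := mul_one _

theorem RR_mem {i : ℕ} (hi : 1 ≤ i) (k : ℕ) {y : PadicAlgCl p} (hy : y ∈ KK p (i + k)) :
    RR p i k y ∈ KK p i := by
  rw [KK, Algebra.adjoin_singleton_eq_range_aeval] at hy
  obtain ⟨P, rfl⟩ := hy
  change RR p i k (aeval (zt p (i + k)) P) ∈ _
  rw [aeval_eq_sum_range, map_sum]
  refine sum_mem fun j _ => ?_
  rw [map_smul]
  exact Subalgebra.smul_mem _ (RR_zt_mem p hi k j) _

theorem TT1_comm (g : Gal(PadicAlgCl p/ℚ_[p])) (j : ℕ) {n : ℕ} {y : PadicAlgCl p}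
    (hy : y ∈ KK p n) : TT1 p j (g y) = g (TT1 p j y) := by
  rw [TT1_apply, TT1_apply, Algebra.smul_def, Algebra.smul_def, map_mul, g.commutes, map_sum]
  congr 1
  refine Finset.sum_congr rfl fun s _ => ?_
  exact comm_KK p _ _ hy

theorem RR_comm (g : Gal(PadicAlgCl p/ℚ_[p])) (k : ℕ) : ∀ {i : ℕ}, 1 ≤ i → ∀ {y : PadicAlgCl p},
    y ∈ KK p (i + k) → RR p i k (g y) = g (RR p i k y) := by
  induction k with
  | zero => intro i _ y _; rfl
  | succ k ih =>
    intro i hi y hy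
    have e : i + (k + 1) = (i + 1) + k := by ring
    rw [e] at hy
    rw [RR_succ, RR_succ, ih (by omega) hy]
    exact TT1_comm p g i (RR_mem p (by omega) k hy)

/-- Estimate for one step. -/
theorem TT1_sub_norm_le (j : ℕ) (y : PadicAlgCl p) :
    ‖y - TT1 p j y‖ ≤ p * ‖gam p j y - y‖ := by
  have hp0 : (p : ℚ_[p]) ≠ 0 := by exact_mod_cast hp.out.ne_zero
  have h1 : y - TT1 p j y = (p : ℚ_[p])⁻¹ • ∑ s ∈ Finset.range p, (y - ((gam p j) ^ s) y) := by
    rw [TT1_apply, Finset.sum_sub_distrib, smul_sub, Finset.sum_const, Finset.card_range,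
      ← Nat.cast_smul_eq_nsmul ℚ_[p], smul_smul, inv_mul_cancel₀ hp0, one_smul]
  have h2 : ∀ s : ℕ, ‖y - ((gam p j) ^ s) y‖ ≤ ‖gam p j y - y‖ := by
    intro s
    induction s with
    | zero => simp
    | succ s ih =>
      rw [pow_succ', AlgEquiv.mul_apply]
      have e : y - gam p j (((gam p j) ^ s) y) =
          -(gam p j y - y) + gam p j (y - ((gam p j) ^ s) y) := by
        rw [map_sub]; ring
      rw [e]
      refine (IsUltrametricDist.norm_add_le_max _ _).trans (max_le ?_ ?_)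
      · rw [norm_neg]
      · rw [norm_gal]; exact ih
  rw [h1, norm_smul, norm_inv, Padic.norm_p, inv_inv]
  refine mul_le_mul_of_nonneg_left ?_ (by positivity)
  exact IsUltrametricDist.norm_sum_le_of_forall_le_of_nonneg (norm_nonneg _) fun s _ => h2 s

/-- Telescoping estimate: an element of level `m + k` that is moved little by the `gam i`,
`m ≤ i < m + k`, is close to its normalised trace of level `m`. -/
theorem sub_RR_norm_le {D : ℝ} (hD : 0 ≤ D) (k : ℕ) : ∀ {i : ℕ}, 1 ≤ i → ∀ {y : PadicAlgCl p},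
    y ∈ KK p (i + k) → (∀ j, i ≤ j → j < i + k → ‖gam p j y - y‖ ≤ D) →
    ‖y - RR p i k y‖ ≤ p ^ 2 * D := by
  have hp1 : (1 : ℝ) < p := one_lt_p p
  induction k with
  | zero => intro i _ y _ _; rw [RR_zero, sub_self, norm_zero]; positivity
  | succ k ih =>
    intro i hi y hy h
    have e : i + (k + 1) = (i + 1) + k := by ring
    rw [e] at hy
    have h1 := ih (i := i + 1) (by omega) hy (fun j hj1 hj2 => h j (by omega) (by omega))
    set z := RR p (i + 1) k y with hz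
    have h2 : RR p i (k + 1) y = TT1 p i z := rfl
    have h3 := TT1_sub_norm_le p i z
    have h4 : gam p i z - z = RR p (i + 1) k (gam p i y - y) := by
      rw [map_sub, RR_comm p _ k (by omega) hy]
    have h5 : gam p i y - y ∈ KK p (i + 1 + k) := sub_mem (map_mem_KK p _ hy) hy
    have h6 := RR_norm_le p (i := i + 1) (by omega) k h5
    rw [← h4] at h6
    have h7 : ‖z - TT1 p i z‖ ≤ p ^ 2 * D := by
      refine h3.trans ?_
      calc (p : ℝ) * ‖gam p i z - z‖ ≤ p * (p * ‖gam p i y - y‖) :=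
            mul_le_mul_of_nonneg_left h6 (by positivity)
        _ ≤ p * (p * D) := by
            refine mul_le_mul_of_nonneg_left ?_ (by positivity)
            exact mul_le_mul_of_nonneg_left (h i le_rfl (by omega)) (by positivity)
        _ = p ^ 2 * D := by ring
    have e2 : y - RR p i (k + 1) y = (y - z) + (z - TT1 p i z) := by rw [h2]; ring
    rw [e2]
    exact (IsUltrametricDist.norm_add_le_max _ _).trans (max_le h1 h7)

end Pool.Agent.K9h38.FM
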