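import Mathlib
import Pool.Agent.K9h38.FM.Trace

/-!
Tate's theorem: `ℂ_[p]` contains no nonzero element on which the Galois group of `ℚ_[p]` acts by a
nonzero integral power of the cyclotomic character.
-/

set_option linter.unusedSectionVars false

namespace Pool.Agent.K9h38.FM

open Polynomial Pool.Agent.W292.FM

variable (p : ℕ) [hp : Fact p.Prime]

/-- The `p`-adic cyclotomic character of `Gal(ℚ_[p]^alg / ℚ_[p])`. -/
noncomputable def kap : Gal(PadicAlgCl p/ℚ_[p]) →* ℤ_[p]ˣ :=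
  (cyclotomicCharacter (PadicAlgCl p) p).comp
    (MulSemiringAction.toRingAut Gal(PadicAlgCl p/ℚ_[p]) (PadicAlgCl p))

theorem continuous_kap : Continuous (kap p) :=
  cyclotomicCharacter.continuous p ℚ_[p] (PadicAlgCl p)

instance instNeZeroPow (n : ℕ) : NeZero (p ^ n) := ⟨pow_ne_zero _ hp.out.ne_zero⟩

theorem kap_spec (g : Gal(PadicAlgCl p/ℚ_[p])) {n : ℕ} {t : PadicAlgCl p} (ht : t ^ p ^ n = 1) :
    g t = t ^ (((kap p g : ℤ_[p])).toZModPow n).val :=
  cyclotomicCharacter.spec (L := PadicAlgCl p) p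
    (MulSemiringAction.toRingAut Gal(PadicAlgCl p/ℚ_[p]) (PadicAlgCl p) g) t ht

/-- A unit of `ℤ_[p]` as an element of `ℂ_[p]`. -/
noncomputable def uC : ℤ_[p]ˣ →* ℂ_[p] :=
  ((algebraMap ℚ_[p] ℂ_[p]).comp (algebraMap ℤ_[p] ℚ_[p]) : ℤ_[p] →* ℂ_[p]).comp
    (Units.coeHom ℤ_[p])

theorem uC_apply (u : ℤ_[p]ˣ) : uC p u = algebraMap ℚ_[p] ℂ_[p] ((u : ℤ_[p]) : ℚ_[p]) := rfl

/-- A unit of `ℤ_[p]` as an element of `ℚ_[p]^alg`. -/
noncomputable def uA : ℤ_[p]ˣ →* PadicAlgCl p :=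
  ((algebraMap ℚ_[p] (PadicAlgCl p)).comp (algebraMap ℤ_[p] ℚ_[p]) : ℤ_[p] →* PadicAlgCl p).comp
    (Units.coeHom ℤ_[p])

theorem uA_apply (u : ℤ_[p]ˣ) :
    uA p u = algebraMap ℚ_[p] (PadicAlgCl p) ((u : ℤ_[p]) : ℚ_[p]) := rfl

theorem coe_uA (u : ℤ_[p]ˣ) : ((uA p u : PadicAlgCl p) : ℂ_[p]) = uC p u := rfl

theorem norm_uA (u : ℤ_[p]ˣ) : ‖uA p u‖ = 1 := by
  rw [uA_apply]
  have h := PadicAlgCl.norm_extends p ((u : ℤ_[p]) : ℚ_[p])
  rw [h]
  exact PadicInt.norm_units u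

theorem norm_uC (u : ℤ_[p]ˣ) : ‖uC p u‖ = 1 := by
  rw [← coe_uA, PadicComplex.norm_extends, norm_uA]

theorem norm_uA_sub_one (u : ℤ_[p]ˣ) : ‖uA p u - 1‖ = ‖(u : ℤ_[p]) - 1‖ := by
  rw [uA_apply]
  have h : algebraMap ℚ_[p] (PadicAlgCl p) ((u : ℤ_[p]) : ℚ_[p]) - 1 =
      algebraMap ℚ_[p] (PadicAlgCl p) (((u : ℤ_[p]) - 1 : ℤ_[p]) : ℚ_[p]) := by
    rw [PadicInt.coe_sub, PadicInt.coe_one, map_sub, map_one]
  rw [h]
  have h2 := PadicAlgCl.norm_extends p (((u : ℤ_[p]) - 1 : ℤ_[p]) : ℚ_[p])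
  rw [h2]
  rfl

theorem toZModPow_of_fix {g : Gal(PadicAlgCl p/ℚ_[p])} {j : ℕ} (h : g (zt p j) = zt p j) :
    ((kap p g : ℤ_[p])).toZModPow j = 1 := by
  have h1 := kap_spec p g (n := j) (zt_prim p j).pow_eq_one
  rw [h] at h1
  nth_rw 1 [← pow_one (zt p j)] at h1
  apply ZMod.val_injective
  rcases Nat.eq_zero_or_pos j with rfl | hj
  · have : Subsingleton (ZMod (p ^ 0)) := by rw [pow_zero]; infer_instance
    congr 1
    exact Subsingleton.elim _ _
  · have hlt : Fact (1 < p ^ j) := ⟨Nat.one_lt_pow hj.ne' hp.out.one_lt⟩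
    rw [ZMod.val_one]
    exact ((zt_prim p j).pow_inj hlt.out (ZMod.val_lt _) h1).symm

theorem fix_of_toZModPow {g : Gal(PadicAlgCl p/ℚ_[p])} {j : ℕ}
    (h : ((kap p g : ℤ_[p])).toZModPow j = 1) : g (zt p j) = zt p j := by
  have h1 := kap_spec p g (n := j) (zt_prim p j).pow_eq_one
  rcases Nat.eq_zero_or_pos j with rfl | hj
  · rw [zt_zero, map_one]
  · have hlt : Fact (1 < p ^ j) := ⟨Nat.one_lt_pow hj.ne' hp.out.one_lt⟩
    rw [h1, h, ZMod.val_one, pow_one]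

theorem norm_kap_sub_one_le {g : Gal(PadicAlgCl p/ℚ_[p])} {j : ℕ} (h : g (zt p j) = zt p j) :
    ‖(kap p g : ℤ_[p]) - 1‖ ≤ (p : ℝ) ^ (-(j : ℤ)) := by
  rw [PadicInt.norm_le_pow_iff_mem_span_pow, ← PadicInt.ker_toZModPow, RingHom.mem_ker, map_sub,
    map_one, toZModPow_of_fix p h, sub_self]

theorem kap_gam_injective : Function.Injective (fun n : ℕ => kap p (gam p (n + 3))) := by
  have key : ∀ m n : ℕ, m < n → kap p (gam p (m + 3)) ≠ kap p (gam p (n + 3)) := by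
    intro m n hmn h
    have h1 : gam p (n + 3) (zt p (m + 3 + 1)) = zt p (m + 3 + 1) :=
      gam_fix_le p (by omega) (by omega)
    have h2 := toZModPow_of_fix p h1
    rw [← h] at h2
    exact gam_move p (by omega) (fix_of_toZModPow p h2)
  intro m n h
  rcases lt_trichotomy m n with h1 | h1 | h1
  · exact absurd h (key m n h1)
  · exact h1
  · exact absurd h.symm (key n m h1)

theorem exists_kap_ne {k : ℤ} (hk : k ≠ 0) : ∃ m : ℕ, 3 ≤ m ∧ (kap p (gam p m)) ^ k ≠ 1 := by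
  by_contra hcon
  push Not at hcon
  have hN : NeZero k.natAbs := ⟨Int.natAbs_ne_zero.2 hk⟩
  have h1 : ∀ n : ℕ, kap p (gam p (n + 3)) ∈ (rootsOfUnity k.natAbs ℤ_[p] : Set ℤ_[p]ˣ) := by
    intro n
    have h2 := hcon (n + 3) (by omega)
    rw [SetLike.mem_coe, mem_rootsOfUnity]
    rcases Int.natAbs_eq k with h | h
    · rw [h, zpow_natCast] at h2; exact h2
    · rw [h, zpow_neg, zpow_natCast, inv_eq_one] at h2; exact h2
  have h3 : (Set.range (fun n : ℕ => kap p (gam p (n + 3)))).Infinite :=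
    Set.infinite_range_of_injective (kap_gam_injective p)
  refine h3 (Set.Finite.subset (s := (rootsOfUnity k.natAbs ℤ_[p] : Set ℤ_[p]ˣ)) ?_ ?_)
  · have hfin : Finite (rootsOfUnity k.natAbs ℤ_[p]) := inferInstance
    exact hfin
  · rintro _ ⟨n, rfl⟩
    exact h1 n

/-- The cyclotomic field `ℚ_[p](μ_(p^∞))`. -/
noncomputable def Kinf : IntermediateField ℚ_[p] (PadicAlgCl p) :=
  IntermediateField.adjoin ℚ_[p] (Set.range (zt p))

theorem mem_Kinf {x : PadicAlgCl p} (hx : x ∈ Kinf p) : ∃ n, x ∈ KK p n := by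
  have h1 : (Kinf p).toSubalgebra = Algebra.adjoin ℚ_[p] (Set.range (zt p)) :=
    IntermediateField.adjoin_toSubalgebra_of_isAlgebraic fun x _ =>
      Algebra.IsAlgebraic.isAlgebraic x
  have h2 : x ∈ Algebra.adjoin ℚ_[p] (Set.range (zt p)) := by rw [← h1]; exact hx
  clear hx h1
  induction h2 using Algebra.adjoin_induction with
  | mem x hx => obtain ⟨n, rfl⟩ := hx; exact ⟨n, zt_mem p n⟩
  | algebraMap r => exact ⟨0, Subalgebra.algebraMap_mem _ r⟩
  | add x y _ _ hx hy =>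
    obtain ⟨m, hm⟩ := hx
    obtain ⟨n, hn⟩ := hy
    exact ⟨max m n, add_mem (KK_mono p (le_max_left _ _) hm) (KK_mono p (le_max_right _ _) hn)⟩
  | mul x y _ _ hx hy =>
    obtain ⟨m, hm⟩ := hx
    obtain ⟨n, hn⟩ := hy
    exact ⟨max m n, mul_mem (KK_mono p (le_max_left _ _) hm) (KK_mono p (le_max_right _ _) hn)⟩

theorem kap_eq_one_of_Kinf {g : Gal(PadicAlgCl p/ℚ_[p])} (h : ∀ x ∈ Kinf p, g x = x) :
    kap p g = 1 := by
  apply Units.ext
  rw [← PadicInt.ext_of_toZModPow]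
  intro n
  rw [toZModPow_of_fix p (h _ (IntermediateField.subset_adjoin _ _ ⟨n, rfl⟩)), Units.val_one,
    map_one]

/-- **Tate's theorem**: `ℂ_[p](k)` has no nonzero invariants for `k ≠ 0`. -/
theorem tate {k : ℤ} (hk : k ≠ 0) (c : ℂ_[p])
    (hc : ∀ g : Gal(PadicAlgCl p/ℚ_[p]), cpMap p g c = uC p (kap p g ^ k) * c) : c = 0 := by
  by_contra hc0
  have hp1 : (1 : ℝ) < p := one_lt_p p
  have hp0 : (0 : ℝ) < p := by linarith
  have hcn : 0 < ‖c‖ := norm_pos_iff.2 hc0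
  obtain ⟨m, hm3, hmk⟩ := exists_kap_ne p hk
  set lam : ℤ_[p]ˣ := kap p (gam p m) ^ k with hlam
  have hlam1 : uA p lam - 1 ≠ 0 := by
    intro h
    apply hmk
    have h2 := norm_uA_sub_one p lam
    rw [h, norm_zero] at h2
    have h3 : (lam : ℤ_[p]) - 1 = 0 := norm_eq_zero.1 h2.symm
    exact Units.ext (by rw [sub_eq_zero] at h3; exact h3)
  set L : ℝ := ‖uA p lam - 1‖ with hL
  have hLpos : 0 < L := norm_pos_iff.2 hlam1
  -- choice of the quality of the approximation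
  obtain ⟨δ, hδ0, hδ1, hδ2, hδ3⟩ : ∃ δ : ℝ, 0 < δ ∧ δ < 1 ∧ (p : ℝ) ^ 2 * δ < 1 ∧ p * δ < L := by
    refine ⟨min (1 / (2 * p ^ 2)) (L / (2 * p)), by positivity, ?_, ?_, ?_⟩
    · refine lt_of_le_of_lt (min_le_left _ _) ?_
      rw [div_lt_one (by positivity)]
      nlinarith
    · refine lt_of_le_of_lt (mul_le_mul_of_nonneg_left (min_le_left _ _) (by positivity)) ?_
      rw [mul_one_div, div_lt_one (by positivity)]
      nlinarith [pow_pos hp0 2]
    · refine lt_of_le_of_lt (mul_le_mul_of_nonneg_left (min_le_right _ _) hp0.le) ?_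
      rw [mul_div_assoc', div_lt_iff₀ (by positivity)]
      nlinarith
  -- approximation of `c` by an element of `ℚ_[p](μ_(p^∞))`
  obtain ⟨z, hz, hzc⟩ : ∃ z ∈ Kinf p, ‖(z : ℂ_[p]) - c‖ ≤ δ * ‖c‖ := by
    have hε : 0 < δ * ‖c‖ / p ^ 2 := by positivity
    obtain ⟨z0, hz0⟩ := (UniformSpace.Completion.denseRange_coe (α := PadicAlgCl p)).exists_dist_lt c hε
    rw [dist_eq_norm, norm_sub_rev] at hz0
    obtain ⟨z, hz, hzz⟩ := ax p (Kinf p) z0 (δ * ‖c‖ / p ^ 2) hε.le (by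
      intro g hg
      have h1 : cpMap p g c = c := by
        rw [hc, kap_eq_one_of_Kinf p hg, one_zpow, map_one, one_mul]
      have h2 : ((g z0 - z0 : PadicAlgCl p) : ℂ_[p]) =
          cpMap p g ((z0 : ℂ_[p]) - c) + (c - (z0 : ℂ_[p])) := by
        rw [map_sub, cpMap_coe, h1]
        push_cast
        ring
      rw [← PadicComplex.norm_extends, h2]
      refine (IsUltrametricDist.norm_add_le_max _ _).trans (max_le ?_ ?_)
      · rw [norm_cpMap]; exact hz0.le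
      · rw [norm_sub_rev]; exact hz0.le)
    refine ⟨z, hz, ?_⟩
    have e : (z : ℂ_[p]) - c = -((z0 - z : PadicAlgCl p) : ℂ_[p]) + ((z0 : ℂ_[p]) - c) := by
      push_cast
      ring
    rw [e]
    refine (IsUltrametricDist.norm_add_le_max _ _).trans (max_le ?_ ?_)
    · rw [norm_neg, PadicComplex.norm_extends]
      refine hzz.trans (le_of_eq ?_)
      field_simp
    · refine hz0.le.trans ?_
      rw [div_le_iff₀ (by positivity)]
      have : (1 : ℝ) ≤ p ^ 2 := by nlinarith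
      nlinarith [mul_pos hδ0 hcn]
  have hznorm : ‖z‖ = ‖c‖ := by
    rw [← PadicComplex.norm_extends]
    have e : (z : ℂ_[p]) = ((z : ℂ_[p]) - c) + c := by ring
    have hlt : ‖(z : ℂ_[p]) - c‖ < ‖c‖ := lt_of_le_of_lt hzc (by nlinarith)
    rw [e, IsUltrametricDist.norm_add_eq_max_of_norm_ne_norm hlt.ne, max_eq_right hlt.le]
  -- the defect of `z`
  have hdef : ∀ g : Gal(PadicAlgCl p/ℚ_[p]), ‖g z - uA p (kap p g ^ k) * z‖ ≤ δ * ‖c‖ := by
    intro g
    have e : ((g z - uA p (kap p g ^ k) * z : PadicAlgCl p) : ℂ_[p]) =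
        cpMap p g ((z : ℂ_[p]) - c) + uC p (kap p g ^ k) * (c - (z : ℂ_[p])) := by
      rw [map_sub, cpMap_coe, hc g, ← coe_uA]
      push_cast
      ring
    rw [← PadicComplex.norm_extends, e]
    refine (IsUltrametricDist.norm_add_le_max _ _).trans (max_le ?_ ?_)
    · rw [norm_cpMap]; exact hzc
    · rw [norm_mul, norm_uC, one_mul, norm_sub_rev]; exact hzc
  obtain ⟨n0, hn0⟩ := mem_Kinf p hz
  have hzK : z ∈ KK p (m + n0) := KK_mono p (by omega) hn0
  -- the elements `gam j`, `j ≥ m`, move `z` little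
  have hmove : ∀ j, m ≤ j → j < m + n0 → ‖gam p j z - z‖ ≤ max δ ((p : ℝ) ^ (-(m : ℤ))) * ‖c‖ := by
    intro j hj _
    have e : gam p j z - z = (gam p j z - uA p (kap p (gam p j) ^ k) * z) +
        (uA p (kap p (gam p j) ^ k) - 1) * z := by ring
    rw [e]
    refine (IsUltrametricDist.norm_add_le_max _ _).trans (max_le ?_ ?_)
    · exact (hdef _).trans (mul_le_mul_of_nonneg_right (le_max_left _ _) hcn.le)
    · rw [norm_mul, hznorm]
      refine mul_le_mul_of_nonneg_right ?_ hcn.le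
      refine le_trans ?_ (le_max_right _ _)
      rw [norm_uA_sub_one]
      have h1 : ‖(kap p (gam p j) : ℤ_[p]) - 1‖ ≤ (p : ℝ) ^ (-(m : ℤ)) := by
        refine norm_kap_sub_one_le p (gam_fix_le p (by omega) hj)
      -- pass to the `k`-th power
      have h2 : ∀ (u : ℤ_[p]ˣ) (r : ℝ), 0 ≤ r → ‖(u : ℤ_[p]) - 1‖ ≤ r → ∀ n : ℕ,
          ‖((u ^ n : ℤ_[p]ˣ) : ℤ_[p]) - 1‖ ≤ r := by
        intro u r hr hu n
        induction n with
        | zero => simpa using hr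
        | succ n ih =>
          have e : ((u ^ (n + 1) : ℤ_[p]ˣ) : ℤ_[p]) - 1 =
              (((u ^ n : ℤ_[p]ˣ) : ℤ_[p]) - 1) * (u : ℤ_[p]) + ((u : ℤ_[p]) - 1) := by
            rw [pow_succ]; push_cast; ring
          rw [e]
          refine (PadicInt.nonarchimedean _ _).trans (max_le ?_ hu)
          rw [norm_mul, PadicInt.norm_units, mul_one]
          exact ih
      have h3 : ∀ u : ℤ_[p]ˣ, ‖((u⁻¹ : ℤ_[p]ˣ) : ℤ_[p]) - 1‖ = ‖(u : ℤ_[p]) - 1‖ := by
        intro u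
        have e : ((u⁻¹ : ℤ_[p]ˣ) : ℤ_[p]) - 1 = -(((u⁻¹ : ℤ_[p]ˣ) : ℤ_[p]) * ((u : ℤ_[p]) - 1)) := by
          rw [mul_sub, Units.inv_mul]; ring
        rw [e, norm_neg, norm_mul, PadicInt.norm_units, one_mul]
      rcases Int.natAbs_eq k with h | h
      · rw [h, zpow_natCast]
        exact h2 _ _ (by positivity) h1 _
      · rw [h, zpow_neg, zpow_natCast, h3]
        exact h2 _ _ (by positivity) h1 _
  set w := RR p m n0 z with hw
  have h1 : ‖z - w‖ ≤ p ^ 2 * (max δ ((p : ℝ) ^ (-(m : ℤ))) * ‖c‖) :=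
    sub_RR_norm_le p (by positivity) n0 (by omega) hzK hmove
  have hwK : w ∈ KK p m := RR_mem p (by omega) n0 hzK
  have hgw : gam p m w = w := fix_KK p (gam_fix p (by omega)) hwK
  have h2 : RR p m n0 (gam p m z - uA p lam * z) = -((uA p lam - 1) * w) := by
    have e : uA p lam * z = (((lam : ℤ_[p]) : ℚ_[p])) • z := by
      rw [Algebra.smul_def, uA_apply]
    rw [map_sub, RR_comm p _ n0 (by omega) hzK, ← hw, hgw, e, map_smul, ← hw, Algebra.smul_def,
      ← uA_apply]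
    ring
  have h3 : gam p m z - uA p lam * z ∈ KK p (m + n0) := by
    refine sub_mem (map_mem_KK p _ hzK) (mul_mem ?_ hzK)
    rw [uA_apply]
    exact Subalgebra.algebraMap_mem _ _
  have h4 := RR_norm_le p (i := m) (by omega) n0 h3
  rw [h2, norm_neg, norm_mul, ← hL] at h4
  have h5 : L * ‖w‖ ≤ p * (δ * ‖c‖) :=
    h4.trans (mul_le_mul_of_nonneg_left (hdef (gam p m)) hp0.le)
  have h6 : ‖w‖ < ‖c‖ := by
    by_contra hcon
    push Not at hcon
    nlinarith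
  have h7 : ‖z - w‖ < ‖c‖ := by
    refine lt_of_le_of_lt h1 ?_
    rw [← mul_assoc]
    have h8 : (p : ℝ) ^ 2 * max δ ((p : ℝ) ^ (-(m : ℤ))) < 1 := by
      rw [mul_max_of_nonneg _ _ (by positivity)]
      refine max_lt hδ2 ?_
      have h9 : (p : ℝ) ^ 2 * (p : ℝ) ^ (-(m : ℤ)) = (p : ℝ) ^ (2 - (m : ℤ)) := by
        rw [sub_eq_add_neg, zpow_add₀ hp0.ne']
        norm_cast
      rw [h9]
      exact zpow_lt_one_of_neg₀ hp1 (by omega)
    nlinarith
  have h8 : ‖z‖ < ‖c‖ := by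
    have e : z = (z - w) + w := by ring
    rw [e]
    exact lt_of_le_of_lt (IsUltrametricDist.norm_add_le_max _ _) (max_lt h7 h6)
  exact absurd hznorm h8.ne

end Pool.Agent.K9h38.FM
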