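import Mathlib
import Pool.Agent.W292.FM.Tilt
import Pool.Agent.K9h38.FM.Tate

/-!
The kernel of Fontaine's map `θ : W(O♭) → O`, `O` the ring of integers of `ℂ_[p]`, is generated by
`ξ = [p♭] - p`; the Galois action on `ξ` modulo `ξ ^ 2`.
-/

set_option linter.unusedSectionVars false

namespace Pool.Agent.K9h38.FM

open Ideal WittVector Pool.Agent.W292.FM

variable (p : ℕ) [hp : Fact p.Prime]

/-- Fontaine's map `θ` for the ring of integers of `ℂ_[p]`. -/
noncomputable abbrev tht : AI p →+* 𝓞_ℂ_[p] := fontaineTheta 𝓞_ℂ_[p] p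

/-- The generator `ξ = [p♭] - p` of the kernel of `θ`. -/
noncomputable def xi : AI p := teichmuller p (pflat p) - (p : AI p)

theorem tht_xi : tht p (xi p) = 0 := by
  rw [xi, map_sub, map_natCast]
  change fontaineTheta 𝓞_ℂ_[p] p _ - _ = 0
  rw [fontaineTheta_teichmuller, untilt_pflat, sub_self]

theorem natCast_p_ne_zero_O : (p : 𝓞_ℂ_[p]) ≠ 0 := by
  intro h
  have := congrArg (fun x : 𝓞_ℂ_[p] => (x : ℂ_[p])) h
  simp only [ZeroMemClass.coe_zero] at this
  exact p_ne_zero p (by simpa using this)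

theorem coeff_zero_natCast_p : ((p : AI p)).coeff 0 = 0 := by
  have := (mem_span_p_iff_coeff_zero_eq_zero (p := p) (p : AI p)).1
    (Ideal.mem_span_singleton_self _)
  exact this

theorem xi_coeff_zero : (xi p).coeff 0 = pflat p := by
  have h : constantCoeff (xi p) = constantCoeff (teichmuller p (pflat p)) -
      constantCoeff ((p : AI p)) := by rw [xi, map_sub]
  have h2 : constantCoeff ((p : AI p)) = (0 : TT p) := coeff_zero_natCast_p p
  have h3 : constantCoeff (teichmuller p (pflat p)) = pflat p := teichmuller_coeff_zero p _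
  rw [h2, h3, sub_zero] at h
  exact h

theorem pflat_ne_zero : pflat p ≠ 0 := by
  intro h
  have h1 := untilt_pflat (p := p)
  rw [h] at h1
  have h2 := PreTilt.mk_untilt_eq_coeff_zero (0 : TT p)
  -- `untilt 0 = 0`
  have h0 : ∀ n : ℕ, ((fun _ => 0 : ℕ → 𝓞_ℂ_[p]) (n + 1)) ^ p = (fun _ => 0 : ℕ → 𝓞_ℂ_[p]) n :=
    fun n => zero_pow hp.out.ne_zero
  have h3 : (0 : TT p) = mkT (fun _ => 0) h0 := by
    refine Perfection.ext fun n => ?_
    change PreTilt.coeff n (0 : TT p) = PreTilt.coeff n (mkT (fun _ => 0) h0)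
    rw [coeff_mkT, map_zero, map_zero]
  rw [h3, untilt_mkT] at h1
  exact natCast_p_ne_zero_O p h1.symm

theorem xi_ne_zero : xi p ≠ 0 := by
  intro h
  have h1 := xi_coeff_zero p
  rw [h] at h1
  exact pflat_ne_zero p (by rw [← h1]; simp)

theorem tht_step (x : AI p) (hx : tht p x = 0) :
    ∃ yz : AI p × AI p, x = xi p * yz.1 + (p : AI p) * yz.2 ∧ tht p yz.2 = 0 := by
  have h1 : PreTilt.coeff 0 (x.coeff 0) = 0 := by
    have := mk_fontaineTheta (R := 𝓞_ℂ_[p]) (p := p) x
    rw [← this]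
    change Ideal.Quotient.mk _ (tht p x) = 0
    rw [hx, map_zero]
  obtain ⟨y0, hy0⟩ := pflat_dvd h1
  set y : AI p := teichmuller p y0 with hy
  have h2 : (x - xi p * y).coeff 0 = 0 := by
    have h3 : constantCoeff (x - xi p * y) = constantCoeff x -
        constantCoeff (xi p) * constantCoeff y := by rw [map_sub, map_mul]
    have h4 : constantCoeff y = y0 := teichmuller_coeff_zero p _
    have h5 : constantCoeff (xi p) = pflat p := xi_coeff_zero p
    have h6 : constantCoeff x = pflat p * y0 := hy0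
    rw [h4, h5, h6, sub_self] at h3
    exact h3
  rw [← mem_span_p_iff_coeff_zero_eq_zero, Ideal.mem_span_singleton] at h2
  obtain ⟨z, hz⟩ := h2
  refine ⟨(y, z), ?_, ?_⟩
  · change x = xi p * y + (p : AI p) * z
    rw [← hz]; ring
  · change tht p z = 0
    have h7 : tht p ((p : AI p) * z) = 0 := by
      rw [← hz, map_sub, map_mul, tht_xi, hx, zero_mul, sub_zero]
    rw [map_mul, map_natCast] at h7
    exact (mul_eq_zero.1 h7).resolve_left (natCast_p_ne_zero_O p)

/-- The kernel of `θ` is generated by `ξ`. -/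
theorem xi_dvd {x : AI p} (hx : tht p x = 0) : xi p ∣ x := by
  choose f hf1 hf2 using tht_step p
  let s : ℕ → {x : AI p // tht p x = 0} := fun n =>
    Nat.rec ⟨x, hx⟩ (fun _ z => ⟨(f z.1 z.2).2, hf2 z.1 z.2⟩) n
  have hs : ∀ n, (s (n + 1)).1 = (f (s n).1 (s n).2).2 := fun n => rfl
  let y : ℕ → AI p := fun n => (f (s n).1 (s n).2).1
  have h1 : ∀ n, (s n).1 = xi p * y n + (p : AI p) * (s (n + 1)).1 := fun n => hf1 _ _
  let S : ℕ → AI p := fun n => ∑ i ∈ Finset.range n, (p : AI p) ^ i * y i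
  have h2 : ∀ n, x = xi p * S n + (p : AI p) ^ n * (s n).1 := by
    intro n
    induction n with
    | zero => simp [S, s]
    | succ n ih =>
      rw [ih]
      conv_lhs => rw [h1 n]
      simp only [S, Finset.sum_range_succ]
      ring
  have h3 : ∀ {m n : ℕ}, m ≤ n →
      S m ≡ S n [SMOD (Ideal.span {(p : AI p)} ^ m • ⊤ : Submodule (AI p) (AI p))] := by
    intro m n hmn
    rw [SModEq.comm, SModEq.sub_mem, smul_eq_mul, Ideal.mul_top]
    obtain ⟨k, rfl⟩ := Nat.exists_eq_add_of_le hmn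
    simp only [S]
    rw [Finset.sum_range_add_sub_sum_range]
    refine sum_mem fun i _ => ?_
    rw [Ideal.span_singleton_pow, Ideal.mem_span_singleton]
    exact Dvd.dvd.mul_right (pow_dvd_pow _ (by omega)) _
  obtain ⟨L, hL⟩ := IsPrecomplete.prec (I := Ideal.span {(p : AI p)}) (M := AI p) inferInstance h3
  refine ⟨L, ?_⟩
  rw [IsHausdorff.eq_iff_smodEq (I := Ideal.span {(p : AI p)})]
  intro n
  have h4 := hL n
  rw [SModEq.sub_mem, smul_eq_mul, Ideal.mul_top] at h4 ⊢
  have e : x - xi p * L = xi p * (S n - L) + (p : AI p) ^ n * (s n).1 := by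
    conv_lhs => rw [h2 n]
    ring
  rw [e]
  refine add_mem (Ideal.mul_mem_left _ _ h4) ?_
  rw [Ideal.span_singleton_pow, Ideal.mem_span_singleton]
  exact dvd_mul_right _ _

/-- The quotient by `ξ` of an element of the kernel of `θ`. -/
noncomputable def qxi (x : AI p) (hx : tht p x = 0) : AI p := (xi_dvd p hx).choose

theorem qxi_spec (x : AI p) (hx : tht p x = 0) : x = xi p * qxi p x hx := (xi_dvd p hx).choose_spec

theorem qxi_unique {x y : AI p} (hx : tht p x = 0) (h : x = xi p * y) : qxi p x hx = y :=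
  mul_left_cancel₀ (xi_ne_zero p) ((qxi_spec p x hx).symm.trans h)

theorem tht_teich_sub_one {a : TT p} (ha : a.untilt = 1) :
    tht p (teichmuller p a - 1) = 0 := by
  rw [map_sub, map_one]
  change fontaineTheta 𝓞_ℂ_[p] p _ - 1 = 0
  rw [fontaineTheta_teichmuller, ha, sub_self]

/-- The function `LL a = θ(([a] - 1) / ξ)` on the elements `a` of the tilt with `a^♯ = 1`. -/
noncomputable def LL (a : TT p) (ha : a.untilt = 1) : 𝓞_ℂ_[p] :=
  tht p (qxi p (teichmuller p a - 1) (tht_teich_sub_one p ha))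

theorem LL_congr {a b : TT p} (ha : a.untilt = 1) (hb : b.untilt = 1) (h : a = b) :
    LL p a ha = LL p b hb := by subst h; rfl

theorem LL_mul {a b : TT p} (ha : a.untilt = 1) (hb : b.untilt = 1) (hab : (a * b).untilt = 1) :
    LL p (a * b) hab = LL p a ha + LL p b hb := by
  have h1 := qxi_spec p _ (tht_teich_sub_one p ha)
  have h2 := qxi_spec p _ (tht_teich_sub_one p hb)
  have h3 : teichmuller p (a * b) - 1 = xi p *
      (teichmuller p a * qxi p _ (tht_teich_sub_one p hb) + qxi p _ (tht_teich_sub_one p ha)) := by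
    rw [mul_add, ← h1, mul_left_comm, ← h2, map_mul]
    ring
  rw [LL, qxi_unique p _ h3, map_add, map_mul]
  have h4 : tht p (teichmuller p a) = 1 := by
    change fontaineTheta 𝓞_ℂ_[p] p _ = 1
    rw [fontaineTheta_teichmuller, ha]
  rw [h4, one_mul, add_comm]
  rfl

theorem LL_pow {a : TT p} (ha : a.untilt = 1) (n : ℕ) (han : (a ^ n).untilt = 1) :
    LL p (a ^ n) han = (n : 𝓞_ℂ_[p]) * LL p a ha := by
  induction n with
  | zero =>
    have h1 : (1 : TT p).untilt = 1 := map_one _
    rw [LL_congr p han h1 (pow_zero a)]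
    have h2 : teichmuller p (1 : TT p) - 1 = xi p * 0 := by rw [map_one, sub_self, mul_zero]
    rw [LL, qxi_unique p _ h2, map_zero]
    simp
  | succ n ih =>
    have h1 : (a ^ n).untilt = 1 := by rw [map_pow, ha, one_pow]
    have h2 : (a ^ n * a).untilt = 1 := by rw [map_mul, h1, ha, one_mul]
    rw [LL_congr p han h2 (pow_succ a n), LL_mul p h1 ha, ih h1]
    push_cast
    ring

end Pool.Agent.K9h38.FM
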