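import Mathlib
import Pool.Agent.K9h38.FM.Ker

/-!
The element `ε = (1, ζ_p, ζ_(p^2), …)` of the tilt and the Galois action on `ξ` modulo `ξ ^ 2`.
-/

set_option linter.unusedSectionVars false

namespace Pool.Agent.K9h38.FM

open Ideal WittVector Pool.Agent.W292.FM

variable (p : ℕ) [hp : Fact p.Prime]

/-- `ζ_(p^n)` as an element of the ring of integers of `ℂ_[p]`. -/
noncomputable def zO (n : ℕ) : 𝓞_ℂ_[p] :=
  ⟨((zt p n : PadicAlgCl p) : ℂ_[p]), by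
    rw [mem_int_iff, PadicComplex.norm_extends, norm_zt]⟩

/-- `ζ_(p^n)⁻¹` as an element of the ring of integers of `ℂ_[p]`. -/
noncomputable def zOi (n : ℕ) : 𝓞_ℂ_[p] :=
  ⟨(((zt p n)⁻¹ : PadicAlgCl p) : ℂ_[p]), by
    rw [mem_int_iff, PadicComplex.norm_extends, norm_inv, norm_zt, inv_one]⟩

theorem coe_alg_mul (x y : PadicAlgCl p) : ((x * y : PadicAlgCl p) : ℂ_[p]) = (x : ℂ_[p]) * y :=
  UniformSpace.Completion.coe_mul x y

theorem coe_alg_pow (x : PadicAlgCl p) (n : ℕ) :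
    ((x ^ n : PadicAlgCl p) : ℂ_[p]) = (x : ℂ_[p]) ^ n := by
  rw [PadicComplex.coe_eq, PadicComplex.coe_eq, map_pow]

theorem coe_O_mul (x y : 𝓞_ℂ_[p]) : ((x * y : 𝓞_ℂ_[p]) : ℂ_[p]) = (x : ℂ_[p]) * y := rfl

theorem coe_O_pow (x : 𝓞_ℂ_[p]) (n : ℕ) : ((x ^ n : 𝓞_ℂ_[p]) : ℂ_[p]) = (x : ℂ_[p]) ^ n := rfl

theorem zO_mul_zOi (n : ℕ) : zO p n * zOi p n = 1 := by
  apply Subtype.ext
  rw [coe_O_mul]
  change ((zt p n : PadicAlgCl p) : ℂ_[p]) * (((zt p n)⁻¹ : PadicAlgCl p) : ℂ_[p]) = 1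
  rw [← coe_alg_mul, mul_inv_cancel₀ (zt_ne_zero p n)]
  rfl

theorem zO_pow (n : ℕ) : zO p (n + 1) ^ p = zO p n := by
  apply Subtype.ext
  rw [coe_O_pow]
  change ((zt p (n + 1) : PadicAlgCl p) : ℂ_[p]) ^ p = ((zt p n : PadicAlgCl p) : ℂ_[p])
  rw [← coe_alg_pow, zt_pow]

theorem zOi_pow (n : ℕ) : zOi p (n + 1) ^ p = zOi p n := by
  apply Subtype.ext
  rw [coe_O_pow]
  change (((zt p (n + 1))⁻¹ : PadicAlgCl p) : ℂ_[p]) ^ p = (((zt p n)⁻¹ : PadicAlgCl p) : ℂ_[p])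
  rw [← coe_alg_pow, inv_pow, zt_pow]

theorem zO_zero : zO p 0 = 1 := by
  apply Subtype.ext
  change ((zt p 0 : PadicAlgCl p) : ℂ_[p]) = 1
  rw [zt_zero]
  rfl

theorem pow_pow_shift {a : ℕ → 𝓞_ℂ_[p]} (ha : ∀ n, a (n + 1) ^ p = a n) (n k : ℕ) :
    a (n + k) ^ p ^ k = a n := by
  induction k with
  | zero => simp
  | succ k ih => rw [← add_assoc, pow_succ', pow_mul, ha, ih]

/-- The element `ε` of the tilt. -/
noncomputable def eps : TT p := mkT (zO p) (zO_pow p)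

theorem untilt_eps : (eps p).untilt = 1 := by rw [eps, untilt_mkT, zO_zero]

theorem tiltMap_mkT (g : Gal(PadicAlgCl p/ℚ_[p])) (a : ℕ → 𝓞_ℂ_[p])
    (ha : ∀ n, a (n + 1) ^ p = a n) :
    tiltMap p (intMap p g) (mkT a ha) =
      mkT (fun n => intMap p g (a n)) (fun n => by rw [← map_pow, ha]) := by
  refine Perfection.ext fun n => ?_
  change PreTilt.coeff n _ = PreTilt.coeff n _
  rw [coeff_tiltMap, coeff_mkT, coeff_mkT, modPMap_mk]

theorem untilt_tiltMap_eps (g : Gal(PadicAlgCl p/ℚ_[p])) :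
    (tiltMap p (intMap p g) (eps p)).untilt = 1 := by
  rw [untilt_tiltMap, untilt_eps, map_one]

/-- the integer `a` with `g ζ = ζ ^ a` for `ζ = ζ_(p^m)` -/
noncomputable def av (g : Gal(PadicAlgCl p/ℚ_[p])) (m : ℕ) : ℕ :=
  (((kap p g : ℤ_[p])).toZModPow m).val

theorem intMap_zO (g : Gal(PadicAlgCl p/ℚ_[p])) (m : ℕ) :
    intMap p g (zO p m) = zO p m ^ av p g m := by
  apply Subtype.ext
  rw [coe_intMap, coe_O_pow]
  change cpMap p g ((zt p m : PadicAlgCl p) : ℂ_[p]) = ((zt p m : PadicAlgCl p) : ℂ_[p]) ^ _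
  rw [cpMap_coe, kap_spec p g (zt_prim p m).pow_eq_one, coe_alg_pow]
  rfl

/-- the `p ^ m`-th root of `g(ε) / ε ^ a`. -/
noncomputable def bm (g : Gal(PadicAlgCl p/ℚ_[p])) (m : ℕ) : TT p :=
  mkT (fun n => intMap p g (zO p (n + m)) * zOi p (n + m) ^ av p g m) (fun n => by
    rw [mul_pow, ← map_pow, show n + 1 + m = (n + m) + 1 by ring, zO_pow, ← pow_mul, mul_comm,
      mul_comm (av p g m), pow_mul, zOi_pow, mul_comm])

theorem untilt_bm (g : Gal(PadicAlgCl p/ℚ_[p])) (m : ℕ) : (bm p g m).untilt = 1 := by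
  rw [bm, untilt_mkT, zero_add, intMap_zO, ← mul_pow, zO_mul_zOi, one_pow]

theorem tiltMap_eps_eq (g : Gal(PadicAlgCl p/ℚ_[p])) (m : ℕ) :
    tiltMap p (intMap p g) (eps p) = eps p ^ av p g m * bm p g m ^ p ^ m := by
  refine Perfection.ext fun n => ?_
  change PreTilt.coeff n _ = PreTilt.coeff n _
  rw [map_mul, map_pow, map_pow, eps, tiltMap_mkT, bm, coeff_mkT, coeff_mkT, coeff_mkT,
    ← map_pow, ← map_pow, ← map_mul]
  congr 1
  have h1 : intMap p g (zO p (n + m)) ^ p ^ m = intMap p g (zO p n) := by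
    rw [← map_pow, pow_pow_shift p (zO_pow p)]
  have h2 : (zOi p (n + m) ^ av p g m) ^ p ^ m = zOi p n ^ av p g m := by
    rw [← pow_mul, mul_comm, pow_mul, pow_pow_shift p (zOi_pow p)]
  rw [mul_pow, h1, h2]
  have h3 : zO p n ^ av p g m * zOi p n ^ av p g m = 1 := by
    rw [← mul_pow, zO_mul_zOi, one_pow]
  calc intMap p g (zO p n) = intMap p g (zO p n) * (zO p n ^ av p g m * zOi p n ^ av p g m) := by
        rw [h3, mul_one]
    _ = _ := by ring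

theorem norm_algQ (x : ℚ_[p]) : ‖algebraMap ℚ_[p] ℂ_[p] x‖ = ‖x‖ := PadicComplex.norm_extends' p x

theorem norm_uC_sub_natCast (g : Gal(PadicAlgCl p/ℚ_[p])) (m : ℕ) :
    ‖uC p (kap p g) - ((av p g m : ℕ) : ℂ_[p])‖ ≤ ‖(p : ℂ_[p])‖ ^ m := by
  have h1 : uC p (kap p g) - ((av p g m : ℕ) : ℂ_[p]) =
      algebraMap ℚ_[p] ℂ_[p] ((((kap p g : ℤ_[p]) - ((av p g m : ℕ) : ℤ_[p]) : ℤ_[p])) : ℚ_[p]) := by
    rw [uC_apply, PadicInt.coe_sub, map_sub, PadicInt.coe_natCast, map_natCast]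
  have h3 : ‖((kap p g : ℤ_[p]) - ((av p g m : ℕ) : ℤ_[p]) : ℤ_[p])‖ ≤ (p : ℝ) ^ (-(m : ℤ)) := by
    rw [PadicInt.norm_le_pow_iff_mem_span_pow, ← PadicInt.ker_toZModPow, RingHom.mem_ker, map_sub,
      map_natCast, av, ZMod.natCast_val, ZMod.cast_id', id, sub_self]
  rw [norm_p, inv_pow, h1]
  rw [zpow_neg, zpow_natCast] at h3
  exact (norm_algQ p _).le.trans h3

theorem LL_tiltMap (g : Gal(PadicAlgCl p/ℚ_[p])) :
    ((LL p (tiltMap p (intMap p g) (eps p)) (untilt_tiltMap_eps p g) : 𝓞_ℂ_[p]) : ℂ_[p]) =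
      uC p (kap p g) * ((LL p (eps p) (untilt_eps p) : 𝓞_ℂ_[p]) : ℂ_[p]) := by
  rw [← sub_eq_zero, ← norm_le_zero_iff]
  refine ge_of_tendsto' (tendsto_norm_p_pow p) fun m => ?_
  have h1 : (eps p ^ av p g m).untilt = 1 := by rw [map_pow, untilt_eps, one_pow]
  have h2 : (bm p g m ^ p ^ m).untilt = 1 := by rw [map_pow, untilt_bm, one_pow]
  have h3 : (eps p ^ av p g m * bm p g m ^ p ^ m).untilt = 1 := by rw [map_mul, h1, h2, one_mul]
  rw [LL_congr p _ h3 (tiltMap_eps_eq p g m), LL_mul p h1 h2, LL_pow p (untilt_eps p),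
    LL_pow p (untilt_bm p g m)]
  have e : (((((av p g m : ℕ) : 𝓞_ℂ_[p]) * LL p (eps p) (untilt_eps p) +
      ((p ^ m : ℕ) : 𝓞_ℂ_[p]) * LL p (bm p g m) (untilt_bm p g m) : 𝓞_ℂ_[p])) : ℂ_[p]) -
      uC p (kap p g) * ((LL p (eps p) (untilt_eps p) : 𝓞_ℂ_[p]) : ℂ_[p]) =
      -((uC p (kap p g) - ((av p g m : ℕ) : ℂ_[p])) *
        ((LL p (eps p) (untilt_eps p) : 𝓞_ℂ_[p]) : ℂ_[p])) +
      (p : ℂ_[p]) ^ m * ((LL p (bm p g m) (untilt_bm p g m) : 𝓞_ℂ_[p]) : ℂ_[p]) := by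
    push_cast
    ring
  rw [e]
  refine (IsUltrametricDist.norm_add_le_max _ _).trans (max_le ?_ ?_)
  · rw [norm_neg, norm_mul]
    exact (mul_le_of_le_one_right (norm_nonneg _) (norm_int_le p _)).trans
      (norm_uC_sub_natCast p g m)
  · rw [norm_mul, norm_pow]
    exact mul_le_of_le_one_right (by positivity) (norm_int_le p _)

end Pool.Agent.K9h38.FM
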