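import Mathlib
import Pool.Agent.K9h38.FM.Eps

/-!
`[ε] - 1` is not divisible by `ξ ^ 2`; the action of the Galois group on `ξ` modulo `ξ ^ 2`.
-/

set_option linter.unusedSectionVars false

namespace Pool.Agent.K9h38.FM

open Ideal WittVector Pool.Agent.W292.FM

variable (p : ℕ) [hp : Fact p.Prime]

/-- The `p`-th root `ε^(1/p) = (ζ_p, ζ_(p^2), …)` of `ε`. -/
noncomputable def eps1 : TT p := mkT (fun n => zO p (n + 1)) (fun n => zO_pow p (n + 1))

theorem eps1_pow : eps1 p ^ p = eps p := by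
  refine Perfection.ext fun n => ?_
  change PreTilt.coeff n _ = PreTilt.coeff n _
  rw [map_pow, eps1, eps, coeff_mkT, coeff_mkT, ← map_pow, zO_pow]

theorem untilt_eps1 : (eps1 p).untilt = zO p 1 := by rw [eps1, untilt_mkT]

theorem norm_zt_one_sub : 0 < ‖zt p 1 - 1‖ := by
  have h := norm_zt_sub_one_pow p 0
  rcases (norm_nonneg (zt p 1 - 1)).lt_or_eq with h1 | h1
  · exact h1
  · exfalso
    rw [show (0 : ℕ) + 1 = 1 from rfl, ← h1, zero_pow (Nat.totient_pos.2 (pow_pos hp.out.pos _)).ne']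
      at h
    have : (0 : ℝ) < (p : ℝ)⁻¹ := inv_pos.2 (by exact_mod_cast hp.out.pos)
    exact this.ne h

theorem zt_one_ne_one : zt p 1 ≠ 1 := by
  intro h
  have := norm_zt_one_sub p
  rw [h, sub_self, norm_zero] at this
  exact lt_irrefl _ this

theorem zO_one_ne_one : zO p 1 - 1 ≠ 0 := by
  intro h
  apply zt_one_ne_one p
  rw [sub_eq_zero] at h
  have h1 := congrArg (fun x : 𝓞_ℂ_[p] => (x : ℂ_[p])) h
  have h2 : ((zt p 1 : PadicAlgCl p) : ℂ_[p]) = ((1 : PadicAlgCl p) : ℂ_[p]) := h1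
  exact UniformSpace.Completion.coe_injective _ h2

/-- The element `ω = 1 + [ε^(1/p)] + … + [ε^(1/p)]^(p-1)`. -/
noncomputable def om : AI p := ∑ i ∈ Finset.range p, teichmuller p (eps1 p) ^ i

theorem om_mul : (teichmuller p (eps1 p) - 1) * om p = teichmuller p (eps p) - 1 := by
  rw [om, mul_geom_sum, ← map_pow, eps1_pow]

theorem tht_om : tht p (om p) = 0 := by
  have h1 : (zO p 1 - 1) * tht p (om p) = 0 := by
    have h2 := congrArg (tht p) (om_mul p)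
    rw [map_mul, tht_teich_sub_one p (untilt_eps p), map_sub, map_one] at h2
    have h3 : tht p (teichmuller p (eps1 p)) = zO p 1 := by
      change fontaineTheta 𝓞_ℂ_[p] p _ = _
      rw [fontaineTheta_teichmuller, untilt_eps1]
    rw [h3] at h2
    exact h2
  exact (mul_eq_zero.1 h1).resolve_left (zO_one_ne_one p)

theorem om_coeff_zero : (om p).coeff 0 = ∑ i ∈ Finset.range p, eps1 p ^ i := by
  have h : constantCoeff (om p) = ∑ i ∈ Finset.range p, constantCoeff (teichmuller p (eps1 p)) ^ i := by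
    rw [om, map_sum]
    exact Finset.sum_congr rfl fun i _ => map_pow _ _ _
  have h3 : constantCoeff (teichmuller p (eps1 p)) = eps1 p := teichmuller_coeff_zero p _
  rw [h3] at h
  exact h

theorem norm_geom : ‖∑ i ∈ Finset.range p, zt p 2 ^ i‖ = ‖(pseq p 1 : ℂ_[p])‖ := by
  set N : ℝ := ‖∑ i ∈ Finset.range p, zt p 2 ^ i‖ with hN
  have hp0 : (0 : ℝ) < (p : ℝ)⁻¹ := inv_pos.2 (by exact_mod_cast hp.out.pos)
  have h1 : N * ‖zt p 2 - 1‖ = ‖zt p 1 - 1‖ := by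
    rw [hN, ← norm_mul, geom_sum_mul, zt_pow p 1]
  have h2 := norm_zt_sub_one_pow p 0
  have h3 := norm_zt_sub_one_pow p 1
  rw [show (0 : ℕ) + 1 = 1 from rfl] at h2
  rw [show (1 : ℕ) + 1 = 2 from rfl] at h3
  have e1 : Nat.totient (p ^ 1) = p - 1 := by rw [pow_one, Nat.totient_prime hp.out]
  have e2 : Nat.totient (p ^ 2) = p * (p - 1) := by
    rw [Nat.totient_prime_pow_succ hp.out, pow_one]
  rw [e1] at h2
  rw [e2] at h3
  have hN0 : 0 ≤ N := norm_nonneg _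
  have hz2 : 0 < ‖zt p 2 - 1‖ := by
    rcases (norm_nonneg (zt p 2 - 1)).lt_or_eq with h | h
    · exact h
    · rw [← h, mul_zero] at h1
      exact absurd h1 (norm_zt_one_sub p).ne
  -- `N ^ (p * (p - 1)) * p⁻¹ = (p⁻¹) ^ p`
  have h4 : N ^ (p * (p - 1)) * (p : ℝ)⁻¹ = ((p : ℝ)⁻¹) ^ p := by
    calc N ^ (p * (p - 1)) * (p : ℝ)⁻¹
        = N ^ (p * (p - 1)) * ‖zt p 2 - 1‖ ^ (p * (p - 1)) := by rw [h3]
      _ = ‖zt p 1 - 1‖ ^ ((p - 1) * p) := by rw [← mul_pow, h1, mul_comm p (p - 1)]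
      _ = ((p : ℝ)⁻¹) ^ p := by rw [pow_mul, h2]
  have h5 : N ^ (p * (p - 1)) = ((p : ℝ)⁻¹) ^ (p - 1) := by
    have h6 : ((p : ℝ)⁻¹) ^ p = ((p : ℝ)⁻¹) ^ (p - 1) * (p : ℝ)⁻¹ := by
      rw [← pow_succ]
      congr 1
      have := hp.out.pos
      omega
    rw [h6] at h4
    exact mul_right_cancel₀ hp0.ne' h4
  have hpm : p - 1 ≠ 0 := by have := hp.out.two_le; omega
  have h6 : N ^ p = (p : ℝ)⁻¹ := by
    rw [pow_mul] at h5
    exact (pow_left_inj₀ (pow_nonneg hN0 _) hp0.le hpm).1 h5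
  have h7 : ‖(pseq p 1 : ℂ_[p])‖ ^ p = (p : ℝ)⁻¹ := by
    have := norm_pseq_pow (p := p) 1
    rw [pow_one] at this
    rw [this, norm_p]
  rw [← h7] at h6
  exact (pow_left_inj₀ hN0 (norm_nonneg _) hp.out.ne_zero).1 h6

theorem tht_qxi_om : tht p (qxi p (om p) (tht_om p)) ≠ 0 := by
  intro h0
  set y := qxi p (om p) (tht_om p) with hy
  have h1 : om p = xi p * y := qxi_spec p _ _
  have h2 : PreTilt.coeff 0 (y.coeff 0) = 0 := by
    rw [← mk_fontaineTheta (R := 𝓞_ℂ_[p]) (p := p) y]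
    change Ideal.Quotient.mk _ (tht p y) = 0
    rw [h0, map_zero]
  obtain ⟨t, ht⟩ := pflat_dvd h2
  have h3 : ∑ i ∈ Finset.range p, eps1 p ^ i = pflat p * (pflat p * t) := by
    rw [← om_coeff_zero, ← ht]
    have : constantCoeff (om p) = constantCoeff (xi p) * constantCoeff y := by rw [h1, map_mul]
    have h5 : constantCoeff (xi p) = pflat p := xi_coeff_zero p
    rw [h5] at this
    exact this
  have h4 := congrArg (PreTilt.coeff 1) h3
  rw [map_sum, map_mul, map_mul] at h4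
  obtain ⟨t1, ht1⟩ := Ideal.Quotient.mk_surjective (PreTilt.coeff 1 t)
  rw [← ht1] at h4
  have h5 : ∑ i ∈ Finset.range p, PreTilt.coeff 1 (eps1 p ^ i) =
      Ideal.Quotient.mk (span {(p : 𝓞_ℂ_[p])}) (∑ i ∈ Finset.range p, zO p 2 ^ i) := by
    rw [map_sum]
    refine Finset.sum_congr rfl fun i _ => ?_
    rw [map_pow, eps1, coeff_mkT, map_pow]
  have h6 : PreTilt.coeff 1 (pflat p) = Ideal.Quotient.mk (span {(p : 𝓞_ℂ_[p])}) (pseq p 1) := rfl
  rw [h5, h6, ← map_mul, ← map_mul, ← sub_eq_zero, ← map_sub, mk_eq_zero_iff] at h4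
  set r : ℝ := ‖(pseq p 1 : ℂ_[p])‖ with hr
  have hr0 : 0 < r := norm_pseq_pos 1
  have hrp : r ^ p = ‖(p : ℂ_[p])‖ := by
    have := norm_pseq_pow (p := p) 1
    rwa [pow_one] at this
  have hr1 : r < 1 := by
    by_contra hcon
    push Not at hcon
    have := one_le_pow₀ hcon (n := p)
    rw [hrp] at this
    exact absurd (norm_p_lt_one p) (not_lt.2 this)
  have h7 : ‖((∑ i ∈ Finset.range p, zO p 2 ^ i : 𝓞_ℂ_[p]) : ℂ_[p])‖ = r := by
    rw [hr, ← norm_geom]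
    have e : ((∑ i ∈ Finset.range p, zO p 2 ^ i : 𝓞_ℂ_[p]) : ℂ_[p]) =
        ((∑ i ∈ Finset.range p, zt p 2 ^ i : PadicAlgCl p) : ℂ_[p]) := by
      rw [PadicComplex.coe_eq, map_sum]
      have : ((∑ i ∈ Finset.range p, zO p 2 ^ i : 𝓞_ℂ_[p]) : ℂ_[p]) =
        ∑ i ∈ Finset.range p, ((zO p 2 : 𝓞_ℂ_[p]) : ℂ_[p]) ^ i := by push_cast; rfl
      rw [this]
      refine Finset.sum_congr rfl fun i _ => ?_
      rw [map_pow]
      rfl
    rw [e, PadicComplex.norm_extends]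
  have h8 : ‖((pseq p 1 * (pseq p 1 * t1) : 𝓞_ℂ_[p]) : ℂ_[p])‖ ≤ r ^ 2 := by
    rw [coe_O_mul, coe_O_mul, norm_mul, norm_mul, ← hr, pow_two]
    refine mul_le_mul_of_nonneg_left ?_ hr0.le
    exact mul_le_of_le_one_right hr0.le (norm_int_le p _)
  have h9 : r ≤ r ^ 2 := by
    rw [← h7]
    have e : ((∑ i ∈ Finset.range p, zO p 2 ^ i : 𝓞_ℂ_[p]) : ℂ_[p]) =
      (((∑ i ∈ Finset.range p, zO p 2 ^ i) - pseq p 1 * (pseq p 1 * t1) : 𝓞_ℂ_[p]) : ℂ_[p]) +
        ((pseq p 1 * (pseq p 1 * t1) : 𝓞_ℂ_[p]) : ℂ_[p]) := by push_cast; ring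
    nth_rw 1 [e]
    refine (IsUltrametricDist.norm_add_le_max _ _).trans (max_le ?_ ?_)
    · refine h4.trans ?_
      rw [← hrp, h7]
      exact pow_le_pow_of_le_one hr0.le hr1.le hp.out.two_le
    · rw [h7]; exact h8
  nlinarith

theorem LL_eps_ne_zero : LL p (eps p) (untilt_eps p) ≠ 0 := by
  have h1 : teichmuller p (eps p) - 1 =
      xi p * ((teichmuller p (eps1 p) - 1) * qxi p (om p) (tht_om p)) := by
    rw [mul_left_comm, ← qxi_spec, om_mul]
  rw [LL, qxi_unique p _ h1, map_mul, map_sub, map_one]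
  have h3 : tht p (teichmuller p (eps1 p)) = zO p 1 := by
    change fontaineTheta 𝓞_ℂ_[p] p _ = _
    rw [fontaineTheta_teichmuller, untilt_eps1]
  rw [h3]
  exact mul_ne_zero (zO_one_ne_one p) (tht_qxi_om p)

/-- The element `a = θ(([ε] - 1) / ξ)` of `ℂ_[p]`. -/
noncomputable def aC : ℂ_[p] := ((LL p (eps p) (untilt_eps p) : 𝓞_ℂ_[p]) : ℂ_[p])

theorem aC_ne_zero : aC p ≠ 0 := by
  intro h
  apply LL_eps_ne_zero p
  exact Subtype.ext h

theorem tht_map_xi (g : Gal(PadicAlgCl p/ℚ_[p])) :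
    tht p (WittVector.map (tiltMap p (intMap p g)) (xi p)) = 0 := by
  change fontaineTheta 𝓞_ℂ_[p] p _ = 0
  rw [theta_map]
  change intMap p g (tht p (xi p)) = 0
  rw [tht_xi, map_zero]

/-- The element `u_g` with `g(ξ) = ξ u_g`. -/
noncomputable def uG (g : Gal(PadicAlgCl p/ℚ_[p])) : AI p := qxi p _ (tht_map_xi p g)

theorem map_xi (g : Gal(PadicAlgCl p/ℚ_[p])) :
    WittVector.map (tiltMap p (intMap p g)) (xi p) = xi p * uG p g := qxi_spec p _ _

/-- The Galois action on `ξ` modulo `ξ ^ 2`: `θ(u_g) g(a) = κ(g) a`. -/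
theorem tht_uG (g : Gal(PadicAlgCl p/ℚ_[p])) :
    ((tht p (uG p g) : 𝓞_ℂ_[p]) : ℂ_[p]) * cpMap p g (aC p) = uC p (kap p g) * aC p := by
  have h1 : teichmuller p (tiltMap p (intMap p g) (eps p)) - 1 =
      xi p * (uG p g * WittVector.map (tiltMap p (intMap p g))
        (qxi p _ (tht_teich_sub_one p (untilt_eps p)))) := by
    rw [← mul_assoc, ← map_xi, ← map_mul, ← qxi_spec, map_sub, map_one, WittVector.map_teichmuller]
  have h2 := LL_tiltMap p g
  rw [LL, qxi_unique p _ h1, map_mul] at h2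
  have h3 : tht p (WittVector.map (tiltMap p (intMap p g))
      (qxi p _ (tht_teich_sub_one p (untilt_eps p)))) =
      intMap p g (LL p (eps p) (untilt_eps p)) := theta_map p _ _
  rw [h3, coe_O_mul, coe_intMap] at h2
  exact h2

end Pool.Agent.K9h38.FM
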