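import Mathlib
import Pool.Agent.K9h38.FM.Eps2
import Pool.Agent.K9h38.FM.Compl

/-!
Eigenvectors of the Galois group in `B_dR` give eigenvectors in `ℂ_[p]`.
-/

set_option linter.unusedSectionVars false

namespace Pool.Agent.K9h38.FM

open Ideal WittVector Pool.Agent.W292.FM

variable (p : ℕ) [hp : Fact p.Prime]

/-- The ring `A_inf[1/p]`. -/
abbrev AA := Localization.Away (p : AI p)

theorem natCast_p_ne_zero_AI : (p : AI p) ≠ 0 := by
  intro h
  have h1 : (1 : AI p) * (p : AI p) = 0 := by rw [one_mul, h]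
  exact one_ne_zero (eq_zero_of_p_mul_eq_zero (p := p) (1 : AI p) h1)

theorem powers_le_nzd : Submonoid.powers (p : AI p) ≤ nonZeroDivisors (AI p) :=
  powers_le_nonZeroDivisors_of_noZeroDivisors (natCast_p_ne_zero_AI p)

instance isDomain_AA : IsDomain (AA p) :=
  IsLocalization.isDomain_localization (powers_le_nzd p)

theorem isUnit_p_C : IsUnit (((𝓞_ℂ_[p]).subtype.comp (tht p)) (p : AI p)) := by
  rw [map_natCast]
  exact (p_ne_zero p).isUnit

/-- Fontaine's map `θ : A_inf[1/p] → ℂ_[p]`. -/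
noncomputable def thC : AA p →+* ℂ_[p] :=
  IsLocalization.Away.lift (p : AI p) (isUnit_p_C p)

theorem thC_algebraMap (x : AI p) : thC p (algebraMap _ _ x) = ((tht p x : 𝓞_ℂ_[p]) : ℂ_[p]) :=
  IsLocalization.Away.lift_eq _ _ x

theorem isUnit_p_O : IsUnit ((𝓞_ℂ_[p]).subtype (p : 𝓞_ℂ_[p])) := by
  rw [map_natCast]
  exact (p_ne_zero p).isUnit

/-- The embedding of `O[1/p]` in `ℂ_[p]`. -/
noncomputable def jO : Localization.Away (p : 𝓞_ℂ_[p]) →+* ℂ_[p] :=
  IsLocalization.Away.lift (p : 𝓞_ℂ_[p]) (isUnit_p_O p)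

theorem jO_algebraMap (x : 𝓞_ℂ_[p]) : jO p (algebraMap _ _ x) = (x : ℂ_[p]) :=
  IsLocalization.Away.lift_eq _ _ x

theorem jO_injective : Function.Injective (jO p) := by
  rw [injective_iff_map_eq_zero]
  intro y hy
  obtain ⟨x, s, rfl⟩ := IsLocalization.exists_mk'_eq (Submonoid.powers (p : 𝓞_ℂ_[p])) y
  have h1 : jO p (IsLocalization.mk' _ x s) * jO p (algebraMap _ _ (s : 𝓞_ℂ_[p])) =
      jO p (algebraMap _ _ x) := by
    rw [← map_mul, IsLocalization.mk'_spec]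
  rw [hy, zero_mul, jO_algebraMap] at h1
  have h2 : x = 0 := Subtype.ext h1.symm
  rw [h2, IsLocalization.mk'_zero]

theorem jO_comp (a : AA p) : jO p (fontaineThetaInvertP 𝓞_ℂ_[p] p a) = thC p a := by
  have key : (jO p).comp (fontaineThetaInvertP 𝓞_ℂ_[p] p) = thC p := by
    refine IsLocalization.ringHom_ext (Submonoid.powers (p : AI p)) ?_
    ext x
    simp only [RingHom.comp_apply]
    rw [thetaInvertP_algebraMap, jO_algebraMap, thC_algebraMap]
  exact congrArg (fun f : AA p →+* ℂ_[p] => f a) key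

theorem mem_kerT_iff (a : AA p) : a ∈ kerT 𝓞_ℂ_[p] p ↔ thC p a = 0 := by
  rw [RingHom.mem_ker, ← jO_comp, map_eq_zero_iff _ (jO_injective p)]

/-- `ξ` as an element of `A_inf[1/p]`. -/
noncomputable def xiA : AA p := algebraMap _ _ (xi p)

theorem xiA_ne_zero : xiA p ≠ 0 := by
  intro h
  apply xi_ne_zero p
  have := IsLocalization.injective (AA p) (powers_le_nzd p)
  exact (map_eq_zero_iff _ this).1 h

theorem kerT_eq : kerT 𝓞_ℂ_[p] p = span {xiA p} := by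
  apply le_antisymm
  · intro a ha
    rw [mem_kerT_iff] at ha
    obtain ⟨x, s, rfl⟩ := IsLocalization.exists_mk'_eq (Submonoid.powers (p : AI p)) a
    have h1 : thC p (IsLocalization.mk' _ x s) * thC p (algebraMap _ _ (s : AI p)) =
        thC p (algebraMap _ _ x) := by
      rw [← map_mul, IsLocalization.mk'_spec]
    rw [ha, zero_mul, thC_algebraMap] at h1
    have h2 : tht p x = 0 := Subtype.ext h1.symm
    obtain ⟨y, rfl⟩ := xi_dvd p h2
    rw [Ideal.mem_span_singleton]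
    refine ⟨IsLocalization.mk' _ y s, ?_⟩
    rw [xiA, IsLocalization.mul_mk'_eq_mk'_of_mul]
  · rw [Ideal.span_singleton_le_iff_mem, mem_kerT_iff, xiA, thC_algebraMap, tht_xi]
    rfl

/-- The image of `ξ` in `B_dR^+`. -/
noncomputable def xiP : BDeRhamPlus 𝓞_ℂ_[p] p := toPlus p (xiA p)

theorem xiP_pow_mul_injective (j : ℕ) (b : BDeRhamPlus 𝓞_ℂ_[p] p) (h : xiP p ^ j * b = 0) :
    b = 0 :=
  mul_pow_injective (A := AA p) (xiA_ne_zero p) (kerT_eq p) j b h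

theorem xiP_cancel (j : ℕ) {b c : BDeRhamPlus 𝓞_ℂ_[p] p} (h : xiP p ^ j * b = xiP p ^ j * c) :
    b = c := by
  rw [← sub_eq_zero]
  apply xiP_pow_mul_injective p j
  rw [mul_sub, h, sub_self]

/-- Fontaine's map `θ : B_dR^+ → ℂ_[p]`. -/
noncomputable def thP : BDeRhamPlus 𝓞_ℂ_[p] p →+* ℂ_[p] :=
  (Ideal.Quotient.lift (kerT 𝓞_ℂ_[p] p ^ 1) (thC p) (fun a ha => by
    rw [pow_one] at ha
    exact (mem_kerT_iff p a).1 ha)).comp (evalP p 1)

theorem thP_toPlus (a : AA p) : thP p (toPlus p a) = thC p a := by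
  rw [thP, RingHom.comp_apply, evalP_toPlus, Ideal.Quotient.lift_mk]

theorem thP_ne_zero {b : BDeRhamPlus 𝓞_ℂ_[p] p} (h : evalP p 1 b ≠ 0) : thP p b ≠ 0 := by
  intro h0
  apply h
  obtain ⟨a, ha⟩ := Ideal.Quotient.mk_surjective (evalP p 1 b)
  rw [thP, RingHom.comp_apply, ← ha, Ideal.Quotient.lift_mk] at h0
  rw [← ha, Ideal.Quotient.eq_zero_iff_mem, pow_one]
  exact (mem_kerT_iff p a).2 h0

theorem exists_factorP (b : BDeRhamPlus 𝓞_ℂ_[p] p) (hb : b ≠ 0) :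
    ∃ (j : ℕ) (b' : BDeRhamPlus 𝓞_ℂ_[p] p), b = xiP p ^ j * b' ∧ thP p b' ≠ 0 := by
  obtain ⟨j, b', h1, h2⟩ := exists_factor (A := AA p) (xiA_ne_zero p) (kerT_eq p) b hb
  exact ⟨j, b', h1, thP_ne_zero p h2⟩

theorem thC_locMap (g : Gal(PadicAlgCl p/ℚ_[p])) (a : AA p) :
    thC p (locMap p (intMap p g) a) = cpMap p g (thC p a) := by
  have key : (thC p).comp (locMap p (intMap p g)) =
      ((cpMap p g : ℂ_[p] ≃+* ℂ_[p]) : ℂ_[p] →+* ℂ_[p]).comp (thC p) := by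
    refine IsLocalization.ringHom_ext (Submonoid.powers (p : AI p)) ?_
    ext x
    simp only [RingHom.comp_apply]
    rw [locMap_algebraMap, thC_algebraMap, thC_algebraMap]
    have : tht p (WittVector.map (tiltMap p (intMap p g)) x) = intMap p g (tht p x) :=
      theta_map p _ _
    rw [this, coe_intMap]
    rfl
  exact congrArg (fun f : AA p →+* ℂ_[p] => f a) key

theorem thP_plusMap (g : Gal(PadicAlgCl p/ℚ_[p])) (b : BDeRhamPlus 𝓞_ℂ_[p] p) :
    thP p (plusMap p (intMap p g) b) = cpMap p g (thP p b) := by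
  rw [thP, RingHom.comp_apply, RingHom.comp_apply, evalP_plusMap]
  obtain ⟨a, ha⟩ := Ideal.Quotient.mk_surjective (evalP p 1 b)
  rw [← ha, Ideal.quotientMap_mk, Ideal.Quotient.lift_mk, Ideal.Quotient.lift_mk, thC_locMap]

/-- `u_g` in `B_dR^+` -/
noncomputable def uP (g : Gal(PadicAlgCl p/ℚ_[p])) : BDeRhamPlus 𝓞_ℂ_[p] p :=
  toPlus p (algebraMap _ _ (uG p g))

theorem plusMap_xiP (g : Gal(PadicAlgCl p/ℚ_[p])) :
    plusMap p (intMap p g) (xiP p) = xiP p * uP p g := by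
  rw [xiP, plusMap_toPlus, xiA, locMap_algebraMap, map_xi, map_mul, map_mul]
  rfl

theorem thP_uP (g : Gal(PadicAlgCl p/ℚ_[p])) :
    thP p (uP p g) * cpMap p g (aC p) = uC p (kap p g) * aC p := by
  rw [uP, thP_toPlus, thC_algebraMap, tht_uG]

/-- `B_dR` (Mathlib's `BDeRham` for the ring of integers of `ℂ_[p]`). -/
abbrev BdR := Localization (genSub 𝓞_ℂ_[p] p)

theorem xiP_mem : xiP p ∈ genSub 𝓞_ℂ_[p] p := by
  refine Submonoid.subset_closure ⟨xiA p, ?_, rfl⟩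
  exact kerT_eq p

theorem mem_genSub {s : BDeRhamPlus 𝓞_ℂ_[p] p} (hs : s ∈ genSub 𝓞_ℂ_[p] p) :
    ∃ (i : ℕ) (u : BDeRhamPlus 𝓞_ℂ_[p] p), IsUnit u ∧ s = xiP p ^ i * u := by
  induction hs using Submonoid.closure_induction with
  | mem s hs =>
    obtain ⟨a, ha, rfl⟩ := hs
    have h1 : span {xiA p} = span {a} := by rw [← kerT_eq]; exact ha
    rw [Ideal.span_singleton_eq_span_singleton] at h1
    obtain ⟨u, hu⟩ := h1
    refine ⟨1, toPlus p (u : AA p), u.isUnit.map _, ?_⟩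
    change toPlus p a = _
    rw [pow_one, xiP, ← map_mul, hu]
  | one => exact ⟨0, 1, isUnit_one, by rw [pow_zero, one_mul]⟩
  | mul s t _ _ hs ht =>
    obtain ⟨i, u, hu, rfl⟩ := hs
    obtain ⟨j, v, hv, rfl⟩ := ht
    exact ⟨i + j, u * v, hu.mul hv, by ring⟩

theorem genSub_le_nzd : genSub 𝓞_ℂ_[p] p ≤ nonZeroDivisors (BDeRhamPlus 𝓞_ℂ_[p] p) := by
  intro s hs
  obtain ⟨i, u, hu, rfl⟩ := mem_genSub p hs
  rw [mem_nonZeroDivisors_iff_right]
  intro b hb
  have h1 : xiP p ^ i * (b * u) = 0 := by rw [← hb]; ring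
  have h2 := xiP_pow_mul_injective p i _ h1
  exact (hu.mul_left_eq_zero).1 h2

theorem algebraMap_bdr_injective :
    Function.Injective (algebraMap (BDeRhamPlus 𝓞_ℂ_[p] p) (BdR p)) :=
  IsLocalization.injective _ (genSub_le_nzd p)

theorem exists_pow_mul (b : BdR p) : ∃ (i : ℕ) (b' : BDeRhamPlus 𝓞_ℂ_[p] p),
    algebraMap _ (BdR p) (xiP p) ^ i * b = algebraMap _ (BdR p) b' := by
  obtain ⟨x, s, rfl⟩ := IsLocalization.exists_mk'_eq (genSub 𝓞_ℂ_[p] p) b
  obtain ⟨i, u, hu, hs⟩ := mem_genSub p s.2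
  obtain ⟨v, hv⟩ := hu.exists_right_inv
  refine ⟨i, v * x, ?_⟩
  have h1 : algebraMap _ (BdR p) (s : BDeRhamPlus 𝓞_ℂ_[p] p) * IsLocalization.mk' (BdR p) x s =
      algebraMap _ (BdR p) x := IsLocalization.mk'_spec' _ _ _
  rw [map_mul, ← h1, hs, map_mul, map_pow]
  have h2 : algebraMap _ (BdR p) u * algebraMap _ (BdR p) v = 1 := by
    rw [← map_mul, hv, map_one]
  calc algebraMap _ (BdR p) (xiP p) ^ i * IsLocalization.mk' (BdR p) x s
      = (algebraMap _ (BdR p) u * algebraMap _ (BdR p) v) *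
        (algebraMap _ (BdR p) (xiP p) ^ i * IsLocalization.mk' (BdR p) x s) := by rw [h2, one_mul]
    _ = _ := by ring

theorem tht_zpMap (x : ℤ_[p]) :
    ((tht p (zpMap 𝓞_ℂ_[p] p x) : 𝓞_ℂ_[p]) : ℂ_[p]) = algebraMap ℚ_[p] ℂ_[p] (x : ℚ_[p]) := by
  rw [← sub_eq_zero, ← norm_le_zero_iff]
  refine ge_of_tendsto' (tendsto_norm_p_pow p) fun n => ?_
  have h1 := PadicInt.appr_spec n x
  rw [Ideal.mem_span_singleton] at h1
  obtain ⟨y, hy⟩ := h1
  have h2 : x = ((x.appr n : ℕ) : ℤ_[p]) + (p : ℤ_[p]) ^ n * y := by rw [← hy]; ring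
  have h3 : ((tht p (zpMap 𝓞_ℂ_[p] p x) : 𝓞_ℂ_[p]) : ℂ_[p]) = ((x.appr n : ℕ) : ℂ_[p]) +
      (p : ℂ_[p]) ^ n * ((tht p (zpMap 𝓞_ℂ_[p] p y) : 𝓞_ℂ_[p]) : ℂ_[p]) := by
    conv_lhs => rw [h2]
    rw [map_add, map_add, map_mul, map_mul, map_pow, map_pow, map_natCast, map_natCast,
      map_natCast, map_natCast]
    push_cast
    rfl
  have h4 : algebraMap ℚ_[p] ℂ_[p] (x : ℚ_[p]) = ((x.appr n : ℕ) : ℂ_[p]) +
      (p : ℂ_[p]) ^ n * algebraMap ℚ_[p] ℂ_[p] (y : ℚ_[p]) := by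
    conv_lhs => rw [h2]
    rw [PadicInt.coe_add, PadicInt.coe_mul, PadicInt.coe_pow, PadicInt.coe_natCast,
      PadicInt.coe_natCast, map_add, map_mul, map_pow, map_natCast, map_natCast]
  rw [h3, h4]
  have e : ∀ a b c d : ℂ_[p], a + b * c - (a + b * d) = b * c + -(b * d) := by intros; ring
  rw [e]
  refine (IsUltrametricDist.norm_add_le_max _ _).trans (max_le ?_ ?_)
  · rw [norm_mul, norm_pow]
    exact mul_le_of_le_one_right (by positivity) (norm_int_le p _)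
  · rw [norm_neg, norm_mul, norm_pow, norm_algQ]
    exact mul_le_of_le_one_right (by positivity) y.2

/-- An eigenvector in `B_dR` of a set of Galois elements gives one in `ℂ_[p]`. -/
theorem exists_eigen (S : Set Gal(PadicAlgCl p/ℚ_[p])) (lam : Gal(PadicAlgCl p/ℚ_[p]) → ℤ_[p]ˣ)
    (b : BdR p) (hb : b ≠ 0)
    (h : ∀ g ∈ S, bdrMap p (intMap p g) b =
      algebraMap ℚ_[p] (BdR p) ((lam g : ℤ_[p]) : ℚ_[p]) * b) :
    ∃ (c : ℂ_[p]) (i : ℤ), c ≠ 0 ∧ ∀ g ∈ S, cpMap p g c = uC p (kap p g ^ i * lam g) * c := by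
  obtain ⟨i, b1, hb1⟩ := exists_pow_mul p b
  have hunit : IsUnit (algebraMap _ (BdR p) (xiP p) ^ i) := by
    refine IsUnit.pow _ ?_
    exact IsLocalization.map_units (BdR p) (⟨xiP p, xiP_mem p⟩ : genSub 𝓞_ℂ_[p] p)
  have hb10 : b1 ≠ 0 := by
    intro h0
    rw [h0, map_zero] at hb1
    exact hb ((hunit.mul_right_eq_zero).1 hb1)
  obtain ⟨j, b2, hb2, hth⟩ := exists_factorP p b1 hb10
  -- the scalar
  have key : ∀ g ∈ S, thP p (uP p g) ^ j * cpMap p g (thP p b2) =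
      thP p (uP p g) ^ i * uC p (lam g) * thP p b2 := by
    intro g hg
    have h1 : plusMap p (intMap p g) b1 =
        uP p g ^ i * toPlus p (qpMap 𝓞_ℂ_[p] p ((lam g : ℤ_[p]) : ℚ_[p])) * b1 := by
      apply algebraMap_bdr_injective p
      rw [← bdrMap_algebraMap, ← hb1, map_mul, map_pow, bdrMap_algebraMap, plusMap_xiP, h g hg,
        algebraMap_bdr, map_mul, map_mul, map_mul, ← hb1, map_pow]
      ring
    have h2 : uP p g ^ j * plusMap p (intMap p g) b2 =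
        uP p g ^ i * toPlus p (qpMap 𝓞_ℂ_[p] p ((lam g : ℤ_[p]) : ℚ_[p])) * b2 := by
      apply xiP_cancel p j
      rw [hb2, map_mul, map_pow, plusMap_xiP] at h1
      calc xiP p ^ j * (uP p g ^ j * plusMap p (intMap p g) b2)
          = (xiP p * uP p g) ^ j * plusMap p (intMap p g) b2 := by ring
        _ = _ := by rw [h1]; ring
    have h3 := congrArg (thP p) h2
    rw [map_mul, map_pow, thP_plusMap, map_mul, map_mul, map_pow, thP_toPlus] at h3
    have h4 : thC p (qpMap 𝓞_ℂ_[p] p ((lam g : ℤ_[p]) : ℚ_[p])) = uC p (lam g) := by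
      have h5 := qpMap_coe 𝓞_ℂ_[p] p (lam g : ℤ_[p])
      have h6 : (algebraMap ℤ_[p] ℚ_[p] (lam g : ℤ_[p])) = ((lam g : ℤ_[p]) : ℚ_[p]) := rfl
      rw [h6] at h5
      rw [h5, thC_algebraMap, tht_zpMap, uC_apply]
    rw [h4] at h3
    exact h3
  have hU : ∀ g, thP p (uP p g) = uC p (kap p g) * aC p / cpMap p g (aC p) := by
    intro g
    have h1 := thP_uP p g
    have h2 : cpMap p g (aC p) ≠ 0 := by
      rw [← norm_pos_iff, norm_cpMap, norm_pos_iff]
      exact aC_ne_zero p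
    rw [eq_div_iff h2, h1]
  refine ⟨thP p b2 * aC p ^ ((i : ℤ) - (j : ℤ)), (i : ℤ) - (j : ℤ), ?_, ?_⟩
  · exact mul_ne_zero hth (zpow_ne_zero _ (aC_ne_zero p))
  · intro g hg
    have h1 := key g hg
    have ha : cpMap p g (aC p) ≠ 0 := by
      rw [← norm_pos_iff, norm_cpMap, norm_pos_iff]
      exact aC_ne_zero p
    have hk : uC p (kap p g) ≠ 0 := by
      rw [← norm_pos_iff, norm_uC]; exact one_pos
    have hUne : thP p (uP p g) ≠ 0 := by
      rw [hU]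
      exact div_ne_zero (mul_ne_zero hk (aC_ne_zero p)) ha
    have h2 : cpMap p g (thP p b2) =
        thP p (uP p g) ^ ((i : ℤ) - (j : ℤ)) * uC p (lam g) * thP p b2 := by
      rw [zpow_sub₀ hUne, zpow_natCast, zpow_natCast]
      field_simp
      rw [mul_comm (cpMap p g (thP p b2)), h1]
    have h3 : uC p (kap p g ^ ((i : ℤ) - (j : ℤ)) * lam g) =
        uC p (kap p g) ^ ((i : ℤ) - (j : ℤ)) * uC p (lam g) := by
      rw [map_mul]
      congr 1
      have : ∀ (u : ℤ_[p]ˣ) (n : ℤ), uC p (u ^ n) = uC p u ^ n := by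
        intro u n
        have hu : ∀ u : ℤ_[p]ˣ, uC p u⁻¹ = (uC p u)⁻¹ := by
          intro u
          have h5 : uC p u ≠ 0 := by rw [← norm_pos_iff, norm_uC]; exact one_pos
          rw [← mul_left_inj' h5, inv_mul_cancel₀ h5, ← map_mul, inv_mul_cancel, map_one]
        rcases Int.natAbs_eq n with h | h
        · rw [h, zpow_natCast, zpow_natCast, map_pow]
        · rw [h, zpow_neg, zpow_neg, zpow_natCast, zpow_natCast, hu, map_pow]
      exact this _ _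
    rw [map_mul, map_zpow₀, h2, h3, hU, div_zpow, mul_zpow]
    have h6 : cpMap p g (aC p) ^ ((i : ℤ) - (j : ℤ)) ≠ 0 := zpow_ne_zero _ ha
    field_simp

end Pool.Agent.K9h38.FM
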