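import Mathlib

/-!
A continuous character `χ` of `ℤ_[l]ˣ` with values in `ℚ_[l]^alg` which is the inverse of the square
root near `1`.
-/

set_option linter.unusedSectionVars false

namespace Pool.Agent.K9h38.FM

open Polynomial

variable (l : ℕ) [hl : Fact l.Prime]

theorem norm_two_pos : 0 < ‖(2 : ℤ_[l])‖ := norm_pos_iff.2 (by norm_num)

theorem norm_two_le : ‖(2 : ℤ_[l])‖ ≤ 1 := PadicInt.norm_le_one _

theorem add_one_norm {z : ℤ_[l]} (hz : ‖z - 1‖ < ‖(2 : ℤ_[l])‖) : ‖z + 1‖ = ‖(2 : ℤ_[l])‖ := by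
  have e : z + 1 = 2 + (z - 1) := by ring
  rw [e, IsUltrametricDist.norm_add_eq_max_of_norm_ne_norm hz.ne', max_eq_left hz.le]

theorem exists_sqrt {x : ℤ_[l]} (hx : ‖x - 1‖ < ‖(2 : ℤ_[l])‖ ^ 2) :
    ∃ z : ℤ_[l], z ^ 2 = x ∧ ‖z - 1‖ < ‖(2 : ℤ_[l])‖ := by
  set F : ℤ_[l][X] := X ^ 2 - C x with hF
  have h1 : F.eval 1 = 1 - x := by simp [hF]
  have h2 : (derivative F).eval 1 = 2 := by simp [hF]; norm_num
  obtain ⟨z, hz, hz1, -, -⟩ := hensels_lemma (p := l) (F := F) (a := (1 : ℤ_[l])) (by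
    simp only [coe_aeval_eq_eval] at *
    rw [h1, h2, norm_sub_rev]
    exact hx)
  simp only [coe_aeval_eq_eval] at hz hz1
  rw [h2] at hz1
  refine ⟨z, ?_, hz1⟩
  simp only [hF, eval_sub, eval_pow, eval_X, eval_C] at hz
  exact sub_eq_zero.1 hz

theorem sq_sub_one_norm {z : ℤ_[l]} (hz : ‖z - 1‖ < ‖(2 : ℤ_[l])‖) :
    ‖z ^ 2 - 1‖ = ‖z - 1‖ * ‖(2 : ℤ_[l])‖ := by
  have e : z ^ 2 - 1 = (z - 1) * (z + 1) := by ring
  rw [e, norm_mul, add_one_norm l hz]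

theorem sqrt_unique {z w : ℤ_[l]} (hz : ‖z - 1‖ < ‖(2 : ℤ_[l])‖) (hw : ‖w - 1‖ < ‖(2 : ℤ_[l])‖)
    (h : z ^ 2 = w ^ 2) : z = w := by
  have h1 : (z - w) * (z + w) = 0 := by
    have : (z - w) * (z + w) = z ^ 2 - w ^ 2 := by ring
    rw [this, h, sub_self]
  rcases mul_eq_zero.1 h1 with h2 | h2
  · exact sub_eq_zero.1 h2
  · exfalso
    have e : z + w = 2 + ((z - 1) + (w - 1)) := by ring
    have h3 : ‖(z - 1) + (w - 1)‖ < ‖(2 : ℤ_[l])‖ :=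
      lt_of_le_of_lt (IsUltrametricDist.norm_add_le_max _ _) (max_lt hz hw)
    have h4 : ‖z + w‖ = ‖(2 : ℤ_[l])‖ := by
      rw [e, IsUltrametricDist.norm_add_eq_max_of_norm_ne_norm h3.ne', max_eq_left h3.le]
    rw [h2, norm_zero] at h4
    exact (norm_two_pos l).ne h4

/-- The open subgroup of units close to `1`. -/
def HH (r : ℝ) (hr0 : 0 < r) : Subgroup ℤ_[l]ˣ where
  carrier := {x | ‖(x : ℤ_[l]) - 1‖ < r}
  one_mem' := by simpa using hr0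
  mul_mem' := by
    intro x y hx hy
    change ‖((x * y : ℤ_[l]ˣ) : ℤ_[l]) - 1‖ < r
    have e : ((x * y : ℤ_[l]ˣ) : ℤ_[l]) - 1 = ((x : ℤ_[l]) - 1) * (y : ℤ_[l]) + ((y : ℤ_[l]) - 1) := by
      push_cast; ring
    rw [e]
    refine lt_of_le_of_lt (PadicInt.nonarchimedean _ _) (max_lt ?_ hy)
    rw [norm_mul, PadicInt.norm_units, mul_one]
    exact hx
  inv_mem' := by
    intro x hx
    change ‖((x⁻¹ : ℤ_[l]ˣ) : ℤ_[l]) - 1‖ < r
    have e : ((x⁻¹ : ℤ_[l]ˣ) : ℤ_[l]) - 1 = -(((x⁻¹ : ℤ_[l]ˣ) : ℤ_[l]) * ((x : ℤ_[l]) - 1)) := by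
      rw [mul_sub, Units.inv_mul]; ring
    rw [e, norm_neg, norm_mul, PadicInt.norm_units, one_mul]
    exact hx

theorem isOpen_HH (r : ℝ) (hr0 : 0 < r) :
    IsOpen (HH l r hr0 : Set ℤ_[l]ˣ) := by
  have h1 : Continuous fun x : ℤ_[l]ˣ => ‖(x : ℤ_[l]) - 1‖ :=
    (Units.continuous_val.sub continuous_const).norm
  exact isOpen_lt h1 continuous_const

/-- The group of units `x` with `|x - 1| < |4|`. -/
noncomputable def H4 : Subgroup ℤ_[l]ˣ := HH l (‖(2 : ℤ_[l])‖ ^ 2) (pow_pos (norm_two_pos l) 2)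

theorem mem_H4 {x : ℤ_[l]ˣ} : x ∈ H4 l ↔ ‖(x : ℤ_[l]) - 1‖ < ‖(2 : ℤ_[l])‖ ^ 2 := Iff.rfl

theorem isOpen_H4 : IsOpen (H4 l : Set ℤ_[l]ˣ) := isOpen_HH l _ _

/-- The square root near `1`, as a function. -/
theorem exists_sqrt_unit (x : H4 l) : ∃ z : ℤ_[l]ˣ, z ^ 2 = (x : ℤ_[l]ˣ) ∧
    ‖(z : ℤ_[l]) - 1‖ < ‖(2 : ℤ_[l])‖ := by
  obtain ⟨z, hz, hz1⟩ := exists_sqrt l x.2
  have hu : IsUnit z := by
    rw [← isUnit_pow_iff two_ne_zero, hz]
    exact (x : ℤ_[l]ˣ).isUnit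
  refine ⟨hu.unit, Units.ext ?_, ?_⟩
  · rw [Units.val_pow_eq_pow_val, IsUnit.unit_spec, hz]
  · rw [IsUnit.unit_spec]; exact hz1

noncomputable def sq (x : H4 l) : ℤ_[l]ˣ := (exists_sqrt_unit l x).choose

theorem sq_sq (x : H4 l) : sq l x ^ 2 = (x : ℤ_[l]ˣ) := (exists_sqrt_unit l x).choose_spec.1

theorem sq_norm (x : H4 l) : ‖(sq l x : ℤ_[l]) - 1‖ < ‖(2 : ℤ_[l])‖ :=
  (exists_sqrt_unit l x).choose_spec.2

theorem unit_sqrt_unique {z w : ℤ_[l]ˣ} (hz : ‖(z : ℤ_[l]) - 1‖ < ‖(2 : ℤ_[l])‖)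
    (hw : ‖(w : ℤ_[l]) - 1‖ < ‖(2 : ℤ_[l])‖) (h : z ^ 2 = w ^ 2) : z = w := by
  refine Units.ext (sqrt_unique l hz hw ?_)
  rw [← Units.val_pow_eq_pow_val, ← Units.val_pow_eq_pow_val, h]

/-- The square root near `1`, as a homomorphism. -/
noncomputable def sqH : H4 l →* ℤ_[l]ˣ where
  toFun := sq l
  map_one' := by
    refine unit_sqrt_unique l (sq_norm l 1) ?_ ?_
    · rw [Units.val_one, sub_self, norm_zero]; exact norm_two_pos l
    · rw [sq_sq, one_pow]; rfl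
  map_mul' := by
    intro x y
    have hxy : sq l x * sq l y ∈ HH l _ (norm_two_pos l) :=
      mul_mem (show sq l x ∈ HH l _ (norm_two_pos l) from sq_norm l x)
        (show sq l y ∈ HH l _ (norm_two_pos l) from sq_norm l y)
    refine unit_sqrt_unique l (sq_norm l (x * y)) hxy ?_
    rw [sq_sq, mul_pow, sq_sq, sq_sq]
    rfl

theorem sqH_sq (x : H4 l) : sqH l x ^ 2 = (x : ℤ_[l]ˣ) := sq_sq l x

theorem sqH_norm (x : H4 l) :
    ‖(sqH l x : ℤ_[l]) - 1‖ * ‖(2 : ℤ_[l])‖ = ‖((x : ℤ_[l]ˣ) : ℤ_[l]) - 1‖ := by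
  have h1 := sq_sub_one_norm l (sq_norm l x)
  have h2 : ((sq l x : ℤ_[l])) ^ 2 = ((x : ℤ_[l]ˣ) : ℤ_[l]) := by
    rw [← sq_sq l x, Units.val_pow_eq_pow_val]
  rw [h2] at h1
  exact h1.symm

/-- Units of `ℤ_[l]` as units of `ℚ_[l]^alg`. -/
noncomputable def uU : ℤ_[l]ˣ →* (PadicAlgCl l)ˣ :=
  Units.map ((algebraMap ℚ_[l] (PadicAlgCl l)).comp (algebraMap ℤ_[l] ℚ_[l]) : ℤ_[l] →* PadicAlgCl l)

theorem uU_val (u : ℤ_[l]ˣ) :
    ((uU l u : (PadicAlgCl l)ˣ) : PadicAlgCl l) =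
      algebraMap ℚ_[l] (PadicAlgCl l) ((u : ℤ_[l]) : ℚ_[l]) := rfl

theorem continuous_uU : Continuous (uU l) := by
  refine Continuous.units_map _ ?_
  have h1 : Continuous (algebraMap ℚ_[l] (PadicAlgCl l)) := continuous_algebraMap _ _
  have h2 : Continuous (algebraMap ℤ_[l] ℚ_[l]) := continuous_subtype_val
  exact h1.comp h2

theorem exists_zsmul (a : Additive (PadicAlgCl l)ˣ) (n : ℤ) (hn : n ≠ 0) :
    ∃ b : Additive (PadicAlgCl l)ˣ, n • b = a := by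
  obtain ⟨z, hz⟩ := IsAlgClosed.exists_pow_nat_eq ((Additive.toMul a : (PadicAlgCl l)ˣ) :
    PadicAlgCl l) (Int.natAbs_pos.2 hn)
  have hz0 : z ≠ 0 := by
    rintro rfl
    rw [zero_pow (Int.natAbs_ne_zero.2 hn)] at hz
    exact (Additive.toMul a).ne_zero hz.symm
  have hz1 : (Units.mk0 z hz0) ^ n.natAbs = Additive.toMul a :=
    Units.ext (by rw [Units.val_pow_eq_pow_val, Units.val_mk0, hz])
  have hz2 : n.natAbs • Additive.ofMul (Units.mk0 z hz0) = a := by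
    rw [← ofMul_pow, hz1, ofMul_toMul]
  rcases Int.natAbs_eq n with h | h
  · refine ⟨Additive.ofMul (Units.mk0 z hz0), ?_⟩
    rw [h, natCast_zsmul]
    exact hz2
  · refine ⟨-Additive.ofMul (Units.mk0 z hz0), ?_⟩
    rw [h, neg_smul, natCast_zsmul, ← neg_nsmul, neg_neg]
    exact hz2

/-- The multiplicative group of an algebraically closed field of characteristic zero is divisible. -/
theorem exists_extension {G : Type} [CommGroup G] (H : Subgroup G) (f : H →* (PadicAlgCl l)ˣ) :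
    ∃ f' : G →* (PadicAlgCl l)ˣ, ∀ x : H, f' x = f x := by
  classical
  choose d hd using exists_zsmul l
  let inst : DivisibleBy (Additive (PadicAlgCl l)ˣ) ℤ :=
    { div := fun a n => if hn : n = 0 then 0 else d a n hn
      div_zero := fun a => by simp
      div_cancel := fun {n} a hn => by
        simp only [hn, dif_neg, not_false_eq_true]
        exact hd a n hn }
  obtain ⟨h, hh⟩ := (Module.Baer.of_divisible (Additive (PadicAlgCl l)ˣ)).extension_property_addMonoidHom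
    (MonoidHom.toAdditive H.subtype) (by
      intro x y hxy
      exact Subtype.ext hxy) (MonoidHom.toAdditive f)
  refine ⟨MonoidHom.toAdditive.symm h, fun x => ?_⟩
  have h1 := congrArg (fun k : Additive H →+ Additive (PadicAlgCl l)ˣ => k (Additive.ofMul x)) hh
  exact h1

theorem sqH_dist (x y : H4 l) : ‖(sqH l x : ℤ_[l]) - (sqH l y : ℤ_[l])‖ * ‖(2 : ℤ_[l])‖ =
    ‖((x : ℤ_[l]ˣ) : ℤ_[l]) - ((y : ℤ_[l]ˣ) : ℤ_[l])‖ := by
  have h1 := sqH_norm l (x * y⁻¹)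
  have h2 : (sqH l x : ℤ_[l]) - (sqH l y : ℤ_[l]) =
      ((sqH l (x * y⁻¹) : ℤ_[l]) - 1) * (sqH l y : ℤ_[l]) := by
    rw [sub_mul, one_mul, ← Units.val_mul, ← map_mul, inv_mul_cancel_right]
  have h3 : ((x : ℤ_[l]ˣ) : ℤ_[l]) - ((y : ℤ_[l]ˣ) : ℤ_[l]) =
      ((((x * y⁻¹ : H4 l) : ℤ_[l]ˣ) : ℤ_[l]) - 1) * ((y : ℤ_[l]ˣ) : ℤ_[l]) := by
    rw [sub_mul, one_mul, ← Units.val_mul, ← Subgroup.coe_mul, inv_mul_cancel_right]
  rw [h2, h3, norm_mul, norm_mul, PadicInt.norm_units, PadicInt.norm_units, mul_one, mul_one, h1]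

theorem continuous_sqH : Continuous (sqH l) := by
  have h1 : Continuous fun x : H4 l => (sqH l x : ℤ_[l]) := by
    rw [continuous_iff_continuousAt]
    intro x
    rw [ContinuousAt, tendsto_iff_dist_tendsto_zero]
    have h2 : ∀ y : H4 l, dist (sqH l y : ℤ_[l]) (sqH l x : ℤ_[l]) =
        ‖((y : ℤ_[l]ˣ) : ℤ_[l]) - ((x : ℤ_[l]ˣ) : ℤ_[l])‖ / ‖(2 : ℤ_[l])‖ := by
      intro y
      rw [dist_eq_norm, eq_div_iff (norm_two_pos l).ne', sqH_dist]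
    simp only [h2]
    have h3 : Continuous fun y : H4 l =>
        ‖((y : ℤ_[l]ˣ) : ℤ_[l]) - ((x : ℤ_[l]ˣ) : ℤ_[l])‖ / ‖(2 : ℤ_[l])‖ :=
      (((Units.continuous_val.comp continuous_subtype_val).sub continuous_const).norm).div_const _
    have h4 := h3.tendsto x
    simpa using h4
  rw [Units.continuous_iff]
  refine ⟨h1, ?_⟩
  have h2 : (fun x : H4 l => (((sqH l x)⁻¹ : ℤ_[l]ˣ) : ℤ_[l])) =
      (fun x : H4 l => (sqH l x : ℤ_[l])) ∘ fun x => x⁻¹ := by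
    ext x
    simp
  rw [h2]
  exact h1.comp continuous_inv

instance finite_quotient_H4 : Finite (ℤ_[l]ˣ ⧸ H4 l) :=
  (H4 l).quotient_finite_of_isOpen (isOpen_H4 l)

/-- The character: continuous, `χ(x) = 1 / √x` on the open subgroup `H4`, and a power of `χ` is a
negative power of the identity. -/
theorem exists_chi : ∃ χ : ℤ_[l]ˣ →* (PadicAlgCl l)ˣ, Continuous χ ∧
    (∀ x : H4 l, χ x = (uU l (sqH l x))⁻¹) ∧
    ∃ M : ℕ, 0 < M ∧ ∀ x : ℤ_[l]ˣ, χ x ^ (2 * M) = ((uU l x) ^ M)⁻¹ := by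
  let f : H4 l →* (PadicAlgCl l)ˣ := ((uU l).comp (sqH l))⁻¹
  obtain ⟨χ, hχ⟩ := exists_extension l (H4 l) f
  have hf : ∀ x : H4 l, f x = (uU l (sqH l x))⁻¹ := fun x => rfl
  refine ⟨χ, ?_, fun x => (hχ x).trans (hf x), ?_⟩
  · -- continuity
    apply continuous_of_continuousAt_one
    have h1 := (isOpen_H4 l).isOpenEmbedding_subtypeVal.continuousAt_iff (g := χ) (x := 1)
    refine h1.1 ?_
    have h2 : (χ : ℤ_[l]ˣ → (PadicAlgCl l)ˣ) ∘ (Subtype.val : H4 l → ℤ_[l]ˣ) =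
        fun x => (uU l (sqH l x))⁻¹ := by
      ext x
      change ((χ x : (PadicAlgCl l)ˣ) : PadicAlgCl l) = _
      rw [hχ x, hf]
    change ContinuousAt ((χ : ℤ_[l]ˣ → (PadicAlgCl l)ˣ) ∘ (Subtype.val : H4 l → ℤ_[l]ˣ)) 1
    rw [h2]
    exact (((continuous_uU l).comp (continuous_sqH l)).inv).continuousAt
  · refine ⟨Nat.card (ℤ_[l]ˣ ⧸ H4 l), Nat.card_pos, fun x => ?_⟩
    set M := Nat.card (ℤ_[l]ˣ ⧸ H4 l) with hM
    have hxM : x ^ M ∈ H4 l := (H4 l).pow_index_mem x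
    rw [mul_comm, pow_mul, ← map_pow]
    have h1 := (hχ ⟨x ^ M, hxM⟩).trans (hf _)
    change χ (x ^ M) = _ at h1
    rw [h1, inv_pow, ← map_pow, sqH_sq, map_pow]

end Pool.Agent.K9h38.FM
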