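import Mathlib
import Pool.Agent.W292.FM.Scalars
import Pool.Agent.W292.FM.Galois

/-!
# Definitions for conditions 1 and 2 of problem MP_395897_nt

`F` is a number field, `F̄` its algebraic closure. Everything at a finite place `v` of `F` above the
prime number `p` is expressed by means of an embedding `ι : F̄ → ℚ̄_p` which induces `v` (all finite
places arise in this way, and `F_v` is the subfield `ℚ_p ι(F)` of `ℚ̄_p`).
-/

set_option autoImplicit false
set_option linter.unusedSectionVars false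

namespace Pool.Agent.K9h38.FM

open NumberField Pool.Agent.W292.FM
open scoped TensorProduct

section Places

variable {F : Type} [Field F] {p : ℕ} [hp : Fact p.Prime]

/-- The absolute Galois group `G_{F_v}` of the completion `F_v` at the place `v` above `p` given by an
embedding `ι : F̄ → ℚ̄_p`: it consists of the pairs `(loc, glob)` with `loc` in `Gal(ℚ̄_p / ℚ_p)`,
`glob` in `G_F` and `ι glob = loc ι`. The component `loc` runs through `Gal(ℚ̄_p / F_v)`, and `glob` is
the image of `loc` under the map `G_{F_v} → G_F`. -/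
structure LocalGal (ι : AlgebraicClosure F →+* PadicAlgCl p) where
  loc : Gal(PadicAlgCl p/ℚ_[p])
  glob : Gal(AlgebraicClosure F/F)
  compat : ∀ x, ι (glob x) = loc (ι x)

namespace LocalGal

variable {ι : AlgebraicClosure F →+* PadicAlgCl p}

theorem ext' {a b : LocalGal ι} (h : a.loc = b.loc) (h' : a.glob = b.glob) : a = b := by
  cases a; cases b; cases h; cases h'; rfl

noncomputable instance : Mul (LocalGal ι) :=
  ⟨fun a b => ⟨a.loc * b.loc, a.glob * b.glob, fun x => by
    rw [AlgEquiv.mul_apply, AlgEquiv.mul_apply, a.compat, b.compat]⟩⟩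

noncomputable instance : One (LocalGal ι) := ⟨⟨1, 1, fun _ => rfl⟩⟩

noncomputable instance : Inv (LocalGal ι) :=
  ⟨fun a => ⟨a.loc⁻¹, a.glob⁻¹, fun x => by
    have h := a.compat (a.glob⁻¹ x)
    have h1 : a.glob (a.glob⁻¹ x) = x := by
      change (a.glob * a.glob⁻¹) x = x
      rw [mul_inv_cancel]; rfl
    have h2 : a.loc⁻¹ (a.loc (ι (a.glob⁻¹ x))) = ι (a.glob⁻¹ x) := by
      change (a.loc⁻¹ * a.loc) _ = _
      rw [inv_mul_cancel]; rfl
    rw [h1] at h
    rw [h, h2]⟩⟩

theorem mul_loc (a b : LocalGal ι) : (a * b).loc = a.loc * b.loc := rfl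
theorem mul_glob (a b : LocalGal ι) : (a * b).glob = a.glob * b.glob := rfl

noncomputable instance : Group (LocalGal ι) :=
  Group.ofLeftAxioms
    (fun a b c => ext' (mul_assoc a.loc b.loc c.loc) (mul_assoc a.glob b.glob c.glob))
    (fun a => ext' (one_mul a.loc) (one_mul a.glob))
    (fun a => ext' (inv_mul_cancel a.loc) (inv_mul_cancel a.glob))

/-- The homomorphism `G_{F_v} → G_F`. -/
noncomputable def globHom (ι : AlgebraicClosure F →+* PadicAlgCl p) : LocalGal ι →* Gal(AlgebraicClosure F/F) where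
  toFun := glob
  map_one' := rfl
  map_mul' := fun _ _ => rfl

end LocalGal

/-- `g` is in the inertia group `I_v`: it acts trivially on the residue field of `ℚ̄_p`. -/
def IsInertial (ι : AlgebraicClosure F →+* PadicAlgCl p) (g : LocalGal ι) : Prop :=
  ∀ x : PadicAlgCl p, ‖x‖ ≤ 1 → ‖g.loc x - x‖ < 1

theorem norm_le_one_of_isIntegral {x : PadicAlgCl p} (hx : IsIntegral ℤ x) : ‖x‖ ≤ 1 := by
  obtain ⟨P, hP, h0⟩ := hx
  by_contra hcon
  push Not at hcon
  have h1 : x ^ P.natDegree = -∑ i ∈ Finset.range P.natDegree, ((P.coeff i : ℤ) : PadicAlgCl p) * x ^ i := by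
    rw [Polynomial.eval₂_eq_sum_range, Finset.sum_range_succ, hP.coeff_natDegree] at h0
    simp only [eq_intCast, Int.cast_one, one_mul] at h0
    rw [eq_neg_iff_add_eq_zero, add_comm]
    exact h0
  have hd : P.natDegree ≠ 0 := by
    intro hd
    rw [hd] at h1
    simp at h1
  obtain ⟨d, hd'⟩ := Nat.exists_eq_succ_of_ne_zero hd
  have h2 : ‖x ^ P.natDegree‖ ≤ ‖x‖ ^ d := by
    rw [h1, norm_neg]
    refine IsUltrametricDist.norm_sum_le_of_forall_le_of_nonneg (by positivity) ?_
    intro i hi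
    rw [Finset.mem_range] at hi
    rw [norm_mul, norm_pow]
    have h3 : ‖((P.coeff i : ℤ) : PadicAlgCl p)‖ ≤ 1 := by
      have h := PadicAlgCl.norm_extends p ((P.coeff i : ℤ) : ℚ_[p])
      rw [map_intCast] at h
      rw [h]
      exact Padic.norm_int_le_one _
    calc ‖((P.coeff i : ℤ) : PadicAlgCl p)‖ * ‖x‖ ^ i ≤ 1 * ‖x‖ ^ d :=
          mul_le_mul h3 (pow_le_pow_right₀ hcon.le (by omega)) (by positivity) zero_le_one
      _ = ‖x‖ ^ d := one_mul _
  rw [norm_pow, hd', Nat.succ_eq_add_one, pow_succ] at h2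
  have h3 : 0 < ‖x‖ ^ d := by positivity
  nlinarith

/-- The prime ideal of the ring of integers of `F` at the place `v`. -/
noncomputable def placeIdeal (ι : AlgebraicClosure F →+* PadicAlgCl p) : Ideal (𝓞 F) where
  carrier := {x | ‖ι (algebraMap F (AlgebraicClosure F) (x : F))‖ < 1}
  zero_mem' := by simp
  add_mem' := by
    intro a b ha hb
    change ‖ι (algebraMap F (AlgebraicClosure F) ((a + b : 𝓞 F) : F))‖ < 1
    have e : ((a + b : 𝓞 F) : F) = (a : F) + (b : F) := rfl
    rw [e, map_add, map_add]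
    exact lt_of_le_of_lt (IsUltrametricDist.norm_add_le_max _ _) (max_lt ha hb)
  smul_mem' := by
    intro c a ha
    change ‖ι (algebraMap F (AlgebraicClosure F) ((c * a : 𝓞 F) : F))‖ < 1
    have e : ((c * a : 𝓞 F) : F) = (c : F) * (a : F) := rfl
    rw [e, map_mul, map_mul, norm_mul]
    have h1 : ‖ι (algebraMap F (AlgebraicClosure F) (c : F))‖ ≤ 1 := by
      apply norm_le_one_of_isIntegral
      exact (c.2.map (ι.comp (algebraMap F (AlgebraicClosure F))).toIntAlgHom)
    have h2 : ‖ι (algebraMap F (AlgebraicClosure F) (a : F))‖ < 1 := ha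
    exact lt_of_le_of_lt (mul_le_of_le_one_left (norm_nonneg _) h1) h2

/-- The number `q_v` of elements of the residue field of `v`. -/
noncomputable def residueCard (ι : AlgebraicClosure F →+* PadicAlgCl p) : ℕ :=
  Nat.card (𝓞 F ⧸ placeIdeal ι)

/-- `g` is a geometric Frobenius element: the inverse of `x ↦ x ^ q_v` on the residue field. -/
def IsGeomFrob (ι : AlgebraicClosure F →+* PadicAlgCl p) (g : LocalGal ι) : Prop :=
  ∀ x : PadicAlgCl p, ‖x‖ ≤ 1 → ‖(g.loc x) ^ residueCard ι - x‖ < 1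

/-- The Weil group of `F_v`, generated by the inertia group and the Frobenius elements. -/
noncomputable def WeilGroup (ι : AlgebraicClosure F →+* PadicAlgCl p) : Subgroup (LocalGal ι) :=
  Subgroup.closure {g | IsInertial ι g ∨ IsGeomFrob ι g}

end Places

section WD

variable {F : Type} [Field F] {p : ℕ} [hp : Fact p.Prime]

/-- The matrix of an element of `GL_n`. -/
def mat {n : ℕ} {E : Type} [Field E] (g : GL (Fin n) E) : Matrix (Fin n) (Fin n) E := g.1

/-- A Weil-Deligne representation `(r, N)` of dimension `n` over `ℚ̄_l` of the Weil group of `F_v`: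
`r` is a homomorphism on the Weil group (its values at other elements of `G_{F_v}` are irrelevant)
which is trivial on an open subgroup of inertia, `N` is nilpotent, and `r(g) N r(g)⁻¹ = |g| N`, where
`|g| = 1` for `g` in the inertia group and `|g| = 1 / q_v` for a geometric Frobenius element. -/
structure WeilDeligne (ι : AlgebraicClosure F →+* PadicAlgCl p) (l n : ℕ) [Fact l.Prime] where
  r : LocalGal ι → GL (Fin n) (PadicAlgCl l)
  N : Matrix (Fin n) (Fin n) (PadicAlgCl l)
  hom : ∀ g ∈ WeilGroup ι, ∀ h ∈ WeilGroup ι, r (g * h) = r g * r h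
  smooth : ∃ U : Subgroup Gal(PadicAlgCl p/ℚ_[p]), IsOpen (U : Set Gal(PadicAlgCl p/ℚ_[p])) ∧
    ∀ g, IsInertial ι g → g.loc ∈ U → r g = 1
  nilpotent : IsNilpotent N
  inertia : ∀ g, IsInertial ι g → mat (r g) * N = N * mat (r g)
  frobenius : ∀ g, IsGeomFrob ι g →
    (residueCard ι : PadicAlgCl l) • (mat (r g) * N) = N * mat (r g)

/-- `t` is an `l`-adic tame character of the inertia group `I_v`: for some compatible systems of
`l`-power roots `π_n` of `p` and of primitive `l ^ n`-th roots of unity `ζ_n` one has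
`g(π_n) = ζ_n ^ t(g) π_n` for all `g` in `I_v` and all `n`. -/
def IsTame (ι : AlgebraicClosure F →+* PadicAlgCl p) {l : ℕ} [Fact l.Prime]
    (t : LocalGal ι → ℤ_[l]) : Prop :=
  ∃ π ζ : ℕ → PadicAlgCl p, π 0 = (p : PadicAlgCl p) ∧ (∀ n, π (n + 1) ^ l = π n) ∧
    (∀ n, IsPrimitiveRoot (ζ n) (l ^ n)) ∧ (∀ n, ζ (n + 1) ^ l = ζ n) ∧
    ∀ g, IsInertial ι g → ∀ n, g.loc (π n) = ζ n ^ ((t g).toZModPow n).val * π n

/-- The multiple `x N` of a matrix by an element `x` of `ℤ_l`. -/
noncomputable def scale {l n : ℕ} [Fact l.Prime] (x : ℤ_[l])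
    (N : Matrix (Fin n) (Fin n) (PadicAlgCl l)) : Matrix (Fin n) (Fin n) (PadicAlgCl l) :=
  (algebraMap ℚ_[l] (PadicAlgCl l) (x : ℚ_[l])) • N

/-- `W = (r, N)` is the Weil-Deligne representation attached by Grothendieck's monodromy theorem to
the restriction of `ρ` to `G_{F_v}`, by means of the geometric Frobenius element `Φ` and an `l`-adic
tame character `t`: `ρ(g) = exp(t(g) N)` for `g` in an open subgroup of inertia, and
`r(Φ ^ m g) = ρ(Φ ^ m g) exp(-t(g) N)` for all integers `m` and all `g` in the inertia group. -/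
def IsAttached {l n : ℕ} [Fact l.Prime]
    (ρ : Gal(AlgebraicClosure F/F) →* GL (Fin n) (PadicAlgCl l))
    (ι : AlgebraicClosure F →+* PadicAlgCl p) (Φ : LocalGal ι) (W : WeilDeligne ι l n) : Prop :=
  ∃ t : LocalGal ι → ℤ_[l], IsTame ι t ∧
    (∃ U : Subgroup Gal(PadicAlgCl p/ℚ_[p]), IsOpen (U : Set Gal(PadicAlgCl p/ℚ_[p])) ∧
      ∀ g, IsInertial ι g → g.loc ∈ U → mat (ρ g.glob) = IsNilpotent.exp (scale (t g) W.N)) ∧
    ∀ (m : ℤ) (g : LocalGal ι), IsInertial ι g →
      mat (W.r (Φ ^ m * g)) = mat (ρ (Φ ^ m * g).glob) * IsNilpotent.exp (-scale (t g) W.N)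

/-- `M` is the monodromy filtration of the nilpotent matrix `N`: an increasing, exhaustive and
separated filtration with `N M_i ⊆ M_(i-2)` for which `N ^ j` induces an isomorphism from
`M_j / M_(j-1)` onto `M_(-j) / M_(-j-1)` for all `j ≥ 0`. -/
structure IsMonodromyFiltration {E : Type} [Field E] {n : ℕ} (N : Matrix (Fin n) (Fin n) E)
    (M : ℤ → Submodule E (Fin n → E)) : Prop where
  mono : Monotone M
  bot : ∃ i, M i = ⊥
  top : ∃ i, M i = ⊤
  map : ∀ i, ∀ x ∈ M i, N.mulVec x ∈ M (i - 2)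
  inj : ∀ j : ℕ, ∀ x ∈ M j, (N ^ j).mulVec x ∈ M (-j - 1) → x ∈ M (j - 1)
  surj : ∀ j : ℕ, ∀ y ∈ M (-j), ∃ x ∈ M j, y - (N ^ j).mulVec x ∈ M (-j - 1)

/-- `α` is an algebraic number all of whose complex conjugates have absolute value `q ^ (k / 2)`. -/
def IsWeilNumber {E : Type} [Field E] [CharZero E] (q : ℕ) (k : ℤ) (α : E) : Prop :=
  IsAlgebraic ℚ α ∧ ∀ z : ℂ, Polynomial.aeval z (minpoly ℚ α) = 0 → ‖z‖ = (q : ℝ) ^ ((k : ℝ) / 2)

/-- The Weil-Deligne representation is integral: all eigenvalues of the geometric Frobenius elements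
are algebraic integers. -/
def IsIntegralWD {ι : AlgebraicClosure F →+* PadicAlgCl p} {l n : ℕ} [Fact l.Prime]
    (W : WeilDeligne ι l n) : Prop :=
  ∀ g, IsGeomFrob ι g → ∀ α : PadicAlgCl l, (mat (W.r g)).charpoly.IsRoot α → IsIntegral ℤ α

/-- The Weil-Deligne representation is pure of weight `w`: the eigenvalues `α` of the geometric
Frobenius elements on the `j`-th graded piece of the monodromy filtration (there is `x` in `M_j`, not
in `M_(j-1)`, with `r(g) x - α x` in `M_(j-1)`) are algebraic numbers all of whose complex conjugates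
have absolute value `q_v ^ ((w + j) / 2)`. -/
def IsPureWD {ι : AlgebraicClosure F →+* PadicAlgCl p} {l n : ℕ} [Fact l.Prime]
    (W : WeilDeligne ι l n) (w : ℤ) : Prop :=
  ∃ M : ℤ → Submodule (PadicAlgCl l) (Fin n → PadicAlgCl l), IsMonodromyFiltration W.N M ∧
    ∀ g, IsGeomFrob ι g → ∀ (j : ℤ) (α : PadicAlgCl l), ∀ x ∈ M j, x ∉ M (j - 1) →
      (mat (W.r g)).mulVec x - α • x ∈ M (j - 1) → IsWeilNumber (residueCard ι) (w + j) α

end WD

section DeRham

variable (l : ℕ) [hl : Fact l.Prime]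

/-- The ring of integers of `ℂ_l`. -/
def OC : Type := 𝓞_ℂ_[l]

noncomputable instance instCommRingOC : CommRing (OC l) := inferInstanceAs (CommRing 𝓞_ℂ_[l])

instance factOC : Fact (¬ IsUnit (l : OC l)) := fact_not_isUnit l

instance completeOC : IsAdicComplete (Ideal.span {(l : OC l)}) (OC l) := isAdicComplete_int l

/-- The action of `σ` in `Gal(ℚ̄_l / ℚ_l)` on the ring of integers of `ℂ_l`, by continuity. -/
noncomputable def actOC (σ : Gal(PadicAlgCl l/ℚ_[l])) : OC l ≃+* OC l := intMap l σ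

/-- Fontaine's ring `B_dR^+` (Mathlib's `BDeRhamPlus` for the ring of integers of `ℂ_l`). -/
def BPlus : Type := BDeRhamPlus (OC l) l

noncomputable instance instCommRingBPlus : CommRing (BPlus l) :=
  (inferInstance : CommRing (BDeRhamPlus (OC l) l))

/-- Fontaine's field `B_dR` (by definition Mathlib's `BDeRham` for the ring of integers of `ℂ_l`). -/
def Bdr : Type := Localization (genSub (OC l) l)

noncomputable instance instCommRingBdr : CommRing (Bdr l) :=
  (inferInstance : CommRing (Localization (genSub (OC l) l)))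

noncomputable instance instAlgebraBdr : Algebra ℚ_[l] (Bdr l) :=
  (inferInstance : Algebra ℚ_[l] (Localization (genSub (OC l) l)))

/-- The map from `B_dR^+` to `B_dR`. -/
noncomputable def plusToBdr : BPlus l →+* Bdr l :=
  algebraMap (BDeRhamPlus (OC l) l) (Localization (genSub (OC l) l))

/-- The action of `σ` in `Gal(ℚ̄_l / ℚ_l)` on `B_dR`. -/
noncomputable def actBdr (σ : Gal(PadicAlgCl l/ℚ_[l])) : Bdr l →ₐ[ℚ_[l]] Bdr l :=
  bdrAlg l (actOC l σ)

/-- `B_dR ⊗ ℚ̄_l` over `ℚ_l`. -/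
def BE : Type := Bdr l ⊗[ℚ_[l]] PadicAlgCl l

noncomputable instance instCommRingBE : CommRing (BE l) :=
  (inferInstance : CommRing (Bdr l ⊗[ℚ_[l]] PadicAlgCl l))

/-- The element `b ⊗ c` of `B_dR ⊗ ℚ̄_l`. -/
noncomputable def tens (b : Bdr l) (c : PadicAlgCl l) : BE l := b ⊗ₜ[ℚ_[l]] c

/-- The map from `ℚ̄_l` to `B_dR ⊗ ℚ̄_l`. -/
noncomputable def coefE : PadicAlgCl l →+* BE l :=
  (Algebra.TensorProduct.includeRight : PadicAlgCl l →ₐ[ℚ_[l]] Bdr l ⊗[ℚ_[l]] PadicAlgCl l).toRingHom

/-- The action of `σ` in `Gal(ℚ̄_l / ℚ_l)` on `B_dR ⊗ ℚ̄_l` through the first factor. -/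
noncomputable def actE (σ : Gal(PadicAlgCl l/ℚ_[l])) : BE l →+* BE l :=
  (Algebra.TensorProduct.map (actBdr l σ) (AlgHom.id ℚ_[l] (PadicAlgCl l))).toRingHom

variable {l} {F : Type} [Field F]

/-- `D_dR(V) = (B_dR ⊗ V)^(G_{F_v})` for the restriction `V = ℚ̄_l ^ n` of `ρ` to `G_{F_v}`: the vectors
`x` in `(B_dR ⊗ ℚ̄_l) ^ n` with `ρ(g) g(x) = x` for all `g` in `G_{F_v}`. -/
def DdR {n : ℕ} (ρ : Gal(AlgebraicClosure F/F) →* GL (Fin n) (PadicAlgCl l))
    (ι : AlgebraicClosure F →+* PadicAlgCl l) : Set (Fin n → BE l) :=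
  {x | ∀ g : LocalGal ι, ((mat (ρ g.glob)).map (coefE l)).mulVec (fun i => actE l g.loc (x i)) = x}

/-- The restriction `V` of `ρ` to `G_{F_v}`, `v ∣ l`, is de Rham in the sense of Fontaine: `B_dR ⊗ V` is
generated by its invariants (so that the natural map from `B_dR ⊗ D_dR(V)` to `B_dR ⊗ V`, which is
always injective, is bijective). -/
def IsDeRham {n : ℕ} (ρ : Gal(AlgebraicClosure F/F) →* GL (Fin n) (PadicAlgCl l))
    (ι : AlgebraicClosure F →+* PadicAlgCl l) : Prop :=
  Submodule.span (BE l) (DdR ρ ι) = ⊤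

/-- The Hodge-Tate weights of the de Rham representation `V` (the jumps of the filtration of
`D_dR(V)` given by the filtration `t ^ i B_dR^+` of `B_dR`; the cyclotomic character has weight `-1`)
are all nonnegative: `D_dR(V)` is contained in `B_dR^+ ⊗ V`. -/
def NonnegWeights {n : ℕ} (ρ : Gal(AlgebraicClosure F/F) →* GL (Fin n) (PadicAlgCl l))
    (ι : AlgebraicClosure F →+* PadicAlgCl l) : Prop :=
  ∀ x ∈ DdR ρ ι, ∀ i, x i ∈ AddSubgroup.closure {z | ∃ b c, z = tens l (plusToBdr l b) c}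

/-- Condition 1 of the problem. -/
def Condition1 {n : ℕ} (ρ : Gal(AlgebraicClosure F/F) →* GL (Fin n) (PadicAlgCl l)) : Prop :=
  ∀ ι : AlgebraicClosure F →+* PadicAlgCl l, IsDeRham ρ ι ∧ NonnegWeights ρ ι

/-- Condition 2 of the problem: for some integer `w`, at every finite place `v ∤ l` the
Weil-Deligne representation attached to `ρ` is integral and pure of weight `w`. This is required for
the Weil-Deligne representations attached to `ρ` by means of all geometric Frobenius elements `Φ`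
at `v`, and there is at least one such element. -/
def Condition2 {n : ℕ} (ρ : Gal(AlgebraicClosure F/F) →* GL (Fin n) (PadicAlgCl l)) : Prop :=
  ∃ w : ℤ, ∀ (p : ℕ) [Fact p.Prime], p ≠ l → ∀ ι : AlgebraicClosure F →+* PadicAlgCl p,
    (∃ Φ : LocalGal ι, IsGeomFrob ι Φ) ∧ ∀ Φ : LocalGal ι, IsGeomFrob ι Φ →
      ∃ W : WeilDeligne ι l n, IsAttached ρ ι Φ W ∧ IsIntegralWD W ∧ IsPureWD W w

/-- `ρ` is irreducible. -/
def IsIrred {n : ℕ} (ρ : Gal(AlgebraicClosure F/F) →* GL (Fin n) (PadicAlgCl l)) : Prop :=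
  0 < n ∧ ∀ W : Submodule (PadicAlgCl l) (Fin n → PadicAlgCl l),
    (∀ g, ∀ x ∈ W, (mat (ρ g)).mulVec x ∈ W) → W = ⊥ ∨ W = ⊤

/-- `ρ` is unramified at all but finitely many places. -/
def AlmostUnramified {n : ℕ} (ρ : Gal(AlgebraicClosure F/F) →* GL (Fin n) (PadicAlgCl l)) : Prop :=
  ∃ S : Finset ℕ, ∀ (p : ℕ) [Fact p.Prime], p ∉ S →
    ∀ (ι : AlgebraicClosure F →+* PadicAlgCl p) (g : LocalGal ι), IsInertial ι g → ρ g.glob = 1

end DeRham

end Pool.Agent.K9h38.FM
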