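import Mathlib
import Pool.Agent.K9h38.FM.Bdr

/-!
No nonzero element of `B_dR` is an eigenvector of an open subgroup of `Gal(ℚ_p^alg / ℚ_p)` for a
character whose square is an odd power of the cyclotomic character.
-/

set_option linter.unusedSectionVars false

namespace Pool.Agent.K9h38.FM

open Pool.Agent.W292.FM

variable (p : ℕ) [hp : Fact p.Prime]

theorem cpMap_uC (g : Gal(PadicAlgCl p/ℚ_[p])) (u : ℤ_[p]ˣ) : cpMap p g (uC p u) = uC p u :=
  cpMap_algebraMap p g _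

theorem uC_ne_zero (u : ℤ_[p]ˣ) : uC p u ≠ 0 := by
  rw [← norm_pos_iff, norm_uC]; exact one_pos

theorem cpMap_ne_zero (g : Gal(PadicAlgCl p/ℚ_[p])) {c : ℂ_[p]} (hc : c ≠ 0) : cpMap p g c ≠ 0 := by
  rw [← norm_pos_iff, norm_cpMap, norm_pos_iff]; exact hc

/-- Tate's theorem for open subgroups. -/
theorem tate_open {k : ℤ} (hk : k ≠ 0) (U : Subgroup Gal(PadicAlgCl p/ℚ_[p]))
    (hU : IsOpen (U : Set Gal(PadicAlgCl p/ℚ_[p]))) (c : ℂ_[p])
    (hc : ∀ g ∈ U, cpMap p g c = uC p (kap p g ^ k) * c) : c = 0 := by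
  classical
  by_contra hc0
  have hfin : Finite (Gal(PadicAlgCl p/ℚ_[p]) ⧸ U) := U.quotient_finite_of_isOpen hU
  have : Fintype (Gal(PadicAlgCl p/ℚ_[p]) ⧸ U) := Fintype.ofFinite _
  let f : Gal(PadicAlgCl p/ℚ_[p]) → ℂ_[p] := fun g => cpMap p g c * uC p (kap p g ^ (-k))
  have hf0 : ∀ g, f g ≠ 0 := fun g => mul_ne_zero (cpMap_ne_zero p g hc0) (uC_ne_zero p _)
  have hfU : ∀ g, ∀ u ∈ U, f (g * u) = f g := by
    intro g u hu
    simp only [f]
    rw [cpMap_mul, hc u hu, map_mul, cpMap_uC, map_mul (kap p), mul_zpow, map_mul (uC p)]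
    have h1 : uC p (kap p u ^ k) * uC p (kap p u ^ (-k)) = 1 := by
      rw [← map_mul, ← zpow_add, add_neg_cancel, zpow_zero, map_one]
    calc uC p (kap p u ^ k) * cpMap p g c * (uC p (kap p g ^ (-k)) * uC p (kap p u ^ (-k)))
        = (uC p (kap p u ^ k) * uC p (kap p u ^ (-k))) * (cpMap p g c * uC p (kap p g ^ (-k))) := by
          ring
      _ = _ := by rw [h1, one_mul]
  have hfq : ∀ g g' : Gal(PadicAlgCl p/ℚ_[p]),
      (QuotientGroup.mk g : Gal(PadicAlgCl p/ℚ_[p]) ⧸ U) = QuotientGroup.mk g' → f g = f g' := by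
    intro g g' h
    rw [QuotientGroup.eq] at h
    have := hfU g _ h
    rw [mul_inv_cancel_left] at this
    exact this.symm
  let D : ℂ_[p] := ∏ q : Gal(PadicAlgCl p/ℚ_[p]) ⧸ U, f q.out
  have hD0 : D ≠ 0 := Finset.prod_ne_zero_iff.2 fun q _ => hf0 _
  have hn : (Fintype.card (Gal(PadicAlgCl p/ℚ_[p]) ⧸ U) : ℤ) ≠ 0 := by
    exact_mod_cast Fintype.card_ne_zero
  apply hD0
  refine tate p (k := k * Fintype.card (Gal(PadicAlgCl p/ℚ_[p]) ⧸ U)) (mul_ne_zero hk hn) D ?_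
  intro h
  have h1 : ∀ g, cpMap p h (f g) = f (h * g) * uC p (kap p h ^ k) := by
    intro g
    simp only [f]
    rw [map_mul, cpMap_uC, cpMap_mul, map_mul (kap p), mul_zpow, map_mul (uC p)]
    have h2 : uC p (kap p h ^ (-k)) * uC p (kap p h ^ k) = 1 := by
      rw [← map_mul, ← zpow_add, neg_add_cancel, zpow_zero, map_one]
    calc cpMap p h (cpMap p g c) * uC p (kap p g ^ (-k))
        = (uC p (kap p h ^ (-k)) * uC p (kap p h ^ k)) *
          (cpMap p h (cpMap p g c) * uC p (kap p g ^ (-k))) := by rw [h2, one_mul]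
      _ = _ := by ring
  have h2 : ∀ q : Gal(PadicAlgCl p/ℚ_[p]) ⧸ U, f (h * q.out) = f (h • q).out := by
    intro q
    apply hfq
    rw [QuotientGroup.out_eq']
    conv_rhs => rw [← QuotientGroup.out_eq' q]
    rfl
  have h3 : ∏ q : Gal(PadicAlgCl p/ℚ_[p]) ⧸ U, f (h • q).out = D :=
    Fintype.prod_equiv (MulAction.toPerm h) _ _ (fun q => rfl)
  simp only [D]
  rw [map_prod, Finset.prod_congr rfl (fun q _ => h1 q.out), Finset.prod_mul_distrib,
    Finset.prod_congr rfl (fun q _ => h2 q), h3, Finset.prod_const, Finset.card_univ, ← map_pow,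
    zpow_mul, zpow_natCast, mul_comm]

/-- There is no nonzero element of `B_dR` on which an open subgroup acts through a character whose
square is an odd power of the cyclotomic character. -/
theorem no_eigen (U : Subgroup Gal(PadicAlgCl p/ℚ_[p]))
    (hU : IsOpen (U : Set Gal(PadicAlgCl p/ℚ_[p]))) (lam : Gal(PadicAlgCl p/ℚ_[p]) → ℤ_[p]ˣ)
    {m : ℤ} (hm : Odd m) (hlam : ∀ g ∈ U, lam g ^ 2 = kap p g ^ m) (b : BdR p)
    (h : ∀ g ∈ U, bdrMap p (intMap p g) b =
      algebraMap ℚ_[p] (BdR p) ((lam g : ℤ_[p]) : ℚ_[p]) * b) : b = 0 := by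
  by_contra hb
  obtain ⟨c, i, hc0, hc⟩ := exists_eigen p (U : Set Gal(PadicAlgCl p/ℚ_[p])) lam b hb h
  have h1 : c ^ 2 = 0 := by
    refine tate_open p (k := 2 * i + m) ?_ U hU _ ?_
    · obtain ⟨r, hr⟩ := hm
      omega
    · intro g hg
      rw [map_pow, hc g hg, mul_pow, ← map_pow, mul_pow, hlam g hg, ← zpow_natCast, ← zpow_mul,
        ← zpow_add]
      congr 3
      push_cast
      ring
  exact hc0 (pow_eq_zero_iff two_ne_zero |>.1 h1)

instance nontrivial_plus : Nontrivial (BDeRhamPlus 𝓞_ℂ_[p] p) := (thP p).domain_nontrivial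

instance nontrivial_BdR : Nontrivial (BdR p) := (algebraMap_bdr_injective p).nontrivial

end Pool.Agent.K9h38.FM
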