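import Mathlib
import Pool.Agent.K9h38.FM.NoEigen
import Pool.Agent.K9h38.FM.Chr

/-!
Restriction of Galois elements to the algebraic closure of a number field, and the values of the
cyclotomic character.
-/

set_option linter.unusedSectionVars false

namespace Pool.Agent.K9h38.FM

open Pool.Agent.W292.FM

section Restrict

variable {F : Type} [Field F] {p : ℕ} [hp : Fact p.Prime]

theorem exists_restrict (ι : AlgebraicClosure F →+* PadicAlgCl p) (σ : Gal(PadicAlgCl p/ℚ_[p]))
    (hσ : ∀ x : F, σ (ι (algebraMap F (AlgebraicClosure F) x)) =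
      ι (algebraMap F (AlgebraicClosure F) x)) :
    ∃ τ : Gal(AlgebraicClosure F/F), ∀ x, ι (τ x) = σ (ι x) := by
  let inst : Algebra F (PadicAlgCl p) := (ι.comp (algebraMap F (AlgebraicClosure F))).toAlgebra
  let ι' : AlgebraicClosure F →ₐ[F] PadicAlgCl p := { ι with commutes' := fun _ => rfl }
  let σ' : PadicAlgCl p ≃ₐ[F] PadicAlgCl p :=
    AlgEquiv.ofRingEquiv (f := (σ : PadicAlgCl p ≃+* PadicAlgCl p)) (fun x => hσ x)
  let e : AlgebraicClosure F ≃ₐ[F] ι'.fieldRange := AlgEquiv.ofInjectiveField ι'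
  have hn : Normal F ι'.fieldRange := Normal.of_algEquiv e
  refine ⟨(e.trans (σ'.restrictNormal ι'.fieldRange)).trans e.symm, fun x => ?_⟩
  have h1 : ∀ y, ι y = ((e y : ι'.fieldRange) : PadicAlgCl p) := fun y => rfl
  rw [h1]
  simp only [AlgEquiv.trans_apply, AlgEquiv.apply_symm_apply]
  have h2 := AlgEquiv.restrictNormal_commutes σ' ι'.fieldRange (e x)
  exact h2

end Restrict

section Cyc

theorem modEq_of_pow_eq {K : Type} [Field K] {t : K} {N : ℕ} (hN : N ≠ 0) (ht : IsPrimitiveRoot t N)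
    {a b : ℕ} (h : t ^ a = t ^ b) : a ≡ b [MOD N] := by
  have ht0 : t ≠ 0 := ht.ne_zero hN
  rw [Nat.modEq_iff_dvd, ← ht.zpow_eq_one_iff_dvd, zpow_sub₀ ht0, zpow_natCast, zpow_natCast, h,
    div_self (pow_ne_zero _ ht0)]

variable (F : Type) [Field F] [CharZero F] (l : ℕ) [hl : Fact l.Prime]

/-- The `l`-adic cyclotomic character of the absolute Galois group of `F`. -/
noncomputable def epsF : Gal(AlgebraicClosure F/F) →* ℤ_[l]ˣ :=
  (cyclotomicCharacter (AlgebraicClosure F) l).comp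
    (MulSemiringAction.toRingAut Gal(AlgebraicClosure F/F) (AlgebraicClosure F))

theorem continuous_epsF : Continuous (epsF F l) :=
  cyclotomicCharacter.continuous l F (AlgebraicClosure F)

variable {F}

theorem epsF_spec (g : Gal(AlgebraicClosure F/F)) {n : ℕ} {t : AlgebraicClosure F}
    (ht : t ^ l ^ n = 1) : g t = t ^ (((epsF F l g : ℤ_[l])).toZModPow n).val :=
  cyclotomicCharacter.spec (L := AlgebraicClosure F) l
    (MulSemiringAction.toRingAut Gal(AlgebraicClosure F/F) (AlgebraicClosure F) g) t ht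

theorem epsF_mul_eq_one (g : Gal(AlgebraicClosure F/F)) (q : ℕ)
    (h : ∀ (n : ℕ) (t : AlgebraicClosure F), t ^ l ^ n = 1 → (g t) ^ q = t) :
    ((epsF F l g : ℤ_[l])) * (q : ℤ_[l]) = 1 := by
  rw [← PadicInt.ext_of_toZModPow]
  intro n
  obtain ⟨t, ht⟩ := HasEnoughRootsOfUnity.exists_primitiveRoot (AlgebraicClosure F) (l ^ n)
  have h1 := h n t ht.pow_eq_one
  rw [epsF_spec l g ht.pow_eq_one, ← pow_mul] at h1
  nth_rw 2 [← pow_one t] at h1
  rw [map_mul, map_natCast, map_one]
  have h2 := (ZMod.natCast_eq_natCast_iff _ _ _).2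
    (modEq_of_pow_eq (pow_ne_zero _ hl.out.ne_zero) ht h1)
  push_cast at h2
  rw [ZMod.natCast_zmod_val] at h2
  exact h2

theorem epsF_eq_kap (ι : AlgebraicClosure F →+* PadicAlgCl l) (g : Gal(AlgebraicClosure F/F))
    (σ : Gal(PadicAlgCl l/ℚ_[l])) (h : ∀ x, ι (g x) = σ (ι x)) : epsF F l g = kap l σ := by
  apply Units.ext
  rw [← PadicInt.ext_of_toZModPow]
  intro n
  obtain ⟨t, ht⟩ := HasEnoughRootsOfUnity.exists_primitiveRoot (AlgebraicClosure F) (l ^ n)
  have hιt : IsPrimitiveRoot (ι t) (l ^ n) := ht.map_of_injective ι.injective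
  have h1 := h t
  rw [epsF_spec l g ht.pow_eq_one, map_pow, kap_spec l σ hιt.pow_eq_one] at h1
  have h2 := (ZMod.natCast_eq_natCast_iff _ _ _).2
    (modEq_of_pow_eq (pow_ne_zero _ hl.out.ne_zero) hιt h1)
  rw [ZMod.natCast_zmod_val, ZMod.natCast_zmod_val] at h2
  exact h2

end Cyc

section Close

variable {p : ℕ} [hp : Fact p.Prime] {l : ℕ} [hl : Fact l.Prime]

/-- An `l`-power root of unity of `ℚ_p^alg`, `l ≠ p`, which is congruent to `1` is `1`. -/
theorem eq_one_of_close (hpl : p ≠ l) (n : ℕ) : ∀ (z : PadicAlgCl p), z ^ l ^ n = 1 → ‖z - 1‖ < 1 →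
    z = 1 := by
  induction n with
  | zero => intro z hz _; simpa using hz
  | succ n ih =>
    intro z hz hz1
    have hzn : ‖z‖ = 1 := norm_rootOfUnity (pow_ne_zero _ hl.out.ne_zero) hz
    have h1 : z ^ l = 1 := by
      apply ih
      · rw [← pow_mul, ← pow_succ']; exact hz
      · exact lt_of_le_of_lt (norm_pow_sub_one_le hzn l) hz1
    by_contra hne
    have hprim : IsPrimitiveRoot z l := IsPrimitiveRoot.iff_orderOf.2 (orderOf_eq_prime h1 hne)
    have h2 := hprim.geom_sum_eq_zero hl.out.one_lt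
    have h3 : ((l : ℕ) : PadicAlgCl p) = ∑ i ∈ Finset.range l, (1 - z ^ i) := by
      rw [Finset.sum_sub_distrib, h2, sub_zero, Finset.sum_const, Finset.card_range, nsmul_eq_mul,
        mul_one]
    have h4 : ‖((l : ℕ) : PadicAlgCl p)‖ < 1 := by
      rw [h3]
      obtain ⟨i, _, hi⟩ := IsUltrametricDist.exists_norm_finsetSum_le_of_nonempty
        (Finset.nonempty_range_iff.2 hl.out.ne_zero) (fun i => 1 - z ^ i)
      refine lt_of_le_of_lt hi ?_
      rw [norm_sub_rev]
      exact lt_of_le_of_lt (norm_pow_sub_one_le hzn i) hz1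
    have h5 : ‖((l : ℕ) : PadicAlgCl p)‖ = 1 := by
      apply norm_natCast_of_not_dvd
      intro h
      exact hpl ((Nat.prime_dvd_prime_iff_eq hp.out hl.out).1 h)
    exact absurd h5 h4.ne

theorem eq_of_close (hpl : p ≠ l) {n : ℕ} {z w : PadicAlgCl p} (hz : z ^ l ^ n = 1)
    (hw : w ^ l ^ n = 1) (h : ‖z - w‖ < 1) : z = w := by
  have hwn : ‖w‖ = 1 := norm_rootOfUnity (pow_ne_zero _ hl.out.ne_zero) hw
  have hw0 : w ≠ 0 := by rintro rfl; rw [norm_zero] at hwn; exact zero_ne_one hwn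
  have h1 : z / w = 1 := by
    apply eq_one_of_close hpl n
    · rw [div_pow, hz, hw, div_one]
    · have e : z / w - 1 = (z - w) / w := by field_simp
      rw [e, norm_div, hwn, div_one]
      exact h
  rwa [div_eq_one_iff_eq hw0] at h1

end Close

end Pool.Agent.K9h38.FM
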