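import Mathlib
import Pool.Agent.W292.FM.Galois
import Pool.Agent.K9h38.FM.Glob
import Pool.Agent.K9h38.FM.Defs

/-!
Existence of geometric Frobenius elements at the finite places of a number field.
-/

set_option autoImplicit false
set_option linter.unusedSectionVars false

namespace Pool.Agent.K9h38.FM

open NumberField Pool.Agent.W292.FM

section Local

variable (p : ℕ) [hp : Fact p.Prime]

/-- the integers of `ℚ̄_p` -/
def OB : Subring (PadicAlgCl p) where
  carrier := {x | ‖x‖ ≤ 1}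
  mul_mem' := by
    intro a b ha hb
    change ‖a * b‖ ≤ 1
    rw [norm_mul]
    exact mul_le_one₀ ha (norm_nonneg _) hb
  one_mem' := by simp
  add_mem' := by
    intro a b ha hb
    exact le_trans (IsUltrametricDist.norm_add_le_max _ _) (max_le ha hb)
  zero_mem' := by simp
  neg_mem' := by
    intro a ha
    change ‖-a‖ ≤ 1
    rw [norm_neg]; exact ha

/-- the integers of `ℚ̄_p` with the discrete topology -/
def IntB : Type := OB p

noncomputable instance : CommRing (IntB p) := inferInstanceAs (CommRing (OB p))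
instance : IsDomain (IntB p) := inferInstanceAs (IsDomain (OB p))
instance : TopologicalSpace (IntB p) := ⊥
instance : DiscreteTopology (IntB p) := ⟨rfl⟩

variable {p}

/-- the underlying element -/
def IntB.val (x : IntB p) : PadicAlgCl p := x.1

theorem IntB.ext {x y : IntB p} (h : x.val = y.val) : x = y := Subtype.ext h

/-- constructor -/
def IntB.mk (x : PadicAlgCl p) (h : ‖x‖ ≤ 1) : IntB p := ⟨x, h⟩

theorem IntB.val_mk (x : PadicAlgCl p) (h : ‖x‖ ≤ 1) : (IntB.mk x h).val = x := rfl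
theorem IntB.norm_val (x : IntB p) : ‖x.val‖ ≤ 1 := x.2
theorem IntB.val_add (x y : IntB p) : (x + y).val = x.val + y.val := rfl
theorem IntB.val_mul (x y : IntB p) : (x * y).val = x.val * y.val := rfl
theorem IntB.val_sub (x y : IntB p) : (x - y).val = x.val - y.val := rfl
theorem IntB.val_zero : (0 : IntB p).val = 0 := rfl
theorem IntB.val_one : (1 : IntB p).val = 1 := rfl
theorem IntB.val_pow (x : IntB p) (n : ℕ) : (x ^ n).val = x.val ^ n := by
  induction n with
  | zero => rw [pow_zero, pow_zero, IntB.val_one]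
  | succ n ih => rw [pow_succ, pow_succ, IntB.val_mul, ih]
theorem IntB.val_natCast (n : ℕ) : ((n : ℕ) : IntB p).val = n := by
  induction n with
  | zero => rw [Nat.cast_zero, Nat.cast_zero, IntB.val_zero]
  | succ n ih => rw [Nat.cast_succ, Nat.cast_succ, IntB.val_add, ih, IntB.val_one]

/-- the maximal ideal -/
def mB (p : ℕ) [hp : Fact p.Prime] : Ideal (IntB p) where
  carrier := {x | ‖x.val‖ < 1}
  zero_mem' := by
    change ‖(0 : IntB p).val‖ < 1
    rw [IntB.val_zero, norm_zero]; norm_num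
  add_mem' := by
    intro a b ha hb
    change ‖(a + b).val‖ < 1
    rw [IntB.val_add]
    exact lt_of_le_of_lt (IsUltrametricDist.norm_add_le_max _ _) (max_lt ha hb)
  smul_mem' := by
    intro c a ha
    change ‖(c * a).val‖ < 1
    rw [IntB.val_mul, norm_mul]
    exact lt_of_le_of_lt (mul_le_of_le_one_left (norm_nonneg _) c.norm_val) ha

theorem mem_mB {x : IntB p} : x ∈ mB p ↔ ‖x.val‖ < 1 := Iff.rfl

instance prime_mB : (mB p).IsPrime := by
  refine ⟨?_, ?_⟩
  · intro h
    have : (1 : IntB p) ∈ mB p := by rw [h]; trivial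
    rw [mem_mB, IntB.val_one, norm_one] at this
    exact lt_irrefl _ this
  · intro x y hxy
    by_contra hcon
    push Not at hcon
    rw [mem_mB, IntB.val_mul, norm_mul] at hxy
    have h1 : 1 ≤ ‖x.val‖ := not_lt.1 hcon.1
    have h2 : 1 ≤ ‖y.val‖ := not_lt.1 hcon.2
    nlinarith

variable (K : IntermediateField ℚ_[p] (PadicAlgCl p))

noncomputable instance actB : MulSemiringAction K.fixingSubgroup (IntB p) where
  smul g x := IntB.mk (g.1 x.val) (by rw [norm_gal]; exact x.norm_val)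
  one_smul x := IntB.ext rfl
  mul_smul g h x := IntB.ext rfl
  smul_zero g := IntB.ext (map_zero g.1)
  smul_add g x y := IntB.ext (map_add g.1 _ _)
  smul_one g := IntB.ext (map_one g.1)
  smul_mul g x y := IntB.ext (map_mul g.1 _ _)

theorem smul_val (g : K.fixingSubgroup) (x : IntB p) : (g • x).val = g.1 x.val := rfl

/-- the invariant subring -/
def fixB : Subring (IntB p) where
  carrier := {x | ∀ g : K.fixingSubgroup, g • x = x}
  mul_mem' := by intro a b ha hb g; rw [smul_mul', ha, hb]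
  one_mem' := by intro g; rw [smul_one]
  add_mem' := by intro a b ha hb g; rw [smul_add, ha, hb]
  zero_mem' := by intro g; rw [smul_zero]
  neg_mem' := by intro a ha g; rw [smul_neg, ha]

instance : SMulCommClass K.fixingSubgroup (fixB K) (IntB p) where
  smul_comm g a x := by
    change g • ((a : IntB p) * x) = (a : IntB p) * (g • x)
    rw [smul_mul', a.2 g]

instance : Algebra.IsInvariant (fixB K) (IntB p) K.fixingSubgroup where
  isInvariant x hx := ⟨⟨x, hx⟩, rfl⟩

instance compact_fix : CompactSpace K.fixingSubgroup := by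
  exact isCompact_iff_compactSpace.1 (InfiniteGalois.fixingSubgroup_isClosed K).isCompact

instance : ContinuousSMul K.fixingSubgroup (IntB p) := by
  rw [continuousSMul_iff_stabilizer_isOpen]
  intro x
  have h := stabilizer_isOpen_of_isIntegral (K := ℚ_[p]) (L := PadicAlgCl p) x.val
  have h2 := h.preimage (continuous_subtype_val : Continuous fun g : K.fixingSubgroup => g.1)
  convert h2 using 1
  ext g
  constructor
  · intro hg
    exact congrArg IntB.val hg
  · intro hg
    exact IntB.ext hg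

theorem mk_eq_mk {x y : IntB p} : Ideal.Quotient.mk (mB p) x = Ideal.Quotient.mk (mB p) y ↔
    ‖x.val - y.val‖ < 1 := by
  rw [Ideal.Quotient.eq, mem_mB, IntB.val_sub]

instance charP_quot : CharP (IntB p ⧸ mB p) p := by
  refine (CharP.charP_iff_prime_eq_zero hp.out).2 ?_
  rw [← map_natCast (Ideal.Quotient.mk (mB p)), ← map_zero (Ideal.Quotient.mk (mB p)), mk_eq_mk,
    IntB.val_natCast, IntB.val_zero, sub_zero]
  have h := PadicAlgCl.norm_extends p (p : ℚ_[p])
  rw [map_natCast] at h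
  rw [h]
  exact Padic.norm_p_lt_one

instance expChar_quot : ExpChar (IntB p ⧸ mB p) p := .prime hp.out

instance perfect_quot : PerfectRing (IntB p ⧸ mB p) p := by
  refine PerfectRing.ofSurjective _ p fun x => ?_
  obtain ⟨x, rfl⟩ := Ideal.Quotient.mk_surjective x
  obtain ⟨y, hy⟩ := IsAlgClosed.exists_pow_nat_eq x.val hp.out.pos
  have hy1 : ‖y‖ ≤ 1 := by
    have h1 := x.norm_val
    rw [← hy, norm_pow] at h1
    exact (pow_le_one_iff_of_nonneg (norm_nonneg _) hp.out.ne_zero).1 h1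
  refine ⟨Ideal.Quotient.mk _ (IntB.mk y hy1), ?_⟩
  rw [frobenius_def, ← map_pow]
  congr 1
  apply IntB.ext
  rw [IntB.val_pow, IntB.val_mk, hy]

/-- Existence of a Frobenius element over a field `K` all of whose integers `x` satisfy
`x ^ q ≡ x`, where `q = p ^ f`. -/
theorem exists_frob_local (f : ℕ) (hK : ∀ x ∈ fixB K, ‖x.val ^ p ^ f - x.val‖ < 1) :
    ∃ g ∈ K.fixingSubgroup, ∀ x : PadicAlgCl p, ‖x‖ ≤ 1 → ‖g x - x ^ p ^ f‖ < 1 := by
  let Q := mB p
  let P := Q.under (fixB K)
  let e : (IntB p ⧸ Q) ≃ₐ[fixB K ⧸ P] IntB p ⧸ Q :=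
    { __ := iterateFrobeniusEquiv (IntB p ⧸ Q) p f
      commutes' := by
        intro r
        obtain ⟨r, rfl⟩ := Ideal.Quotient.mk_surjective r
        change iterateFrobenius (IntB p ⧸ Q) p f (Ideal.Quotient.mk Q r.1) = Ideal.Quotient.mk Q r.1
        rw [iterateFrobenius_def, ← map_pow, mk_eq_mk, IntB.val_pow]
        exact hK r.1 r.2 }
  obtain ⟨σ, hσ⟩ := Ideal.Quotient.stabilizerHom_surjective_of_profinite (G := K.fixingSubgroup) P Q e
  refine ⟨σ.1.1, σ.1.2, fun x hx => ?_⟩
  have h := DFunLike.congr_fun hσ (Ideal.Quotient.mk Q (IntB.mk x hx))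
  have h2 : Ideal.Quotient.mk Q (σ.1 • IntB.mk x hx) = Ideal.Quotient.mk Q ((IntB.mk x hx) ^ p ^ f) := by
    rw [map_pow]
    exact h
  rw [mk_eq_mk, IntB.val_pow] at h2
  exact h2

end Local

section Global

variable {F : Type} [Field F] [NumberField F] {p : ℕ} [hp : Fact p.Prime]
  (ι : AlgebraicClosure F →+* PadicAlgCl p)

/-- the embedding of `F` -/
noncomputable def jF : F →+* PadicAlgCl p := ι.comp (algebraMap F (AlgebraicClosure F))

theorem mem_placeIdeal {x : 𝓞 F} : x ∈ placeIdeal ι ↔ ‖jF ι (x : F)‖ < 1 := Iff.rfl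

theorem norm_jF_le (x : 𝓞 F) : ‖jF ι (x : F)‖ ≤ 1 :=
  norm_le_one_of_isIntegral (x.2.map (jF ι).toIntAlgHom)

instance prime_placeIdeal : (placeIdeal ι).IsPrime := by
  refine ⟨?_, ?_⟩
  · intro h
    have h1 : (1 : 𝓞 F) ∈ placeIdeal ι := by rw [h]; trivial
    rw [mem_placeIdeal] at h1
    simp at h1
  · intro x y hxy
    by_contra hcon
    push Not at hcon
    rw [mem_placeIdeal] at hxy
    have h0 : ((x * y : 𝓞 F) : F) = (x : F) * (y : F) := rfl
    rw [h0, map_mul, norm_mul] at hxy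
    have h1 : 1 ≤ ‖jF ι (x : F)‖ := not_lt.1 hcon.1
    have h2 : 1 ≤ ‖jF ι (y : F)‖ := not_lt.1 hcon.2
    nlinarith

theorem norm_p_cl_lt : ‖(p : PadicAlgCl p)‖ < 1 := by
  have h := PadicAlgCl.norm_extends p (p : ℚ_[p])
  rw [map_natCast] at h
  rw [h]
  exact Padic.norm_p_lt_one

theorem p_mem_placeIdeal : ((p : ℕ) : 𝓞 F) ∈ placeIdeal ι := by
  rw [mem_placeIdeal]
  have h : (((p : ℕ) : 𝓞 F) : F) = (p : F) := by simp
  rw [h, map_natCast]
  exact norm_p_cl_lt

theorem placeIdeal_ne_bot : placeIdeal ι ≠ ⊥ := by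
  intro h
  have h1 := p_mem_placeIdeal ι
  rw [h, Ideal.mem_bot] at h1
  exact hp.out.ne_zero (by exact_mod_cast h1)

instance maximal_placeIdeal : (placeIdeal ι).IsMaximal :=
  (prime_placeIdeal ι).isMaximal (placeIdeal_ne_bot ι)

theorem finite_residue : Finite (𝓞 F ⧸ placeIdeal ι) :=
  Ring.HasFiniteQuotients.finiteQuotient (placeIdeal_ne_bot ι)

attribute [local instance] Ideal.Quotient.field in
theorem residueCard_eq : ∃ f : ℕ, residueCard ι = p ^ f := by
  have := finite_residue ι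
  have hc : CharP (𝓞 F ⧸ placeIdeal ι) p := by
    refine (CharP.charP_iff_prime_eq_zero hp.out).2 ?_
    rw [← map_natCast (Ideal.Quotient.mk (placeIdeal ι)), Ideal.Quotient.eq_zero_iff_mem]
    exact p_mem_placeIdeal ι
  cases nonempty_fintype (𝓞 F ⧸ placeIdeal ι)
  obtain ⟨k, hk, hk2⟩ := FiniteField.card (𝓞 F ⧸ placeIdeal ι) p
  refine ⟨k, ?_⟩
  rw [residueCard, Nat.card_eq_fintype_card, hk2]

attribute [local instance] Ideal.Quotient.field in
theorem pow_card_sub_mem (z : 𝓞 F) : z ^ residueCard ι - z ∈ placeIdeal ι := by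
  have := finite_residue ι
  cases nonempty_fintype (𝓞 F ⧸ placeIdeal ι)
  rw [← Ideal.Quotient.eq, map_pow, residueCard, Nat.card_eq_fintype_card, FiniteField.pow_card]

theorem norm_eq_one_of_notMem {s : 𝓞 F} (hs : s ∉ placeIdeal ι) : ‖jF ι (s : F)‖ = 1 :=
  le_antisymm (norm_jF_le ι s) (not_lt.1 hs)

/-- an element of norm at most one is `a / s` with `s` a unit at `v` -/
theorem exists_frac (y : F) (hy : ‖jF ι y‖ ≤ 1) :
    ∃ a s : 𝓞 F, s ∉ placeIdeal ι ∧ y = (a : F) * (s : F)⁻¹ := by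
  have hS : (placeIdeal ι).primeCompl ≤ nonZeroDivisors (𝓞 F) := Ideal.primeCompl_le_nonZeroDivisors _
  let A := Localization.subalgebra.ofField F (placeIdeal ι).primeCompl hS
  have hloc : IsLocalization (placeIdeal ι).primeCompl A :=
    Localization.subalgebra.isLocalization_ofField F _ hS
  have hAt : IsLocalization.AtPrime A (placeIdeal ι) := hloc
  have hfr : IsFractionRing A F := Localization.subalgebra.isFractionRing_ofField F _ hS
  have hdvr : IsDiscreteValuationRing A :=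
    IsLocalization.AtPrime.isDiscreteValuationRing_of_dedekind_domain (𝓞 F) (placeIdeal_ne_bot ι) A
  have hval : ValuationRing A := inferInstance
  rcases eq_or_ne y 0 with hy0 | hy0
  · refine ⟨0, 1, fun h => (prime_placeIdeal ι).ne_top ((Ideal.eq_top_iff_one _).2 h), ?_⟩
    rw [hy0]; simp
  rcases ValuationRing.isInteger_or_isInteger A y with h | h
  · obtain ⟨⟨b, a, s, hs, hb⟩, h⟩ := h
    refine ⟨a, s, hs, ?_⟩
    rw [← h]
    exact hb
  · obtain ⟨⟨b, a, s, hs, hb⟩, h⟩ := h
    have h1 : y⁻¹ = (a : F) * (s : F)⁻¹ := by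
      rw [← h]
      exact hb
    refine ⟨s, a, ?_, ?_⟩
    · intro ha
      have h2 : ‖jF ι (s : F)‖ = 1 := norm_eq_one_of_notMem ι hs
      have h3 : ‖jF ι (a : F)‖ < 1 := ha
      have h4 : ‖jF ι y‖⁻¹ < 1 := by
        rw [← norm_inv, ← map_inv₀, h1, map_mul, map_inv₀, norm_mul, norm_inv, h2, inv_one, mul_one]
        exact h3
      have h5 : 0 < ‖jF ι y‖ := by
        rw [norm_pos_iff]
        exact (map_ne_zero _).2 hy0
      have h6 : 1 < ‖jF ι y‖ := by
        by_contra hcon
        push Not at hcon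
        exact absurd (one_le_inv₀ h5 |>.2 hcon) (not_le.2 h4)
      exact absurd hy (not_le.2 h6)
    · rw [← inv_inv y, h1, mul_inv, inv_inv, mul_comm]

/-- approximation by an element of `𝓞 F` -/
theorem exists_int_close (y : F) (hy : ‖jF ι y‖ ≤ 1) : ∃ z : 𝓞 F, ‖jF ι y - jF ι (z : F)‖ < 1 := by
  obtain ⟨a, s, hs, h⟩ := exists_frac ι y hy
  obtain ⟨t, ht⟩ : ∃ t, 1 - s * t ∈ placeIdeal ι := by
    obtain ⟨t, ht⟩ := (maximal_placeIdeal ι).exists_inv hs
    obtain ⟨i, hi, hti⟩ := ht
    refine ⟨t, ?_⟩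
    have : 1 - s * t = i := by rw [← hti]; ring
    rw [this]; exact hi
  have h1 : ‖jF ι (s : F)‖ = 1 := norm_eq_one_of_notMem ι hs
  have hs0 : (s : F) ≠ 0 := by
    intro h0
    rw [h0, map_zero, norm_zero] at h1
    exact zero_ne_one h1
  refine ⟨a * t, ?_⟩
  have h2 : y - ((a * t : 𝓞 F) : F) = (a : F) * ((1 - s * t : 𝓞 F) : F) * (s : F)⁻¹ := by
    have e1 : ((a * t : 𝓞 F) : F) = (a : F) * (t : F) := rfl
    have e2 : ((1 - s * t : 𝓞 F) : F) = 1 - (s : F) * (t : F) := rfl
    rw [e1, e2, h]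
    field_simp
  rw [← map_sub, h2, map_mul, map_mul, map_inv₀, norm_mul, norm_mul, norm_inv, h1, inv_one, mul_one]
  exact lt_of_le_of_lt (mul_le_of_le_one_left (norm_nonneg _) (norm_jF_le ι a)) ht

/-- the completion of `F` at `v` -/
noncomputable def KF : IntermediateField ℚ_[p] (PadicAlgCl p) :=
  IntermediateField.adjoin ℚ_[p] (Set.range (jF ι))

theorem exists_field_close (x : PadicAlgCl p) (hx : x ∈ KF ι) : ∃ y : F, ‖x - jF ι y‖ < 1 := by
  let C : Subfield (PadicAlgCl p) := (jF ι).fieldRange.topologicalClosure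
  have hQ : ∀ c : ℚ_[p], algebraMap ℚ_[p] (PadicAlgCl p) c ∈ C := by
    intro c
    have hcl : IsClosed {c : ℚ_[p] | algebraMap ℚ_[p] (PadicAlgCl p) c ∈ C} := by
      have hcont : Continuous (algebraMap ℚ_[p] (PadicAlgCl p)) := by
        have : Isometry (algebraMap ℚ_[p] (PadicAlgCl p)) :=
          AddMonoidHomClass.isometry_of_norm _ (PadicAlgCl.norm_extends p)
        exact this.continuous
      exact (Subfield.isClosed_topologicalClosure _).preimage hcont
    refine isClosed_property (Padic.denseRange_ratCast p) hcl (fun r => ?_) c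
    rw [map_ratCast]
    exact SubfieldClass.ratCast_mem C r
  let C' : IntermediateField ℚ_[p] (PadicAlgCl p) := C.toIntermediateField hQ
  have hle : KF ι ≤ C' := by
    rw [KF, IntermediateField.adjoin_le_iff]
    rintro _ ⟨y, rfl⟩
    exact Subfield.le_topologicalClosure _ ⟨y, rfl⟩
  have hxC : x ∈ closure ((jF ι).fieldRange : Set (PadicAlgCl p)) := hle hx
  rw [Metric.mem_closure_iff] at hxC
  obtain ⟨_, ⟨y, rfl⟩, hy⟩ := hxC 1 one_pos
  exact ⟨y, by rwa [dist_eq_norm] at hy⟩

theorem exists_int_close' (x : PadicAlgCl p) (hx : x ∈ KF ι) (hx1 : ‖x‖ ≤ 1) :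
    ∃ z : 𝓞 F, ‖x - jF ι (z : F)‖ < 1 := by
  obtain ⟨y, hy⟩ := exists_field_close ι x hx
  have hy1 : ‖jF ι y‖ ≤ 1 := by
    have : jF ι y = x + -(x - jF ι y) := by ring
    rw [this]
    exact (IsUltrametricDist.norm_add_le_max _ _).trans (max_le hx1 (by rw [norm_neg]; exact hy.le))
  obtain ⟨z, hz⟩ := exists_int_close ι y hy1
  refine ⟨z, ?_⟩
  have : x - jF ι (z : F) = (x - jF ι y) + (jF ι y - jF ι (z : F)) := by ring
  rw [this]
  exact lt_of_le_of_lt (IsUltrametricDist.norm_add_le_max _ _) (max_lt hy hz)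

theorem fixB_mem {x : IntB p} (hx : x ∈ fixB (KF ι)) : x.val ∈ KF ι := by
  have h : x.val ∈ IntermediateField.fixedField (KF ι).fixingSubgroup := by
    intro g
    exact congrArg IntB.val (hx g)
  rwa [InfiniteGalois.fixedField_fixingSubgroup] at h

theorem pow_sub_close {x : IntB p} (hx : x ∈ fixB (KF ι)) :
    ‖x.val ^ residueCard ι - x.val‖ < 1 := by
  obtain ⟨z, hz⟩ := exists_int_close' ι x.val (fixB_mem ι hx) x.norm_val
  have h1 : Ideal.Quotient.mk (mB p) x = Ideal.Quotient.mk (mB p) (IntB.mk (jF ι (z : F)) (norm_jF_le ι z)) :=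
    mk_eq_mk.2 hz
  have h2 : Ideal.Quotient.mk (mB p) ((IntB.mk (jF ι (z : F)) (norm_jF_le ι z)) ^ residueCard ι) =
      Ideal.Quotient.mk (mB p) (IntB.mk (jF ι (z : F)) (norm_jF_le ι z)) := by
    rw [mk_eq_mk, IntB.val_pow, IntB.val_mk, ← map_pow, ← map_sub]
    exact pow_card_sub_mem ι z
  have h3 : Ideal.Quotient.mk (mB p) (x ^ residueCard ι) = Ideal.Quotient.mk (mB p) x := by
    rw [map_pow, h1, ← map_pow, h2]
  rwa [mk_eq_mk, IntB.val_pow] at h3

/-- At every finite place of a number field there is a geometric Frobenius element. -/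
theorem exists_isGeomFrob : ∃ Φ : LocalGal ι, IsGeomFrob ι Φ := by
  obtain ⟨f, hf⟩ := residueCard_eq ι
  obtain ⟨g, hg, hgx⟩ := exists_frob_local (KF ι) f (fun x hx => by
    rw [← hf]; exact pow_sub_close ι hx)
  have hinv : g⁻¹ ∈ (KF ι).fixingSubgroup := inv_mem hg
  obtain ⟨τ, hτ⟩ := exists_restrict ι g⁻¹ (fun x => by
    have h := hinv ⟨jF ι x, IntermediateField.subset_adjoin _ _ ⟨x, rfl⟩⟩
    exact h)
  refine ⟨⟨g⁻¹, τ, hτ⟩, fun x hx => ?_⟩
  change ‖(g⁻¹ x) ^ residueCard ι - x‖ < 1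
  have h1 := hgx (g⁻¹ x) (by rw [norm_gal]; exact hx)
  have h2 : g (g⁻¹ x) = x := by
    change (g * g⁻¹) x = x
    rw [mul_inv_cancel]; rfl
  rw [h2, ← hf, norm_sub_rev] at h1
  exact h1

end Global

end Pool.Agent.K9h38.FM
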