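import Mathlib
import Pool.Agent.K9h38.FM.Glob

/-!
Existence of the tame character as a function.
-/

set_option linter.unusedSectionVars false

namespace Pool.Agent.K9h38.FM

open Pool.Agent.W292.FM

variable {p : ℕ} [hp : Fact p.Prime] (l : ℕ) [hl : Fact l.Prime]

theorem exists_prim_step' (n : ℕ) (z : PadicAlgCl p) (hz : IsPrimitiveRoot z (l ^ n)) :
    ∃ w : PadicAlgCl p, IsPrimitiveRoot w (l ^ (n + 1)) ∧ w ^ l = z := by
  obtain ⟨w0, hw0⟩ := HasEnoughRootsOfUnity.exists_primitiveRoot (PadicAlgCl p) (l ^ (n + 1))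
  have h1 : IsPrimitiveRoot (w0 ^ l) (l ^ n) :=
    hw0.pow (pow_pos hl.out.pos _) (by rw [pow_succ, mul_comm])
  rcases Nat.eq_zero_or_pos n with rfl | hn
  · refine ⟨w0, hw0, ?_⟩
    rw [pow_zero] at hz h1
    have e1 : z = 1 := by simpa using hz
    have e2 : w0 ^ l = 1 := by simpa using h1
    rw [e1, e2]
  · obtain ⟨i, -, hi, hiz⟩ := (h1.isPrimitiveRoot_iff (k := l ^ n)).1 hz
    refine ⟨w0 ^ i, ?_, ?_⟩
    · refine hw0.pow_of_coprime i ?_
      have : i.Coprime l := Nat.Coprime.coprime_dvd_right (dvd_pow_self l hn.ne') hi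
      exact this.pow_right _
    · rw [← hiz, ← pow_mul, ← pow_mul, mul_comm]

theorem exists_system' : ∃ z : ℕ → PadicAlgCl p, (∀ n, IsPrimitiveRoot (z n) (l ^ n)) ∧
    ∀ n, z (n + 1) ^ l = z n := by
  choose f hf1 hf2 using exists_prim_step' (p := p) l
  let g : (n : ℕ) → {z : PadicAlgCl p // IsPrimitiveRoot z (l ^ n)} := fun n =>
    Nat.rec ⟨1, by simp⟩ (fun n z => ⟨f n z.1 z.2, hf1 n z.1 z.2⟩) n
  exact ⟨fun n => (g n).1, fun n => (g n).2, fun n => hf2 n (g n).1 (g n).2⟩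

theorem exists_roots (a : PadicAlgCl p) : ∃ π : ℕ → PadicAlgCl p, π 0 = a ∧
    ∀ n, π (n + 1) ^ l = π n := by
  have h : ∀ z : PadicAlgCl p, ∃ w : PadicAlgCl p, w ^ l = z := fun z =>
    IsAlgClosed.exists_pow_nat_eq z hl.out.pos
  choose f hf using h
  exact ⟨fun n => Nat.rec a (fun _ z => f z) n, rfl, fun n => hf _⟩

theorem exists_kummer {a : PadicAlgCl p} (ha : a ≠ 0) (π z : ℕ → PadicAlgCl p) (hπ0 : π 0 = a)
    (hπ : ∀ n, π (n + 1) ^ l = π n) (hz : ∀ n, IsPrimitiveRoot (z n) (l ^ n))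
    (hzz : ∀ n, z (n + 1) ^ l = z n) (g : PadicAlgCl p ≃+* PadicAlgCl p) (hg : g a = a) :
    ∃ t : ℤ_[l], ∀ n, g (π n) = z n ^ (t.toZModPow n).val * π n := by
  have hne : ∀ n, π n ≠ 0 := by
    intro n
    induction n with
    | zero => rw [hπ0]; exact ha
    | succ n ih =>
      intro h
      apply ih
      rw [← hπ n, h, zero_pow hl.out.ne_zero]
  have hpow : ∀ n, (π n) ^ l ^ n = a := by
    intro n
    induction n with
    | zero => simpa using hπ0
    | succ n ih => rw [pow_succ', pow_mul, hπ, ih]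
  have h1 : ∀ n, ∃ k : ℕ, g (π n) = z n ^ k * π n := by
    intro n
    have h2 : (g (π n) / π n) ^ l ^ n = 1 := by
      rw [div_pow, ← map_pow, hpow, hg, div_self ha]
    obtain ⟨k, -, hk⟩ := (hz n).eq_pow_of_pow_eq_one h2
    exact ⟨k, by rw [hk]; field_simp [hne n]⟩
  choose k hk using h1
  have hcomp : ∀ n, k (n + 1) ≡ k n [MOD l ^ n] := by
    intro n
    refine modEq_of_pow_eq (pow_ne_zero _ hl.out.ne_zero) (hz n) ?_
    have h2 := hk (n + 1)
    have h3 := congrArg (· ^ l) h2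
    simp only [mul_pow] at h3
    rw [← map_pow, hπ, ← pow_mul, mul_comm (k (n + 1)) l, pow_mul, hzz, hk n] at h3
    exact (mul_right_cancel₀ (hne n) h3).symm
  have hcomp' : ∀ n, (l : ℤ) ^ n ∣ ((k (n + 1) : ℕ) : ℤ) - ((k n : ℕ) : ℤ) := by
    intro n
    have := (hcomp n).symm.dvd
    exact_mod_cast this
  refine ⟨PadicInt.ofIntSeq (fun n => ((k n : ℕ) : ℤ))
    (PadicInt.isCauSeq_padicNorm_of_pow_dvd_sub _ l hcomp'), fun n => ?_⟩
  rw [PadicInt.toZModPow_ofIntSeq_of_pow_dvd_sub (fun n => ((k n : ℕ) : ℤ)) l hcomp' n, hk n]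
  congr 1
  have h2 : (((k n : ℕ) : ℤ) : ZMod (l ^ n)) = ((k n : ℕ) : ZMod (l ^ n)) := by push_cast; rfl
  rw [h2, ZMod.val_natCast]
  conv_lhs => rw [← Nat.div_add_mod (k n) (l ^ n), pow_add, pow_mul, (hz n).pow_eq_one, one_pow,
    one_mul]

end Pool.Agent.K9h38.FM
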