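import Mathlib
import Pool.Agent.K9h38.FM.Tame
import Pool.Agent.K9h38.FM.Defs
import Pool.Agent.K9h38.FM.Frob

/-!
# The character which satisfies condition 2 and is not de Rham
-/

set_option autoImplicit false
set_option linter.unusedSectionVars false

namespace Pool.Agent.K9h38.FM

open NumberField Pool.Agent.W292.FM
open scoped TensorProduct

section Proof

variable {F : Type} [Field F] [NumberField F] {p l : ℕ} [hp : Fact p.Prime] [hl : Fact l.Prime]

theorem isUnramified_eps (hpl : p ≠ l) (ι : AlgebraicClosure F →+* PadicAlgCl p) (g : LocalGal ι)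
    (hg : IsInertial ι g) : epsF F l g.glob = 1 := by
  have h := epsF_mul_eq_one l g.glob 1 (fun n t ht => by
    rw [pow_one]
    apply ι.injective
    rw [g.compat t]
    have h1 : (ι t) ^ l ^ n = 1 := by rw [← map_pow, ht, map_one]
    have h2 : (g.loc (ι t)) ^ l ^ n = 1 := by rw [← map_pow, h1, map_one]
    refine eq_of_close hpl h2 h1 (hg _ ?_)
    exact (norm_rootOfUnity (pow_ne_zero _ hl.out.ne_zero) h1).le)
  apply Units.ext
  simpa using h

theorem frob_eps (hpl : p ≠ l) (ι : AlgebraicClosure F →+* PadicAlgCl p) (g : LocalGal ι)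
    (hg : IsGeomFrob ι g) : ((epsF F l g.glob : ℤ_[l])) * ((residueCard ι : ℕ) : ℤ_[l]) = 1 := by
  refine epsF_mul_eq_one l g.glob _ (fun n t ht => ?_)
  apply ι.injective
  rw [map_pow, g.compat t]
  have h1 : (ι t) ^ l ^ n = 1 := by rw [← map_pow, ht, map_one]
  have h2 : ((g.loc (ι t)) ^ residueCard ι) ^ l ^ n = 1 := by
    rw [← pow_mul, mul_comm, pow_mul, ← map_pow, h1, map_one, one_pow]
  exact eq_of_close hpl h2 h1 (hg _ (norm_rootOfUnity (pow_ne_zero _ hl.out.ne_zero) h1).le)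

/-- the representation attached to a character of `ℤ_[l]ˣ` -/
noncomputable def repOf (F : Type) [Field F] [NumberField F] (χ : ℤ_[l]ˣ →* (PadicAlgCl l)ˣ) :
    Gal(AlgebraicClosure F/F) →* GL (Fin 1) (PadicAlgCl l) :=
  (Units.map ((Matrix.scalar (Fin 1) : PadicAlgCl l →+* Matrix (Fin 1) (Fin 1) (PadicAlgCl l)) :
    PadicAlgCl l →* Matrix (Fin 1) (Fin 1) (PadicAlgCl l))).comp (χ.comp (epsF F l))

theorem repOf_val (χ : ℤ_[l]ˣ →* (PadicAlgCl l)ˣ) (g : Gal(AlgebraicClosure F/F)) :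
    mat (repOf F χ g) =
      Matrix.scalar (Fin 1) ((χ (epsF F l g) : (PadicAlgCl l)ˣ) : PadicAlgCl l) := rfl

theorem continuous_repOf (χ : ℤ_[l]ˣ →* (PadicAlgCl l)ˣ) (hχ : Continuous χ) :
    Continuous (repOf F χ) := by
  have h1 : Continuous ((Matrix.scalar (Fin 1) : PadicAlgCl l →+*
      Matrix (Fin 1) (Fin 1) (PadicAlgCl l)) : PadicAlgCl l →* Matrix (Fin 1) (Fin 1) (PadicAlgCl l)) := by
    change Continuous fun a : PadicAlgCl l => Matrix.diagonal (fun _ : Fin 1 => a)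
    exact Continuous.matrix_diagonal (continuous_pi fun _ => continuous_id)
  exact (Continuous.units_map _ h1).comp (hχ.comp (continuous_epsF F l))

/-- the trivial filtration -/
noncomputable def trivFil (l : ℕ) [Fact l.Prime] (j : ℤ) :
    Submodule (PadicAlgCl l) (Fin 1 → PadicAlgCl l) := if 0 ≤ j then ⊤ else ⊥

theorem trivFil_of_nonneg {j : ℤ} (h : 0 ≤ j) : trivFil l j = ⊤ := if_pos h

theorem trivFil_of_neg {j : ℤ} (h : j < 0) : trivFil l j = ⊥ := if_neg (not_le.2 h)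

theorem isMonodromy_triv : IsMonodromyFiltration (0 : Matrix (Fin 1) (Fin 1) (PadicAlgCl l))
    (trivFil l) where
  mono := by
    intro i j hij
    rcases lt_or_ge i 0 with h | h
    · rw [trivFil_of_neg h]; exact bot_le
    · rw [trivFil_of_nonneg (h.trans hij)]; exact le_top
  bot := ⟨-1, trivFil_of_neg (by norm_num)⟩
  top := ⟨0, trivFil_of_nonneg le_rfl⟩
  map := by
    intro i x _
    rw [Matrix.zero_mulVec]
    exact zero_mem _
  inj := by
    intro j x _ h
    rcases Nat.eq_zero_or_pos j with rfl | hj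
    · simpa using h
    · rw [trivFil_of_nonneg (by omega)]; trivial
  surj := by
    intro j y hy
    rcases Nat.eq_zero_or_pos j with rfl | hj
    · refine ⟨y, by simpa using hy, ?_⟩
      simp
    · rw [trivFil_of_neg (by omega)] at hy
      rw [Submodule.mem_bot] at hy
      refine ⟨0, zero_mem _, ?_⟩
      rw [hy]; simp

theorem repOf_inertial (χ : ℤ_[l]ˣ →* (PadicAlgCl l)ˣ) (hpl : p ≠ l)
    (ι : AlgebraicClosure F →+* PadicAlgCl p) (g : LocalGal ι) (hg : IsInertial ι g) :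
    repOf F χ g.glob = 1 := by
  rw [repOf, MonoidHom.comp_apply, MonoidHom.comp_apply, isUnramified_eps hpl ι g hg, map_one,
    map_one]

/-- The unramified Weil-Deligne representation attached to the representation. -/
noncomputable def wdOf (χ : ℤ_[l]ˣ →* (PadicAlgCl l)ˣ) (hpl : p ≠ l)
    (ι : AlgebraicClosure F →+* PadicAlgCl p) : WeilDeligne ι l 1 where
  r := fun g => repOf F χ g.glob
  N := 0
  hom := fun g _ h _ => by rw [LocalGal.mul_glob, map_mul]
  smooth := ⟨⊤, isOpen_univ, fun g hg _ => repOf_inertial χ hpl ι g hg⟩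
  nilpotent := IsNilpotent.zero
  inertia := fun g _ => by rw [mul_zero, zero_mul]
  frobenius := fun g _ => by rw [mul_zero, zero_mul, smul_zero]

theorem wdOf_r (χ : ℤ_[l]ˣ →* (PadicAlgCl l)ˣ) (hpl : p ≠ l)
    (ι : AlgebraicClosure F →+* PadicAlgCl p) (g : LocalGal ι) :
    (wdOf χ hpl ι).r g = repOf F χ g.glob := rfl

theorem exists_tame (ι : AlgebraicClosure F →+* PadicAlgCl p) (l : ℕ) [hl : Fact l.Prime] :
    ∃ t : LocalGal ι → ℤ_[l], IsTame ι t := by
  obtain ⟨z, hz, hzz⟩ := exists_system' (p := p) l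
  obtain ⟨π, hπ0, hπ⟩ := exists_roots (p := p) l (p : PadicAlgCl p)
  have hp0 : (p : PadicAlgCl p) ≠ 0 := by exact_mod_cast hp.out.ne_zero
  have h : ∀ g : LocalGal ι, ∃ t : ℤ_[l], ∀ n, g.loc (π n) = z n ^ (t.toZModPow n).val * π n :=
    fun g => exists_kummer l hp0 π z hπ0 hπ hz hzz (g.loc : PadicAlgCl p ≃+* PadicAlgCl p)
      (map_natCast _ _)
  choose t ht using h
  exact ⟨t, π, z, hπ0, hπ, hz, hzz, fun g _ n => ht g n⟩

theorem scale_zero {n : ℕ} (x : ℤ_[l]) :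
    scale x (0 : Matrix (Fin n) (Fin n) (PadicAlgCl l)) = 0 := smul_zero _

theorem nexp_zero {A : Type} [Ring A] [Module ℚ A] : IsNilpotent.exp (0 : A) = 1 := by
  rw [IsNilpotent.exp_eq_sum (k := 1) (by simp)]
  simp

theorem isAttached_wdOf (χ : ℤ_[l]ˣ →* (PadicAlgCl l)ˣ) (hpl : p ≠ l)
    (ι : AlgebraicClosure F →+* PadicAlgCl p) (Φ : LocalGal ι) :
    IsAttached (repOf F χ) ι Φ (wdOf χ hpl ι) := by
  obtain ⟨t, ht⟩ := exists_tame ι l
  have hN : (wdOf χ hpl ι).N = 0 := rfl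
  refine ⟨t, ht, ⟨⊤, isOpen_univ, fun g hg _ => ?_⟩, fun m g hg => ?_⟩
  · rw [repOf_inertial χ hpl ι g hg, hN, scale_zero, nexp_zero]
    rfl
  · rw [hN, scale_zero, neg_zero, nexp_zero, mul_one, wdOf_r]

theorem root_of_scalar {a α : PadicAlgCl l}
    (h : (Matrix.scalar (Fin 1) a : Matrix (Fin 1) (Fin 1) (PadicAlgCl l)).charpoly.IsRoot α) :
    α = a := by
  rw [Polynomial.IsRoot.def, Matrix.eval_charpoly, Matrix.det_fin_one] at h
  simpa [sub_eq_zero] using h

theorem pow_eq_of_frob {χ : ℤ_[l]ˣ →* (PadicAlgCl l)ˣ} {M : ℕ}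
    (hχ : ∀ x : ℤ_[l]ˣ, χ x ^ (2 * M) = ((uU l x) ^ M)⁻¹) (hpl : p ≠ l)
    (ι : AlgebraicClosure F →+* PadicAlgCl p) (g : LocalGal ι) (hg : IsGeomFrob ι g) :
    ((χ (epsF F l g.glob) : (PadicAlgCl l)ˣ) : PadicAlgCl l) ^ (2 * M) =
      ((residueCard ι : ℕ) : PadicAlgCl l) ^ M := by
  have h1 := frob_eps hpl ι g hg
  have h2 : ((uU l (epsF F l g.glob) : (PadicAlgCl l)ˣ) : PadicAlgCl l) *
      ((residueCard ι : ℕ) : PadicAlgCl l) = 1 := by
    rw [uU_val]
    have h3 := congrArg (fun x : ℤ_[l] => algebraMap ℚ_[l] (PadicAlgCl l) (x : ℚ_[l])) h1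
    simpa using h3
  rw [← Units.val_pow_eq_pow_val, hχ, ← inv_pow, Units.val_pow_eq_pow_val]
  congr 1
  rw [Units.val_inv_eq_inv_val]
  exact (eq_inv_of_mul_eq_one_right h2).symm

theorem isIntegral_of_pow {M q : ℕ} (hM : 0 < M) {α : PadicAlgCl l}
    (h : α ^ (2 * M) = (q : PadicAlgCl l) ^ M) : IsIntegral ℤ α := by
  have h1 : IsIntegral ℤ (α ^ (2 * M)) := by
    rw [h]
    have : ((q : PadicAlgCl l) ^ M) = algebraMap ℤ (PadicAlgCl l) ((q : ℤ) ^ M) := by simp
    rw [this]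
    exact isIntegral_algebraMap
  exact h1.of_pow (by omega)

theorem isWeilNumber_of_pow {M q : ℕ} (hM : 0 < M) {α : PadicAlgCl l}
    (h : α ^ (2 * M) = (q : PadicAlgCl l) ^ M) : IsWeilNumber q 1 α := by
  have hint : IsIntegral ℤ α := isIntegral_of_pow hM h
  have hint2 : IsIntegral ℚ α := hint.tower_top
  refine ⟨hint2.isAlgebraic, fun z hz => ?_⟩
  have h1 : minpoly ℚ α ∣ Polynomial.X ^ (2 * M) - Polynomial.C ((q : ℚ) ^ M) := by
    apply minpoly.dvd
    simp [h]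
  have h2 : z ^ (2 * M) = (q : ℂ) ^ M := by
    obtain ⟨R, hR⟩ := h1
    have h3 := congrArg (Polynomial.aeval z) hR
    rw [map_mul, hz, zero_mul] at h3
    simpa [sub_eq_zero] using h3
  have h3 : ‖z‖ ^ (2 * M) = (q : ℝ) ^ M := by
    have := congrArg norm h2
    simpa using this
  have h4 : ((q : ℝ) ^ ((1 : ℝ) / 2)) ^ (2 * M) = (q : ℝ) ^ M := by
    rw [pow_mul, ← Real.rpow_natCast ((q : ℝ) ^ ((1 : ℝ) / 2)) 2, ← Real.rpow_mul (by positivity)]
    norm_num
  rw [← h4] at h3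
  have h5 := (pow_left_inj₀ (norm_nonneg z) (by positivity) (by omega)).1 h3
  rw [h5]
  norm_num

theorem condition2_repOf {χ : ℤ_[l]ˣ →* (PadicAlgCl l)ˣ} {M : ℕ} (hM : 0 < M)
    (hχ : ∀ x : ℤ_[l]ˣ, χ x ^ (2 * M) = ((uU l x) ^ M)⁻¹) : Condition2 (repOf F χ) := by
  refine ⟨1, fun p hp hpl ι => ⟨exists_isGeomFrob ι, fun Φ _ =>
    ⟨wdOf χ hpl ι, isAttached_wdOf χ hpl ι Φ, ?_, ?_⟩⟩⟩
  · intro g hg α hα
    rw [wdOf_r, repOf_val] at hα
    rw [root_of_scalar hα]
    exact isIntegral_of_pow hM (pow_eq_of_frob hχ hpl ι g hg)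
  · refine ⟨trivFil l, isMonodromy_triv, fun g hg j α x hx hx' h => ?_⟩
    have hj : j = 0 := by
      rcases lt_trichotomy j 0 with h1 | h1 | h1
      · rw [trivFil_of_neg h1] at hx
        exact absurd (by rw [(Submodule.mem_bot _).1 hx]; exact zero_mem _) hx'
      · exact h1
      · rw [trivFil_of_nonneg (by omega)] at hx'
        exact absurd trivial hx'
    subst hj
    rw [trivFil_of_neg (by norm_num), Submodule.mem_bot] at h hx'
    rw [wdOf_r, repOf_val] at h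
    have h0 : x 0 ≠ 0 := by
      intro h0
      apply hx'
      ext i
      rw [Subsingleton.elim i 0, h0]
      rfl
    have h1 := congrFun h 0
    have h2 : ((χ (epsF F l g.glob) : (PadicAlgCl l)ˣ) : PadicAlgCl l) = α := by
      simp only [Pi.sub_apply, Pi.smul_apply, Pi.zero_apply, smul_eq_mul] at h1
      have h3 : (Matrix.scalar (Fin 1) ((χ (epsF F l g.glob) : (PadicAlgCl l)ˣ) : PadicAlgCl l)).mulVec x 0
          = ((χ (epsF F l g.glob) : (PadicAlgCl l)ˣ) : PadicAlgCl l) * x 0 := by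
        simp [Matrix.mulVec, dotProduct]
      rw [h3, ← sub_mul] at h1
      exact sub_eq_zero.1 ((mul_eq_zero.1 h1).resolve_right h0)
    rw [← h2, add_zero]
    exact isWeilNumber_of_pow hM (pow_eq_of_frob hχ hpl ι g hg)

theorem almostUnramified_repOf (χ : ℤ_[l]ˣ →* (PadicAlgCl l)ˣ) : AlmostUnramified (repOf F χ) := by
  refine ⟨{l}, fun p hp hpl ι g hg => ?_⟩
  exact repOf_inertial χ (by simpa using hpl) ι g hg

theorem isIrred_one (ρ : Gal(AlgebraicClosure F/F) →* GL (Fin 1) (PadicAlgCl l)) : IsIrred ρ := by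
  refine ⟨one_pos, fun W _ => ?_⟩
  rcases eq_or_ne W ⊥ with h | h
  · exact Or.inl h
  · right
    obtain ⟨x, hx, hx0⟩ := (Submodule.ne_bot_iff W).1 h
    have h0 : x 0 ≠ 0 := by
      intro h0
      apply hx0
      ext i
      rw [Subsingleton.elim i 0, h0]
      rfl
    rw [eq_top_iff]
    intro y _
    have : y = (y 0 / x 0) • x := by
      ext i
      rw [Subsingleton.elim i 0, Pi.smul_apply, smul_eq_mul, div_mul_cancel₀ _ h0]
    rw [this]
    exact W.smul_mem _ hx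

/-- The open subgroup used at a place above `l`. -/
theorem isOpen_fix (ι : AlgebraicClosure F →+* PadicAlgCl l) :
    ∃ U : Subgroup Gal(PadicAlgCl l/ℚ_[l]), IsOpen (U : Set Gal(PadicAlgCl l/ℚ_[l])) ∧
      ∀ σ ∈ U, ∀ x : F, σ (ι (algebraMap F (AlgebraicClosure F) x)) =
        ι (algebraMap F (AlgebraicClosure F) x) := by
  obtain ⟨a, ha⟩ := Field.exists_primitive_element ℚ F
  let b : PadicAlgCl l := ι (algebraMap F (AlgebraicClosure F) a)
  let L : IntermediateField ℚ_[l] (PadicAlgCl l) := IntermediateField.adjoin ℚ_[l] {b}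
  have hfin : FiniteDimensional ℚ_[l] L :=
    IntermediateField.adjoin.finiteDimensional (Algebra.IsAlgebraic.isAlgebraic b).isIntegral
  refine ⟨L.fixingSubgroup, L.fixingSubgroup_isOpen, fun σ hσ x => ?_⟩
  have hb : σ b = b := hσ ⟨b, IntermediateField.mem_adjoin_simple_self _ _⟩
  have hx : x ∈ IntermediateField.adjoin ℚ {a} := by rw [ha]; trivial
  have h1 : x ∈ (IntermediateField.adjoin ℚ {a}).toSubalgebra := hx
  rw [IntermediateField.adjoin_simple_toSubalgebra_of_isAlgebraic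
    (Algebra.IsAlgebraic.isAlgebraic a)] at h1
  clear hx
  induction h1 using Algebra.adjoin_induction with
  | mem x hx => rw [Set.mem_singleton_iff.1 hx]; exact hb
  | algebraMap r => simp
  | add x y _ _ hx hy => simp only [map_add, hx, hy]
  | mul x y _ _ hx hy => simp only [map_mul, hx, hy]

/-- The basis of `B_dR ⊗ ℚ̄_l` over `B_dR` given by a basis of `ℚ̄_l`. -/
noncomputable def basisBE {I : Type} (e : Module.Basis I ℚ_[l] (PadicAlgCl l)) :
    Module.Basis I (Bdr l) (Bdr l ⊗[ℚ_[l]] PadicAlgCl l) := Algebra.TensorProduct.basis (Bdr l) e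

/-- The coordinates of an element of `B_dR ⊗ ℚ̄_l`. -/
noncomputable def coord {I : Type} (e : Module.Basis I ℚ_[l] (PadicAlgCl l)) (z : BE l) (i : I) :
    Bdr l := (basisBE e).repr z i

theorem coord_injective {I : Type} (e : Module.Basis I ℚ_[l] (PadicAlgCl l)) {z : BE l}
    (h : ∀ i, coord e z i = 0) : z = 0 := by
  have h1 : (basisBE e).repr z = 0 := by
    ext i
    exact h i
  exact (LinearEquiv.map_eq_zero_iff _).1 h1

theorem coord_actE (σ : Gal(PadicAlgCl l/ℚ_[l])) {I : Type} (e : Module.Basis I ℚ_[l] (PadicAlgCl l))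
    (z : Bdr l ⊗[ℚ_[l]] PadicAlgCl l) (i : I) :
    coord e (actE l σ z) i = actBdr l σ (coord e z i) := by
  have key : ∀ z : Bdr l ⊗[ℚ_[l]] PadicAlgCl l, (basisBE e).repr
      (Algebra.TensorProduct.map (actBdr l σ) (AlgHom.id ℚ_[l] (PadicAlgCl l)) z) i =
        actBdr l σ ((basisBE e).repr z i) := by
    intro z
    induction z using TensorProduct.induction_on with
    | zero => simp
    | tmul b y =>
      rw [Algebra.TensorProduct.map_tmul, AlgHom.id_apply, basisBE,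
        Algebra.TensorProduct.basis_repr_tmul, Algebra.TensorProduct.basis_repr_tmul]
      simp only [Finsupp.smul_apply, Finsupp.mapRange_apply, smul_eq_mul]
      rw [map_mul, AlgHom.commutes]
    | add x y hx hy => simp only [map_add, Finsupp.add_apply, hx, hy]
  exact key z

theorem coord_smul {I : Type} (e : Module.Basis I ℚ_[l] (PadicAlgCl l)) (c : ℚ_[l]) (z : BE l) (i : I) :
    coord e (coefE l (algebraMap ℚ_[l] (PadicAlgCl l) c) * z) i =
      algebraMap ℚ_[l] (Bdr l) c * coord e z i := by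
  have key : ∀ z : Bdr l ⊗[ℚ_[l]] PadicAlgCl l, (basisBE e).repr
      ((Algebra.TensorProduct.includeRight : PadicAlgCl l →ₐ[ℚ_[l]] Bdr l ⊗[ℚ_[l]] PadicAlgCl l)
        (algebraMap ℚ_[l] (PadicAlgCl l) c) * z) i =
        algebraMap ℚ_[l] (Bdr l) c * ((basisBE e).repr z i) := by
    intro z
    have h := Algebra.smul_def (R := Bdr l) (A := Bdr l ⊗[ℚ_[l]] PadicAlgCl l)
      (algebraMap ℚ_[l] (Bdr l) c) z
    have h2 : (Algebra.TensorProduct.includeRight : PadicAlgCl l →ₐ[ℚ_[l]] Bdr l ⊗[ℚ_[l]] PadicAlgCl l)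
        (algebraMap ℚ_[l] (PadicAlgCl l) c) * z = (algebraMap ℚ_[l] (Bdr l) c) • z := by
      rw [AlgHom.commutes, h]
      rfl
    rw [h2, map_smul]
    rfl
  exact key z

/-- The case of `Bdr`. -/
theorem no_eigen' (U : Subgroup Gal(PadicAlgCl l/ℚ_[l]))
    (hU : IsOpen (U : Set Gal(PadicAlgCl l/ℚ_[l]))) (lam : Gal(PadicAlgCl l/ℚ_[l]) → ℤ_[l]ˣ)
    {m : ℤ} (hm : Odd m) (hlam : ∀ g ∈ U, lam g ^ 2 = kap l g ^ m) (b : Bdr l)
    (h : ∀ g ∈ U, actBdr l g b =
      algebraMap ℚ_[l] (Bdr l) ((lam g : ℤ_[l]) : ℚ_[l]) * b) : b = 0 :=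
  no_eigen l U hU lam hm hlam b h

instance nontrivial_Bdr : Nontrivial (Bdr l) := nontrivial_BdR l

instance nontrivial_BE : Nontrivial (BE l) := by
  let e := Module.Basis.ofVectorSpace ℚ_[l] (PadicAlgCl l)
  obtain ⟨i⟩ := e.index_nonempty
  exact ⟨(basisBE e) i, 0, (basisBE e).ne_zero i⟩

theorem nonempty_emb (F : Type) [Field F] [NumberField F] (l : ℕ) [Fact l.Prime] :
    Nonempty (AlgebraicClosure F →+* PadicAlgCl l) := by
  have h : Algebra.IsAlgebraic ℚ (AlgebraicClosure F) :=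
    Algebra.IsAlgebraic.trans ℚ F (AlgebraicClosure F)
  exact ⟨(IsAlgClosed.lift : AlgebraicClosure F →ₐ[ℚ] PadicAlgCl l).toRingHom⟩

/-- At a place above `l` there are no nonzero invariants in `B_dR ⊗ V`. -/
theorem dDR_repOf {χ : ℤ_[l]ˣ →* (PadicAlgCl l)ˣ} (hχ : ∀ x : H4 l, χ x = (uU l (sqH l x))⁻¹)
    (ι : AlgebraicClosure F →+* PadicAlgCl l) (x : Fin 1 → BE l) (hx : x ∈ DdR (repOf F χ) ι) :
    x = 0 := by
  classical
  obtain ⟨U1, hU1, hfix⟩ := isOpen_fix (F := F) ι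
  let U : Subgroup Gal(PadicAlgCl l/ℚ_[l]) := U1 ⊓ (H4 l).comap (kap l)
  have hU : IsOpen (U : Set Gal(PadicAlgCl l/ℚ_[l])) :=
    hU1.inter ((isOpen_H4 l).preimage (continuous_kap l))
  let lam : Gal(PadicAlgCl l/ℚ_[l]) → ℤ_[l]ˣ := fun σ =>
    if h : kap l σ ∈ H4 l then sqH l ⟨kap l σ, h⟩ else 1
  have hlam : ∀ σ ∈ U, lam σ ^ 2 = kap l σ ^ (1 : ℤ) := by
    intro σ hσ
    have h : kap l σ ∈ H4 l := hσ.2
    simp only [lam, dif_pos h]
    rw [sqH_sq, zpow_one]
  -- the relation for the element of `B_dR ⊗ ℚ̄_l`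
  set z : BE l := x 0 with hz
  have hrel : ∀ σ ∈ U, actE l σ z =
      coefE l
        (algebraMap ℚ_[l] (PadicAlgCl l) ((lam σ : ℤ_[l]) : ℚ_[l])) * z := by
    intro σ hσ
    obtain ⟨τ, hτ⟩ := exists_restrict ι σ (hfix σ hσ.1)
    have h1 := congrFun (hx ⟨σ, τ, hτ⟩) 0
    have heps : epsF F l τ = kap l σ := epsF_eq_kap l ι τ σ hτ
    have h : kap l σ ∈ H4 l := hσ.2
    have hval : ((χ (epsF F l τ) : (PadicAlgCl l)ˣ) : PadicAlgCl l) *
        algebraMap ℚ_[l] (PadicAlgCl l) ((lam σ : ℤ_[l]) : ℚ_[l]) = 1 := by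
      have h2 := hχ ⟨kap l σ, h⟩
      simp only [lam, dif_pos h]
      rw [heps]
      change ((χ ((⟨kap l σ, h⟩ : H4 l) : ℤ_[l]ˣ) : (PadicAlgCl l)ˣ) : PadicAlgCl l) * _ = 1
      rw [h2, ← uU_val, ← Units.val_mul, inv_mul_cancel, Units.val_one]
    have h3 : coefE l
        ((χ (epsF F l τ) : (PadicAlgCl l)ˣ) : PadicAlgCl l) * actE l σ z = z := by
      rw [repOf_val] at h1
      simpa [Matrix.mulVec, dotProduct] using h1
    calc actE l σ z = coefE l
          (((χ (epsF F l τ) : (PadicAlgCl l)ˣ) : PadicAlgCl l) *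
            algebraMap ℚ_[l] (PadicAlgCl l) ((lam σ : ℤ_[l]) : ℚ_[l])) * actE l σ z := by
            rw [hval, map_one, one_mul]
      _ = coefE l
            (algebraMap ℚ_[l] (PadicAlgCl l) ((lam σ : ℤ_[l]) : ℚ_[l])) *
          (coefE l
            ((χ (epsF F l τ) : (PadicAlgCl l)ˣ) : PadicAlgCl l) * actE l σ z) := by
            rw [map_mul]; ring
      _ = _ := by rw [h3]
  -- coordinates with respect to a basis of `ℚ̄_l` over `ℚ_l`
  let e := Module.Basis.ofVectorSpace ℚ_[l] (PadicAlgCl l)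
  have hz0 : z = 0 := by
    refine coord_injective e fun i => ?_
    refine no_eigen' U hU lam (m := 1) odd_one hlam _ fun σ hσ => ?_
    have h1 := hrel σ hσ
    have h2 : coord e (actE l σ z) i = actBdr l σ (coord e z i) := coord_actE σ e z i
    rw [← h2, h1, coord_smul]
  ext i
  rw [Subsingleton.elim i 0]
  exact hz0

/-- The result. -/
theorem main (F : Type) [Field F] [NumberField F] (l : ℕ) [Fact l.Prime] :
    ∃ ρ : Gal(AlgebraicClosure F/F) →* GL (Fin 1) (PadicAlgCl l),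
      Continuous ρ ∧ IsIrred ρ ∧ AlmostUnramified ρ ∧ Condition2 ρ ∧
        (∀ ι : AlgebraicClosure F →+* PadicAlgCl l, ¬ IsDeRham ρ ι) ∧ ¬ Condition1 ρ := by
  obtain ⟨χ, hc, hχ, M, hM, hχM⟩ := exists_chi l
  have hdr : ∀ ι : AlgebraicClosure F →+* PadicAlgCl l, ¬ IsDeRham (repOf F χ) ι := by
    intro ι h
    have h1 : DdR (repOf F χ) ι ⊆ {0} := fun x hx => dDR_repOf hχ ι x hx
    have h2 : Submodule.span (BE l) (DdR (repOf F χ) ι) ≤ ⊥ := by
      rw [← Submodule.span_singleton_eq_bot.2 (rfl : (0 : Fin 1 → BE l) = 0)]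
      exact Submodule.span_mono h1
    rw [h, top_le_iff] at h2
    exact bot_ne_top h2
  obtain ⟨ι⟩ := nonempty_emb F l
  exact ⟨repOf F χ, continuous_repOf χ hc, isIrred_one _, almostUnramified_repOf χ,
    condition2_repOf hM hχM, hdr, fun h => hdr ι (h ι).1⟩

end Proof

end Pool.Agent.K9h38.FM
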